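import Mathlib

/-! Kempe moves as a symmetric relation on functions, and the local structure of squares. -/

namespace Pool.Agent.Kempe5e

variable {V κ : Type*}

/-- proper colouring -/
def Proper (G : SimpleGraph V) (c : V → κ) : Prop := ∀ u v, G.Adj u v → c u ≠ c v

/-- the set `D` induces a connected subgraph (or is empty) -/
def Conn (G : SimpleGraph V) (D : Set V) : Prop :=
  ∀ u ∈ D, ∀ v ∈ D, Relation.ReflTransGen (fun x y => G.Adj x y ∧ x ∈ D ∧ y ∈ D) u v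

/-- all changes between `c` and `d` stay inside the colours `a`, `b` -/
def Sw (c d : V → κ) (a b : κ) : Prop :=
  ∀ v, c v ≠ d v → (c v = a ∨ c v = b) ∧ (d v = a ∨ d v = b)

/-- all changes between `c` and `d` stay inside `τ` -/
def Eqv (τ : Set κ) (c d : V → κ) : Prop := ∀ v, c v ≠ d v → c v ∈ τ ∧ d v ∈ τ

/-- the colour `a` takes part in a change from `c` to `d` -/
def In (c d : V → κ) (a : κ) : Prop := ∃ v, c v ≠ d v ∧ (c v = a ∨ d v = a)

/-- Kempe adjacency -/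
structure KA (G : SimpleGraph V) (c d : V → κ) : Prop where
  pc : Proper G c
  pd : Proper G d
  ne : ∃ v, c v ≠ d v
  sw : ∃ a b, Sw c d a b
  conn : Conn G {v | c v ≠ d v}

variable {G : SimpleGraph V}

theorem Sw.symm {c d : V → κ} {a b : κ} (h : Sw c d a b) : Sw d c a b :=
  fun v hv => (h v (Ne.symm hv)).symm

theorem Sw.swap {c d : V → κ} {a b : κ} (h : Sw c d a b) : Sw c d b a :=
  fun v hv => ⟨(h v hv).1.symm, (h v hv).2.symm⟩

theorem Sw.trans {c d e : V → κ} {a b : κ} (h : Sw c d a b) (h' : Sw d e a b) : Sw c e a b := by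
  intro v hv
  have h1 := h v
  have h2 := h' v
  grind

theorem Sw.or {c d : V → κ} {a b : κ} (h : Sw c d a b) (v : V) :
    c v = d v ∨ (c v = a ∧ d v = b) ∨ (c v = b ∧ d v = a) := by
  have := h v
  by_cases e : c v = d v
  · exact Or.inl e
  · grind

theorem Sw.of_or {c d : V → κ} {a b : κ}
    (h : ∀ v, c v = d v ∨ (c v = a ∧ d v = b) ∨ (c v = b ∧ d v = a)) : Sw c d a b := by
  intro v hv
  have := h v
  grind

theorem In.symm {c d : V → κ} {a : κ} (h : In c d a) : In d c a := by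
  obtain ⟨v, h1, h2⟩ := h
  exact ⟨v, h1.symm, h2.symm⟩

theorem In_comm {c d : V → κ} {a : κ} : In c d a ↔ In d c a := ⟨In.symm, In.symm⟩

theorem Eqv.refl (τ : Set κ) (c : V → κ) : Eqv τ c c := fun _ h => (h rfl).elim

theorem Eqv.symm {τ : Set κ} {c d : V → κ} (h : Eqv τ c d) : Eqv τ d c :=
  fun v hv => (h v (Ne.symm hv)).symm

theorem Eqv.trans {τ : Set κ} {c d e : V → κ} (h : Eqv τ c d) (h' : Eqv τ d e) : Eqv τ c e := by
  intro v hv
  have h1 := h v
  have h2 := h' v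
  grind

theorem eqv_iff {τ : Set κ} {c d : V → κ} : Eqv τ c d ↔ ∀ a, In c d a → a ∈ τ := by
  constructor
  · rintro h a ⟨v, h1, h2 | h2⟩
    · exact h2 ▸ (h v h1).1
    · exact h2 ▸ (h v h1).2
  · intro h v hv
    exact ⟨h _ ⟨v, hv, Or.inl rfl⟩, h _ ⟨v, hv, Or.inr rfl⟩⟩

theorem sw_iff {c d : V → κ} {a b : κ} : Sw c d a b ↔ ∀ x, In c d x → x = a ∨ x = b := by
  constructor
  · rintro h x ⟨v, h1, h2 | h2⟩
    · exact h2 ▸ (h v h1).1
    · exact h2 ▸ (h v h1).2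
  · intro h v hv
    exact ⟨h _ ⟨v, hv, Or.inl rfl⟩, h _ ⟨v, hv, Or.inr rfl⟩⟩

theorem Sw.eqv {τ : Set κ} {c d : V → κ} {a b : κ} (h : Sw c d a b) (ha : a ∈ τ) (hb : b ∈ τ) :
    Eqv τ c d := by
  intro v hv
  have := h v hv
  grind

theorem not_in_iff {c d : V → κ} {a : κ} : ¬ In c d a ↔ ∀ v, (c v = a ↔ d v = a) := by
  constructor
  · intro h v
    by_contra hh
    apply h
    refine ⟨v, ?_, ?_⟩ <;> grind
  · rintro h ⟨v, h1, h2⟩
    have := h v
    grind

theorem In.trans {c d e : V → κ} {a : κ} (h : In c e a) : In c d a ∨ In d e a := by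
  by_contra hh
  push Not at hh
  obtain ⟨h1, h2⟩ := hh
  rw [not_in_iff] at h1 h2
  obtain ⟨v, h3, h4⟩ := h
  have := h1 v
  have := h2 v
  grind

theorem Sw.in_iff {c d : V → κ} {a b : κ} (h : Sw c d a b) (hne : ∃ v, c v ≠ d v) (x : κ) :
    In c d x ↔ x = a ∨ x = b := by
  refine ⟨sw_iff.1 h x, ?_⟩
  obtain ⟨v, hv⟩ := hne
  have := h v hv
  intro hx
  refine ⟨v, hv, ?_⟩
  grind

theorem Sw.ne {c d : V → κ} {a b : κ} (h : Sw c d a b) (hne : ∃ v, c v ≠ d v) : a ≠ b := by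
  obtain ⟨v, hv⟩ := hne
  have := h v hv
  grind

theorem Sw.at {c d : V → κ} {a b : κ} (h : Sw c d a b) {v : V} (hv : c v ≠ d v) :
    Sw c d (c v) (d v) := by
  intro u hu
  have := h v hv
  have := h u hu
  grind

theorem KA.symm {c d : V → κ} (h : KA G c d) : KA G d c where
  pc := h.pd
  pd := h.pc
  ne := by obtain ⟨v, hv⟩ := h.ne; exact ⟨v, hv.symm⟩
  sw := by obtain ⟨a, b, hs⟩ := h.sw; exact ⟨a, b, hs.symm⟩
  conn := by
    have : {v | d v ≠ c v} = {v | c v ≠ d v} := by ext v; simp [ne_comm]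
    rw [this]; exact h.conn

theorem KA.ne' {c d : V → κ} (h : KA G c d) : c ≠ d := by
  obtain ⟨v, hv⟩ := h.ne
  exact fun e => hv (e ▸ rfl)

theorem KA.swat {c d : V → κ} (h : KA G c d) {v : V} (hv : c v ≠ d v) : Sw c d (c v) (d v) := by
  obtain ⟨a, b, hs⟩ := h.sw
  exact hs.at hv

theorem KA.lab {c d : V → κ} (h : KA G c d) :
    ∃ a b, a ≠ b ∧ Sw c d a b ∧ ∀ x, In c d x ↔ x = a ∨ x = b := by
  obtain ⟨a, b, hs⟩ := h.sw
  exact ⟨a, b, hs.ne h.ne, hs, hs.in_iff h.ne⟩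

/-- a changed set is closed under adjacency inside its two colours -/
theorem closure {c d : V → κ} {a b : κ} (pc : Proper G c) (pd : Proper G d) (hs : Sw c d a b)
    {v y : V} (hv : c v ≠ d v) (hadj : G.Adj v y) (hy : c y = a ∨ c y = b) : c y ≠ d y := by
  have h1 := hs v hv
  have h2 := pc v y hadj
  have h3 := pd v y hadj
  grind

theorem Conn.sub {D P : Set V} (h : Conn G D) {v : V} (hv : v ∈ D) (hp : v ∈ P)
    (hcl : ∀ x ∈ D, ∀ y ∈ D, G.Adj x y → x ∈ P → y ∈ P) : ∀ y ∈ D, y ∈ P := by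
  intro y hy
  have := h v hv y hy
  induction this with
  | refl => exact hp
  | tail _ h2 ih => exact hcl _ h2.2.1 _ h2.2.2 h2.1 (ih h2.2.1)

theorem Conn.cross {D P : Set V} (h : Conn G D) {u v : V} (hu : u ∈ D) (hv : v ∈ D)
    (hp : u ∈ P) (hn : v ∉ P) : ∃ x ∈ D, ∃ y ∈ D, G.Adj x y ∧ x ∈ P ∧ y ∉ P := by
  by_contra hh
  push Not at hh
  exact hn (h.sub hu hp hh v hv)

theorem Conn.mono_eq {D : Set V} (h : Conn G D) {c : V → κ} (pc : Proper G c) {a : κ}
    (hm : ∀ v ∈ D, c v = a) {u v : V} (hu : u ∈ D) (hv : v ∈ D) : u = v := by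
  by_contra hne
  obtain ⟨x, hx, y, hy, hadj, -, -⟩ := h.cross (P := {u}) hu hv rfl (fun e => hne (Eq.symm e))
  exact pc x y hadj ((hm x hx).trans (hm y hy).symm)

theorem conn_of_sub_single {D : Set V} {v : V} (h : ∀ u ∈ D, u = v) : Conn G D := by
  intro x hx y hy
  rw [h x hx, h y hy]

theorem conn_of_center {D : Set V} {v : V} (hv : v ∈ D) (h : ∀ u ∈ D, u = v ∨ G.Adj v u) :
    Conn G D := by
  have key : ∀ u ∈ D, Relation.ReflTransGen (fun x y => G.Adj x y ∧ x ∈ D ∧ y ∈ D) v u ∧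
      Relation.ReflTransGen (fun x y => G.Adj x y ∧ x ∈ D ∧ y ∈ D) u v := by
    intro u hu
    rcases h u hu with rfl | hadj
    · exact ⟨.refl, .refl⟩
    · exact ⟨.single ⟨hadj, hv, hu⟩, .single ⟨hadj.symm, hu, hv⟩⟩
  intro x hx y hy
  exact (key x hx).2.trans (key y hy).1

/-- a move is determined by one changed vertex and its new colour -/
theorem KA.uniq {c d d' : V → κ} (h : KA G c d) (h' : KA G c d') {v : V} (hv : c v ≠ d v)
    (he : d v = d' v) : d = d' := by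
  have hv' : c v ≠ d' v := he ▸ hv
  have s1 := h.swat hv
  have s2 : Sw c d' (c v) (d v) := he ▸ h'.swat hv'
  have a1 : ∀ y, c y ≠ d y → c y ≠ d' y := fun y hy =>
    h.conn.sub (P := {y | c y ≠ d' y}) hv hv'
      (fun x _ y hy hadj hx => closure h.pc h'.pd s2 hx hadj (s1 y hy).1) y hy
  have a2 : ∀ y, c y ≠ d' y → c y ≠ d y := fun y hy =>
    h'.conn.sub (P := {y | c y ≠ d y}) hv' hv
      (fun x _ y hy hadj hx => closure h.pc h.pd s1 hx hadj (s2 y hy).1) y hy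
  funext y
  have b1 := a1 y
  have b2 := a2 y
  have b3 := s1.or y
  have b4 := s2.or y
  grind +splitImp

theorem KA.uniq_sw {c d d' : V → κ} (h : KA G c d) (h' : KA G c d') {a b : κ}
    (s : Sw c d a b) (s' : Sw c d' a b) {v : V} (hv : c v ≠ d v) (hv' : c v ≠ d' v) : d = d' := by
  apply h.uniq h' hv
  have := s v hv
  have := s' v hv'
  grind

theorem KA.single {c d : V → κ} (pc : Proper G c) (pd : Proper G d) {v : V}
    (hv : c v ≠ d v) (h : ∀ u, u ≠ v → c u = d u) : KA G c d where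
  pc := pc
  pd := pd
  ne := ⟨v, hv⟩
  sw := ⟨c v, d v, fun u hu => by
    have : u = v := by by_contra hh; exact hu (h u hh)
    subst this; exact ⟨Or.inl rfl, Or.inr rfl⟩⟩
  conn := conn_of_sub_single (v := v) (fun u hu => by by_contra hh; exact hu (h u hh))

/-- two single changes at the same vertex -/
theorem eq_or_KA {c d d' : V → κ} (pd : Proper G d) (pd' : Proper G d') {v : V}
    (h : ∀ u, u ≠ v → c u = d u) (h' : ∀ u, u ≠ v → c u = d' u) : d = d' ∨ KA G d d' := by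
  by_cases hv : d v = d' v
  · left
    funext u
    by_cases hu : u = v
    · exact hu ▸ hv
    · rw [← h u hu, ← h' u hu]
  · right
    exact KA.single pd pd' hv (fun u hu => by rw [← h u hu, ← h' u hu])

/-- a monochromatic changed set is a single vertex -/
theorem KA.mono {c d : V → κ} (h : KA G c d) {a : κ} (hm : ∀ v, c v ≠ d v → c v = a)
    {v : V} (hv : c v ≠ d v) : ∀ u, u ≠ v → c u = d u := by
  intro u hu
  by_contra hh
  exact hu (h.conn.mono_eq h.pc (a := a) hm hh hv)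

/-- triangles come from recolouring one vertex -/
theorem KA.tri {c d e : V → κ} (h1 : KA G c d) (h2 : KA G c e) (h3 : KA G d e) :
    ∃ v, (∀ u, u ≠ v → c u = d u) ∧ (∀ u, u ≠ v → c u = e u) := by
  obtain ⟨a1, b1, n1, s1, -⟩ := h1.lab
  obtain ⟨a2, b2, n2, s2, -⟩ := h2.lab
  obtain ⟨a3, b3, n3, s3, -⟩ := h3.lab
  have hde := h3.ne'
  -- no vertex is moved by exactly one of the two moves at a corner
  have key : ∀ {c d e : V → κ}, KA G c d → KA G c e → KA G d e → ∀ v, c v ≠ d v → c v = e v →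
      False := by
    intro c d e h1 h2 h3 v hv he
    exact h2.ne' (h1.symm.uniq h3 (Ne.symm hv) he)
  have k1 : ∀ v, c v ≠ d v → c v ≠ e v := fun v hv he => key h1 h2 h3 v hv he
  have k2 : ∀ v, c v ≠ e v → c v ≠ d v := fun v hv he => key h2 h1 h3.symm v hv he
  have k3 : ∀ v, c v ≠ d v → d v ≠ e v := fun v hv he => hde (h1.uniq h2 hv he)
  obtain ⟨v, hv⟩ := h1.ne
  have hm : ∀ u, c u ≠ d u → c u = c v := by
    intro u hu
    have := s1 u hu
    have := s1 v hv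
    have := s2 u (k1 u hu)
    have := s2 v (k1 v hv)
    have := k3 u hu
    have := k3 v hv
    have := k1 v hv
    grind
  refine ⟨v, h1.mono hm hv, fun u hu => ?_⟩
  by_contra hh
  exact k2 u hh (h1.mono hm hv u hu)

/-- two moves that produce the same class of a colour they both involve -/
theorem KA.li {c d d' : V → κ} (h : KA G c d) (h' : KA G c d') {j : κ} (hj : In c d j)
    (he : ∀ v, d v = j ↔ d' v = j) : d = d' ∨ KA G d d' := by
  obtain ⟨a1, b1, n1, s1, -⟩ := h.lab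
  obtain ⟨a2, b2, n2, s2, -⟩ := h'.lab
  obtain ⟨v, hv, hvj⟩ := hj
  by_cases hA : ∃ u, c u ≠ d u ∧ d u = d' u
  · obtain ⟨u, h1, h2⟩ := hA
    exact Or.inl (h.uniq h' h1 h2)
  push Not at hA
  have m1 : ∀ u, c u ≠ d u → c u = j := by
    intro u hu
    have := s1 u hu
    have := s1 v hv
    have := he u
    have := hA u hu
    grind
  have hv' : c v ≠ d' v := by
    have := m1 v hv
    have := he v
    grind
  have m2 : ∀ u, c u ≠ d' u → c u = j := by
    intro u hu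
    by_contra hc
    have e1 := s2 u hu
    have e2 := s2 v hv'
    have e3 := m1 v hv
    have e4 : d' u = j := by grind
    have e5 : d u = j := (he u).2 e4
    have e6 := m1 u (by grind)
    exact hc e6
  exact eq_or_KA h.pd h'.pd (h.mono m1 hv) (h'.mono m2 hv')

/-- commuting square -/
def Cm (c0 c1 c2 c3 : V → κ) : Prop :=
  ∀ v, (c0 v = c1 v ∧ c2 v = c3 v) ∨ (c0 v = c2 v ∧ c1 v = c3 v)

/-- twisted square, `c0 → c1` on top -/
structure Tw (c0 c1 c2 c3 : V → κ) (a b d : κ) : Prop where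
  ab : a ≠ b
  ad : a ≠ d
  bd : b ≠ d
  l01 : Sw c0 c1 a b
  l23 : Sw c2 c3 a b
  l02 : Sw c0 c2 a d
  l13 : Sw c1 c3 b d

theorem Tw.pat {c0 c1 c2 c3 : V → κ} {a b d : κ} (h : Tw c0 c1 c2 c3 a b d) (v : V) :
    (c0 v = c2 v ∧ c1 v = c3 v) ∨ (c0 v = a ∧ c1 v = b ∧ c2 v = d ∧ c3 v = d) ∨
      (c0 v = d ∧ c1 v = d ∧ c2 v = a ∧ c3 v = b) := by
  have := h.l01.or v
  have := h.l23.or v
  have := h.l02.or v
  have := h.l13.or v
  have := h.ab
  have := h.ad
  have := h.bd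
  grind

theorem Cm.symm {c0 c1 c2 c3 : V → κ} (h : Cm c0 c1 c2 c3) : Cm c0 c2 c1 c3 :=
  fun v => (h v).symm

theorem sq_aux {c0 c1 c2 c3 : V → κ} (h01 : KA G c0 c1) (h02 : KA G c0 c2) (h13 : KA G c1 c3)
    (n12 : c1 ≠ c2) (m12 : ¬ KA G c1 c2) (n03 : c0 ≠ c3) (m03 : ¬ KA G c0 c3) (j : κ)
    (hj : In c0 c1 j) : In c2 c3 j ∨ (In c0 c2 j ∧ In c1 c3 j) := by
  by_contra hh
  have h23 : ¬ In c2 c3 j := fun h => hh (Or.inl h)
  rw [not_in_iff] at h23
  by_cases hA : In c1 c3 j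
  · have hB : ¬ In c0 c2 j := fun h => hh (Or.inr ⟨h, hA⟩)
    rw [not_in_iff] at hB
    rcases h01.symm.li h13 hj.symm (fun v => (hB v).trans (h23 v)) with e | e
    · exact n03 e
    · exact m03 e
  · rw [not_in_iff] at hA
    rcases h01.li h02 hj (fun v => (hA v).trans (h23 v).symm) with e | e
    · exact n12 e
    · exact m12 e

theorem sq_adj {c0 c1 c2 c3 : V → κ} (h01 : KA G c0 c1) (h02 : KA G c0 c2)
    (n12 : c1 ≠ c2) {a b a' b' : κ} (s01 : Sw c0 c1 a b) (s23 : Sw c2 c3 a b)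
    (s02 : Sw c0 c2 a' b') (s13 : Sw c1 c3 a' b') (v : V) : c0 v = c1 v ∨ c0 v = c2 v := by
  by_contra hh
  push Not at hh
  have k : c1 v ≠ c2 v := fun e => n12 (h01.uniq h02 hh.1 e)
  have e1 := s01 v hh.1
  have e2 := s02 v hh.2
  have e3 := s23 v
  have e4 := s13 v
  by_cases hb : c1 v = a' ∨ c1 v = b'
  · grind
  · grind

/-- classification of induced four-cycles -/
theorem sq {c0 c1 c2 c3 : V → κ} (h01 : KA G c0 c1) (h02 : KA G c0 c2) (h13 : KA G c1 c3)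
    (h23 : KA G c2 c3) (n12 : c1 ≠ c2) (m12 : ¬ KA G c1 c2) (n03 : c0 ≠ c3)
    (m03 : ¬ KA G c0 c3) :
    Cm c0 c1 c2 c3 ∨ (∃ a b d, Tw c0 c1 c2 c3 a b d) ∨ (∃ a b d, Tw c0 c2 c1 c3 a b d) := by
  have m21 : ¬ KA G c2 c1 := fun h => m12 h.symm
  have m30 : ¬ KA G c3 c0 := fun h => m03 h.symm
  have A1 := sq_aux h01 h02 h13 n12 m12 n03 m03
  have A2 := sq_aux h02 h01 h23 n12.symm m21 n03 m03
  have A3 := sq_aux h23.symm h13.symm h02.symm n12.symm m21 n03.symm m30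
  have A4 := sq_aux h13.symm h23.symm h01.symm n12 m12 n03.symm m30
  obtain ⟨a1, b1, n1, s1, i1⟩ := h01.lab
  obtain ⟨a2, b2, n2, s2, i2⟩ := h02.lab
  obtain ⟨a3, b3, n3, s3, i3⟩ := h13.lab
  obtain ⟨a4, b4, n4, s4, i4⟩ := h23.lab
  simp only [In_comm (c := c3) (d := c2), In_comm (c := c3) (d := c1), In_comm (c := c1) (d := c0),
    In_comm (c := c2) (d := c0), i1, i2, i3, i4] at A1 A2 A3 A4
  by_cases P : (a4 = a1 ∨ a4 = b1) ∧ (b4 = a1 ∨ b4 = b1)
  · have s4' : Sw c2 c3 a1 b1 := fun v hv => by have := s4 v hv; grind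
    by_cases Q : (a3 = a2 ∨ a3 = b2) ∧ (b3 = a2 ∨ b3 = b2)
    · have s3' : Sw c1 c3 a2 b2 := fun v hv => by have := s3 v hv; grind
      left
      intro v
      have t0 := sq_adj h01 h02 n12 s1 s4' s2 s3' v
      have t1 := sq_adj h01.symm h13 n03 s1.symm s4'.symm s3' s2 v
      have t2 := sq_adj h23 h02.symm n03.symm s4' s1 s2.symm s3'.symm v
      have t3 := sq_adj h23.symm h13.symm n12.symm s4'.symm s1.symm s3'.symm s2.symm v
      grind
    · right; left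
      have x1 := A2 a2 (Or.inl rfl)
      have x2 := A2 b2 (Or.inr rfl)
      have x3 := A4 a3 (Or.inl rfl)
      have x4 := A4 b3 (Or.inr rfl)
      have ex : ∃ a b d, a ≠ b ∧ a ≠ d ∧ b ≠ d ∧ ((a = a1 ∧ b = b1) ∨ (a = b1 ∧ b = a1)) ∧
          ((a = a2 ∧ d = b2) ∨ (a = b2 ∧ d = a2)) ∧ ((b = a3 ∧ d = b3) ∨ (b = b3 ∧ d = a3)) := by
        by_cases u1 : a3 = a2 ∨ a3 = b2
        · by_cases u2 : a3 = a2
          · exact ⟨b2, b3, a3, by grind⟩
          · exact ⟨a2, b3, a3, by grind⟩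
        · by_cases u2 : b3 = a2
          · exact ⟨b2, a3, b3, by grind⟩
          · exact ⟨a2, a3, b3, by grind⟩
      obtain ⟨a, b, d, e1, e2, e3, e4, e5, e6⟩ := ex
      refine ⟨a, b, d, e1, e2, e3, ?_, ?_, ?_, ?_⟩
      · intro v hv; have := s1 v hv; grind
      · intro v hv; have := s4' v hv; grind
      · intro v hv; have := s2 v hv; grind
      · intro v hv; have := s3 v hv; grind
  · right; right
    have x1 := A1 a1 (Or.inl rfl)
    have x2 := A1 b1 (Or.inr rfl)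
    have x3 := A3 a4 (Or.inl rfl)
    have x4 := A3 b4 (Or.inr rfl)
    have ex : ∃ a b d, a ≠ b ∧ a ≠ d ∧ b ≠ d ∧ ((a = a2 ∧ b = b2) ∨ (a = b2 ∧ b = a2)) ∧
        ((a = a3 ∧ b = b3) ∨ (a = b3 ∧ b = a3)) ∧
        ((a = a1 ∧ d = b1) ∨ (a = b1 ∧ d = a1)) ∧ ((b = a4 ∧ d = b4) ∨ (b = b4 ∧ d = a4)) := by
      by_cases u1 : a4 = a1 ∨ a4 = b1
      · by_cases u2 : a4 = a1
        · exact ⟨b1, b4, a4, by grind⟩
        · exact ⟨a1, b4, a4, by grind⟩
      · by_cases u2 : b4 = a1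
        · exact ⟨b1, a4, b4, by grind⟩
        · exact ⟨a1, a4, b4, by grind⟩
    obtain ⟨a, b, d, e1, e2, e3, e4, e5, e6, e7⟩ := ex
    refine ⟨a, b, d, e1, e2, e3, ?_, ?_, ?_, ?_⟩
    · intro v hv; have := s2 v hv; grind
    · intro v hv; have := s3 v hv; grind
    · intro v hv; have := s1 v hv; grind
    · intro v hv; have := s4 v hv; grind

end Pool.Agent.Kempe5e
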