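import Pool.Agent.Lib.MP_5e5661.Basic

/-! Induced squares, common neighbours, components, and isomorphisms of Kempe graphs. -/

namespace Pool.Agent.Kempe5e

variable {V κ : Type*} {G : SimpleGraph V}

/-- induced four-cycle -/
structure ISq (G : SimpleGraph V) (c0 c1 c2 c3 : V → κ) : Prop where
  h01 : KA G c0 c1
  h02 : KA G c0 c2
  h13 : KA G c1 c3
  h23 : KA G c2 c3
  n12 : c1 ≠ c2
  m12 : ¬ KA G c1 c2
  n03 : c0 ≠ c3
  m03 : ¬ KA G c0 c3

/-- the only common neighbours of `c1`, `c2` are `c0`, `c3` -/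
def Only (G : SimpleGraph V) (c1 c2 c0 c3 : V → κ) : Prop :=
  ∀ e, KA G c1 e → KA G c2 e → e = c0 ∨ e = c3

theorem Only.swap {c0 c1 c2 c3 : V → κ} (h : Only G c1 c2 c0 c3) : Only G c2 c1 c0 c3 :=
  fun e h1 h2 => h e h2 h1

theorem ISq.cases {c0 c1 c2 c3 : V → κ} (h : ISq G c0 c1 c2 c3) :
    Cm c0 c1 c2 c3 ∨ (∃ a b d, Tw c0 c1 c2 c3 a b d) ∨ (∃ a b d, Tw c0 c2 c1 c3 a b d) :=
  sq h.h01 h.h02 h.h13 h.h23 h.n12 h.m12 h.n03 h.m03

theorem ISq.swap {c0 c1 c2 c3 : V → κ} (h : ISq G c0 c1 c2 c3) : ISq G c0 c2 c1 c3 :=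
  ⟨h.h02, h.h01, h.h23, h.h13, h.n12.symm, fun k => h.m12 k.symm, h.n03, h.m03⟩

theorem Tw.flip1 {c0 c1 c2 c3 : V → κ} {a b d : κ} (h : Tw c0 c1 c2 c3 a b d) :
    Tw c1 c0 c3 c2 b a d :=
  ⟨h.ab.symm, h.bd, h.ad, h.l01.symm.swap, h.l23.symm.swap, h.l13, h.l02⟩

theorem Tw.flip2 {c0 c1 c2 c3 : V → κ} {a b d : κ} (h : Tw c0 c1 c2 c3 a b d) :
    Tw c2 c3 c0 c1 a b d :=
  ⟨h.ab, h.ad, h.bd, h.l23, h.l01, h.l02.symm, h.l13.symm⟩

theorem Tw.eqv {τ : Set κ} {c0 c1 c2 c3 : V → κ} {a b d : κ} (h : Tw c0 c1 c2 c3 a b d)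
    (n1 : ∃ v, c0 v ≠ c1 v) (n2 : ∃ v, c0 v ≠ c2 v) (e1 : Eqv τ c0 c1) (e2 : Eqv τ c0 c2) :
    Eqv τ c0 c3 := by
  have hb : b ∈ τ := eqv_iff.1 e1 b ((h.l01.in_iff n1 b).2 (Or.inr rfl))
  have hd : d ∈ τ := eqv_iff.1 e2 d ((h.l02.in_iff n2 d).2 (Or.inr rfl))
  exact e1.trans (h.l13.eqv hb hd)

theorem ISq.eqv {τ : Set κ} {c0 c1 c2 c3 : V → κ} (h : ISq G c0 c1 c2 c3)
    (e1 : Eqv τ c0 c1) (e2 : Eqv τ c0 c2) : Eqv τ c0 c3 := by
  rcases h.cases with k | ⟨a, b, d, k⟩ | ⟨a, b, d, k⟩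
  · intro v hv
    have := k v
    have := e1 v
    have := e2 v
    grind
  · exact k.eqv h.h01.ne h.h02.ne e1 e2
  · exact k.eqv h.h02.ne h.h01.ne e2 e1

theorem not_in_iff_eqv {c d : V → κ} {j : κ} : ¬ In c d j ↔ Eqv {x | x ≠ j} c d := by
  rw [eqv_iff]
  constructor
  · intro h a ha e
    exact h (e ▸ ha)
  · intro h hj
    exact h j hj rfl

theorem ISq.avoid {c0 c1 c2 c3 : V → κ} (h : ISq G c0 c1 c2 c3) {j : κ}
    (e1 : ¬ In c0 c1 j) (e2 : ¬ In c0 c2 j) : ¬ In c2 c3 j := by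
  rw [not_in_iff_eqv] at *
  exact e2.symm.trans (h.eqv e1 e2)

theorem Tw.R_ne {c0 c1 c2 c3 : V → κ} {a b d : κ} (h : Tw c0 c1 c2 c3 a b d)
    (q : ISq G c0 c1 c2 c3) (o : Only G c1 c2 c0 c3) : ∃ u, c0 u ≠ c1 u ∧ c0 u = c2 u := by
  classical
  by_contra hh
  push Not at hh
  have hab := h.ab
  have had := h.ad
  have hbd := h.bd
  obtain ⟨w, hw⟩ := q.h01.ne
  obtain ⟨y, hy⟩ := q.h23.ne
  have m1 : ∀ u, c0 u ≠ c1 u → c0 u = a := fun u hu => by
    have := h.pat u; have := hh u hu; grind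
  have m2 : ∀ u, c2 u ≠ c3 u → c2 u = a := fun u hu => by
    have := h.pat u; have := hh u; grind
  have s1 := q.h01.mono m1 hw
  have s2 := q.h23.mono m2 hy
  have pw : c0 w = a ∧ c1 w = b ∧ c2 w = d ∧ c3 w = d := by
    have := h.pat w; have := hh w hw; grind
  have py : c0 y = d ∧ c1 y = d ∧ c2 y = a ∧ c3 y = b := by
    have := h.pat y; have := hh y; grind
  have wy : w ≠ y := by rintro rfl; grind
  have oth : ∀ u, u ≠ w → u ≠ y → c1 u = c2 u := fun u h1 h2 => by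
    have := h.pat u; have := s1 u h1; have := s2 u h2; grind
  have pe : Proper G (Function.update c1 y a) := by
    have key : ∀ v, G.Adj y v → a ≠ c1 v := by
      intro v hv
      by_cases e : v = w
      · grind
      · have := q.h23.pc y v hv
        have := oth v e hv.ne'
        grind
    intro u v huv
    by_cases e1 : u = y
    · subst e1
      simpa [Function.update, huv.ne'] using key v huv
    · by_cases e2 : v = y
      · subst e2
        simpa [Function.update, e1] using (key u huv.symm).symm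
      · simpa [Function.update, e1, e2] using q.h01.pd u v huv
  have k1 : KA G c1 (Function.update c1 y a) :=
    KA.single q.h01.pd pe (v := y) (by simp; grind) (fun u hu => by simp [Function.update, hu])
  have k2 : KA G c2 (Function.update c1 y a) := by
    refine KA.single q.h02.pd pe (v := w) (by simp [Function.update, wy]; grind) (fun u hu => ?_)
    by_cases e : u = y
    · subst e; simp [py]
    · simp [Function.update, e, oth u hu e]
  rcases o _ k1 k2 with e | e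
  · have := congrFun e w
    simp [Function.update, wy] at this
    grind
  · have := congrFun e w
    simp [Function.update, wy] at this
    grind

theorem Tw.witness {c0 c1 c2 c3 : V → κ} {a b d : κ} (h : Tw c0 c1 c2 c3 a b d)
    (q : ISq G c0 c1 c2 c3) (o : Only G c1 c2 c0 c3) :
    ∃ u w, G.Adj u w ∧ c0 u ≠ c1 u ∧ c0 w ≠ c2 w := by
  obtain ⟨r, hr, hr'⟩ := h.R_ne q o
  obtain ⟨w, hw⟩ := q.h02.ne
  have hab := h.ab
  have had := h.ad
  have hbd := h.bd
  by_cases e : c0 w = c1 w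
  · have h1 : c2 r ≠ c3 r := by have := h.pat r; grind
    have h2 : c2 w ≠ c3 w := by have := h.pat w; grind
    obtain ⟨x, hx, y, hy, hadj, px, py⟩ :=
      q.h23.conn.cross (P := {v | c0 v = c2 v}) h1 h2 hr' hw
    refine ⟨x, y, hadj, ?_, py⟩
    have := h.pat x
    simp only [Set.mem_ofPred_eq] at hx px
    grind
  · obtain ⟨x, hx, y, hy, hadj, px, py⟩ :=
      q.h01.conn.cross (P := {v | c0 v = c2 v}) hr e hr' hw
    exact ⟨x, y, hadj, hx, py⟩

/-- two moves with disjoint changed sets and no clash have a second common neighbour -/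
theorem comm {c d1 d2 : V → κ} (h1 : KA G c d1) (h2 : KA G c d2)
    (hd : ∀ v, c v ≠ d1 v → c v = d2 v)
    (hx : ∀ u v, G.Adj u v → c u ≠ d1 u → c v ≠ d2 v → d1 u ≠ d2 v) :
    ∃ e, KA G d1 e ∧ KA G d2 e ∧ e ≠ c ∧ ∀ x, In d1 e x → In c d2 x := by
  classical
  let e : V → κ := fun v => if c v = d1 v then d2 v else d1 v
  have he : ∀ v, (c v = d1 v ∧ e v = d2 v) ∨ (c v ≠ d1 v ∧ c v = d2 v ∧ e v = d1 v) := by
    intro v
    by_cases k : c v = d1 v
    · left; exact ⟨k, by simp [e, k]⟩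
    · right; exact ⟨k, hd v k, by simp [e, k]⟩
  have pe : Proper G e := by
    intro u v huv
    have := he u
    have := he v
    have := hx u v huv
    have := hx v u huv.symm
    have := h1.pd u v huv
    have := h2.pd u v huv
    grind
  have s1 : {v | d1 v ≠ e v} = {v | c v ≠ d2 v} := by
    ext v; have := he v; simp only [Set.mem_ofPred_eq]; grind
  have s2 : {v | d2 v ≠ e v} = {v | c v ≠ d1 v} := by
    ext v; have := he v; simp only [Set.mem_ofPred_eq]; grind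
  obtain ⟨v1, hv1⟩ := h1.ne
  obtain ⟨v2, hv2⟩ := h2.ne
  obtain ⟨a1, b1, t1⟩ := h1.sw
  obtain ⟨a2, b2, t2⟩ := h2.sw
  refine ⟨e, ⟨h1.pd, pe, ⟨v2, ?_⟩, ⟨a2, b2, Sw.of_or fun v => ?_⟩, s1 ▸ h2.conn⟩,
    ⟨h2.pd, pe, ⟨v1, ?_⟩, ⟨a1, b1, Sw.of_or fun v => ?_⟩, s2 ▸ h1.conn⟩, ?_, ?_⟩
  · have := he v2; grind
  · have := he v; have := t2.or v; grind
  · have := he v1; grind
  · have := he v; have := t1.or v; grind
  · intro k
    have := congrFun k v1
    have := he v1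
    grind
  · rintro x ⟨v, k1, k2⟩
    have := he v
    exact ⟨v, by grind, by grind⟩

theorem comm_disj {c d1 d2 : V → κ} (h1 : KA G c d1) (h2 : KA G c d2)
    (hl : ∀ x, In c d1 x → ¬ In c d2 x) :
    ∃ e, KA G d1 e ∧ KA G d2 e ∧ e ≠ c ∧ ∀ x, In d1 e x → In c d2 x := by
  refine comm h1 h2 (fun v hv => ?_) (fun u v _ hu hv e => ?_)
  · by_contra k
    exact hl (c v) ⟨v, hv, Or.inl rfl⟩ ⟨v, k, Or.inl rfl⟩
  · exact hl (d1 u) ⟨u, hu, Or.inr rfl⟩ ⟨v, hv, Or.inr e.symm⟩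

/-- two moves without a second common neighbour have labels sharing exactly one colour -/
theorem L1 {c d1 d2 : V → κ} (h1 : KA G c d1) (h2 : KA G c d2) (n : d1 ≠ d2)
    (o : Only G d1 d2 c c) :
    ∃ p q r, p ≠ q ∧ p ≠ r ∧ q ≠ r ∧ Sw c d1 p q ∧ Sw c d2 p r := by
  obtain ⟨a1, b1, n1, s1, i1⟩ := h1.lab
  obtain ⟨a2, b2, n2, s2, i2⟩ := h2.lab
  have A : ¬ Sw c d2 a1 b1 := by
    intro s
    obtain ⟨e, k1, k2, k3, -⟩ := comm h1 h2 (fun v hv => by
      by_contra k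
      exact n (h1.uniq_sw h2 s1 s hv k)) (fun u v huv hu hv _ =>
        n (h1.uniq_sw h2 s1 s (closure h1.pc h1.pd s1 hu huv (s v hv).1) hv))
    exact k3 ((o e k1 k2).elim id id)
  have B : ¬ ∀ x, In c d1 x → ¬ In c d2 x := by
    intro s
    obtain ⟨e, k1, k2, k3, -⟩ := comm_disj h1 h2 s
    exact k3 ((o e k1 k2).elim id id)
  push Not at B
  obtain ⟨x, x1, x2⟩ := B
  rw [i1] at x1
  rw [i2] at x2
  rcases x1 with rfl | rfl <;> rcases x2 with rfl | rfl
  · exact ⟨x, b1, b2, n1, n2, fun e => A (e ▸ s2), s1, s2⟩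
  · exact ⟨x, b1, a2, n1, n2.symm, fun e => A (e ▸ s2.swap), s1, s2.swap⟩
  · exact ⟨x, a1, b2, n1.symm, n2, fun e => A (e ▸ s2.swap), s1.swap, s2⟩
  · exact ⟨x, a1, a2, n1.symm, n2.symm, fun e => A (e ▸ s2), s1.swap, s2.swap⟩

/-- the two-coloured component of a vertex -/
def comp (G : SimpleGraph V) (c : V → κ) (a b : κ) (v : V) : Set V :=
  {w | Relation.ReflTransGen
    (fun x y => G.Adj x y ∧ (c x = a ∨ c x = b) ∧ (c y = a ∨ c y = b)) v w}

theorem comp_self (c : V → κ) (a b : κ) (v : V) : v ∈ comp G c a b v := Relation.ReflTransGen.refl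

theorem comp_col {c : V → κ} {a b : κ} {v w : V} (hv : c v = a ∨ c v = b)
    (hw : w ∈ comp G c a b v) : c w = a ∨ c w = b := by
  induction hw with
  | refl => exact hv
  | tail _ h _ => exact h.2.2

theorem comp_cl {c : V → κ} {a b : κ} {v w y : V} (hv : c v = a ∨ c v = b)
    (hw : w ∈ comp G c a b v) (hadj : G.Adj w y) (hy : c y = a ∨ c y = b) :
    y ∈ comp G c a b v :=
  Relation.ReflTransGen.tail hw ⟨hadj, comp_col hv hw, hy⟩

theorem comp_conn (c : V → κ) (a b : κ) (v : V) : Conn G (comp G c a b v) := by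
  have key : ∀ w ∈ comp G c a b v,
      Relation.ReflTransGen (fun x y => G.Adj x y ∧ x ∈ comp G c a b v ∧ y ∈ comp G c a b v) v w ∧
      Relation.ReflTransGen (fun x y => G.Adj x y ∧ x ∈ comp G c a b v ∧ y ∈ comp G c a b v) w v := by
    intro w hw
    induction hw with
    | refl => exact ⟨.refl, .refl⟩
    | tail h1 h2 ih =>
      exact ⟨ih.1.tail ⟨h2.1, h1, h1.tail h2⟩, .head ⟨h2.1.symm, h1.tail h2, h1⟩ ih.2⟩
  intro x hx y hy
  exact (key x hx).2.trans (key y hy).1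

theorem ex_move {c : V → κ} (pc : Proper G c) {a b : κ} (hab : a ≠ b) {v : V}
    (hv : c v = a ∨ c v = b) : ∃ d, KA G c d ∧ Sw c d a b ∧ c v ≠ d v := by
  classical
  let d : V → κ := fun w => if w ∈ comp G c a b v then (if c w = a then b else a) else c w
  have hd : ∀ w, (w ∈ comp G c a b v ∧ ((c w = a ∧ d w = b) ∨ (c w = b ∧ d w = a))) ∨
      (w ∉ comp G c a b v ∧ d w = c w) := by
    intro w
    by_cases k : w ∈ comp G c a b v
    · have := comp_col hv k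
      left; refine ⟨k, ?_⟩; simp only [d, k, if_true]; grind
    · right; exact ⟨k, by simp [d, k]⟩
  have sw : Sw c d a b := Sw.of_or fun w => by have := hd w; grind
  have hs : {w | c w ≠ d w} = comp G c a b v := by
    ext w; have := hd w; simp only [Set.mem_ofPred_eq]; grind
  have nv : c v ≠ d v := by have := hd v; have := comp_self (G := G) c a b v; grind
  refine ⟨d, ⟨pc, fun x y hxy => ?_, ⟨v, nv⟩, ⟨a, b, sw⟩, hs ▸ comp_conn c a b v⟩, sw, nv⟩
  have := hd x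
  have := hd y
  have := pc x y hxy
  have := fun h => comp_cl (w := x) (y := y) hv h hxy
  have := fun h => comp_cl (w := y) (y := x) hv h hxy.symm
  grind

theorem sub_move {c c' d : V → κ} (pc' : Proper G c') {a b : κ} (s : Sw c c' a b)
    (h : KA G c d) (s' : Sw c d a b) {v : V} (hv : c v ≠ d v) (hv' : c v ≠ c' v) :
    ∀ w, c w ≠ d w → d w = c' w := by
  intro w hw
  have : c w ≠ c' w := h.conn.sub (P := {y | c y ≠ c' y}) hv hv'
    (fun x _ y hy hadj hx => closure h.pc pc' s hx hadj (s' y hy).1) w hw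
  have := s.or w
  have := s'.or w
  grind

/-- an isomorphism of Kempe graphs, as a pair of total functions -/
structure KIso {V' κ' : Type*} (G : SimpleGraph V) (G' : SimpleGraph V')
    (φ : (V → κ) → (V' → κ')) (ψ : (V' → κ') → (V → κ)) : Prop where
  p : ∀ c, Proper G c → Proper G' (φ c)
  p' : ∀ c, Proper G' c → Proper G (ψ c)
  l : ∀ c, Proper G c → ψ (φ c) = c
  r : ∀ c, Proper G' c → φ (ψ c) = c
  k : ∀ c d, KA G c d → KA G' (φ c) (φ d)
  k' : ∀ c d, KA G' c d → KA G (ψ c) (ψ d)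

section
variable {V' κ' : Type*} {G' : SimpleGraph V'} {φ : (V → κ) → (V' → κ')}
  {ψ : (V' → κ') → (V → κ)}

theorem KIso.symm (h : KIso G G' φ ψ) : KIso G' G ψ φ := ⟨h.p', h.p, h.r, h.l, h.k', h.k⟩

theorem KIso.inj (h : KIso G G' φ ψ) {c d : V → κ} (pc : Proper G c) (pd : Proper G d)
    (e : φ c = φ d) : c = d := by
  rw [← h.l c pc, ← h.l d pd, e]

theorem KIso.ne (h : KIso G G' φ ψ) {c d : V → κ} (pc : Proper G c) (pd : Proper G d)
    (e : c ≠ d) : φ c ≠ φ d := fun k => e (h.inj pc pd k)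

theorem KIso.nka (h : KIso G G' φ ψ) {c d : V → κ} (pc : Proper G c) (pd : Proper G d)
    (e : ¬ KA G c d) : ¬ KA G' (φ c) (φ d) := by
  intro k
  have := h.k' _ _ k
  rw [h.l c pc, h.l d pd] at this
  exact e this

theorem KIso.only (h : KIso G G' φ ψ) {c0 c1 c2 c3 : V → κ} (p1 : Proper G c1)
    (p2 : Proper G c2) (o : Only G c1 c2 c0 c3) : Only G' (φ c1) (φ c2) (φ c0) (φ c3) := by
  intro e k1 k2
  have a1 := h.k' _ _ k1
  have a2 := h.k' _ _ k2
  rw [h.l _ p1] at a1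
  rw [h.l _ p2] at a2
  rcases o _ a1 a2 with k | k
  · left; rw [← k, h.r e k1.pd]
  · right; rw [← k, h.r e k1.pd]

theorem KIso.isq (h : KIso G G' φ ψ) {c0 c1 c2 c3 : V → κ} (q : ISq G c0 c1 c2 c3) :
    ISq G' (φ c0) (φ c1) (φ c2) (φ c3) :=
  ⟨h.k _ _ q.h01, h.k _ _ q.h02, h.k _ _ q.h13, h.k _ _ q.h23, h.ne q.h01.pd q.h02.pd q.n12,
    h.nka q.h01.pd q.h02.pd q.m12, h.ne q.h01.pc q.h13.pd q.n03, h.nka q.h01.pc q.h13.pd q.m03⟩

end

end Pool.Agent.Kempe5e
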