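import Pool.Agent.Lib.MP_5e5661.Basic2

/-! Cubes in a Kempe graph whose faces are induced squares with two common neighbours. -/

namespace Pool.Agent.Kempe5e

variable {V κ ι : Type*} {G : SimpleGraph V} [DecidableEq ι]

/-- flip one coordinate -/
def fl (S : Finset ι) (i : ι) : Finset ι := symmDiff S {i}

theorem mem_fl {S : Finset ι} {i j : ι} : j ∈ fl S i ↔ (j ∈ S ↔ j ≠ i) := by
  simp only [fl, Finset.mem_symmDiff, Finset.mem_singleton]
  tauto

theorem fl_fl (S : Finset ι) (i : ι) : fl (fl S i) i = S := by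
  ext j; simp only [mem_fl]; tauto

theorem fl_comm (S : Finset ι) (i j : ι) : fl (fl S i) j = fl (fl S j) i := by
  ext t; simp only [mem_fl]; tauto

structure Cube (G : SimpleGraph V) (C : Finset ι → V → κ) : Prop where
  adj : ∀ S i, KA G (C S) (C (fl S i))
  ne : ∀ S i j, i ≠ j → C (fl S i) ≠ C (fl S j)
  nadj : ∀ S i j, i ≠ j → ¬ KA G (C (fl S i)) (C (fl S j))
  only : ∀ S i j, i ≠ j → Only G (C (fl S i)) (C (fl S j)) (C S) (C (fl (fl S i) j))

variable {C : Finset ι → V → κ}

theorem Cube.proper (h : Cube G C) (S : Finset ι) (i : ι) : Proper G (C S) := (h.adj S i).pc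

theorem Cube.isq (h : Cube G C) (S : Finset ι) {i j : ι} (hij : i ≠ j) :
    ISq G (C S) (C (fl S i)) (C (fl S j)) (C (fl (fl S i) j)) := by
  refine ⟨h.adj S i, h.adj S j, h.adj _ j, ?_, h.ne S i j hij, h.nadj S i j hij, ?_, ?_⟩
  · rw [fl_comm]; exact h.adj _ i
  · have := h.ne (fl S i) i j hij
    rwa [fl_fl] at this
  · have := h.nadj (fl S i) i j hij
    rwa [fl_fl] at this

/-- vertices moved by direction `i` at the corner `S` -/
def HS (C : Finset ι → V → κ) (S : Finset ι) (i : ι) : Set V := {v | C S v ≠ C (fl S i) v}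

/-- colours used by direction `i` at the corner `S` -/
def LS (C : Finset ι → V → κ) (S : Finset ι) (i : ι) : Set κ := {x | In (C S) (C (fl S i)) x}

/-- direction `i` is on top of direction `j` in the face through `S` -/
def Top (C : Finset ι → V → κ) (S : Finset ι) (i j : ι) : Prop :=
  i ≠ j ∧ ∃ a b d, Tw (C S) (C (fl S i)) (C (fl S j)) (C (fl (fl S i) j)) a b d

theorem mem_HS {S : Finset ι} {i : ι} {v : V} : v ∈ HS C S i ↔ C S v ≠ C (fl S i) v := Iff.rfl

theorem mem_LS {S : Finset ι} {i : ι} {x : κ} : x ∈ LS C S i ↔ In (C S) (C (fl S i)) x := Iff.rfl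

theorem HS_fl (S : Finset ι) (i : ι) : HS C (fl S i) i = HS C S i := by
  ext v; simp only [mem_HS, fl_fl]; exact ne_comm

theorem LS_fl (S : Finset ι) (i : ι) : LS C (fl S i) i = LS C S i := by
  ext v; simp only [mem_LS, fl_fl]; exact In_comm

theorem Top.fl1 {S : Finset ι} {i j : ι} (t : Top C S i j) : Top C (fl S i) i j := by
  obtain ⟨n, a, b, d, k⟩ := t
  refine ⟨n, b, a, d, ?_⟩
  rw [fl_fl]
  exact k.flip1

theorem Top.fl2 {S : Finset ι} {i j : ι} (t : Top C S i j) : Top C (fl S j) i j := by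
  obtain ⟨n, a, b, d, k⟩ := t
  refine ⟨n, a, b, d, ?_⟩
  rw [fl_fl, fl_comm S j i, fl_fl]
  exact k.flip2

theorem Cube.ls_of_sw (h : Cube G C) {S : Finset ι} {i : ι} {a b : κ}
    (s : Sw (C S) (C (fl S i)) a b) : LS C S i = {a, b} := by
  ext x
  rw [mem_LS, s.in_iff (h.adj S i).ne]
  simp

theorem sw_of_ls {S : Finset ι} {i : ι} {a b : κ} (s : LS C S i ⊆ {a, b}) :
    Sw (C S) (C (fl S i)) a b :=
  sw_iff.2 fun x hx => by simpa using s (mem_LS.2 hx)

theorem Cube.mem_of_ls (h : Cube G C) {S : Finset ι} {i : ι} {x : κ} {v : V}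
    (hx : x ∈ LS C S i) (hv : v ∈ HS C S i) : C S v = x ∨ C (fl S i) v = x := by
  have := sw_iff.1 ((h.adj S i).swat hv) x hx
  tauto

theorem ls_left {S : Finset ι} {i : ι} {v : V} (hv : v ∈ HS C S i) : C S v ∈ LS C S i :=
  ⟨v, hv, Or.inl rfl⟩

theorem ls_right {S : Finset ι} {i : ι} {v : V} (hv : v ∈ HS C S i) :
    C (fl S i) v ∈ LS C S i := ⟨v, hv, Or.inr rfl⟩

theorem Cube.top_data (h : Cube G C) {S : Finset ι} {i j : ι} (t : Top C S i j) :
    ∃ a b d, a ≠ b ∧ a ≠ d ∧ b ≠ d ∧ LS C S i = {a, b} ∧ LS C (fl S j) i = {a, b} ∧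
      LS C S j = {a, d} ∧ LS C (fl S i) j = {b, d} ∧ ∀ v,
      (C S v = C (fl S j) v ∧ C (fl S i) v = C (fl (fl S i) j) v) ∨
      (C S v = a ∧ C (fl S i) v = b ∧ C (fl S j) v = d ∧ C (fl (fl S i) j) v = d) ∨
      (C S v = d ∧ C (fl S i) v = d ∧ C (fl S j) v = a ∧ C (fl (fl S i) j) v = b) := by
  obtain ⟨n, a, b, d, k⟩ := t
  refine ⟨a, b, d, k.ab, k.ad, k.bd, h.ls_of_sw k.l01, h.ls_of_sw ?_, h.ls_of_sw k.l02,
    h.ls_of_sw k.l13, k.pat⟩
  rw [fl_comm]; exact k.l23

theorem Cube.tL (h : Cube G C) {S : Finset ι} {i j : ι} (t : Top C S i j) :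
    LS C (fl S j) i = LS C S i := by
  obtain ⟨a, b, d, -, -, -, h1, h2, -⟩ := h.top_data t
  rw [h1, h2]

theorem Cube.tH (h : Cube G C) {S : Finset ι} {i j : ι} (t : Top C S i j) :
    HS C (fl S i) j = HS C S j := by
  obtain ⟨a, b, d, n1, n2, n3, -, -, -, -, p⟩ := h.top_data t
  ext v
  have := p v
  simp only [mem_HS]
  grind

theorem Cube.tLne (h : Cube G C) {S : Finset ι} {i j : ι} (t : Top C S i j) :
    LS C (fl S i) j ≠ LS C S j := by
  obtain ⟨a, b, d, n1, n2, n3, -, -, h1, h2, -⟩ := h.top_data t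
  rw [h1, h2]
  intro e
  have : a ∈ ({b, d} : Set κ) := e ▸ (by simp)
  simp at this
  tauto

theorem Cube.tLij (h : Cube G C) {S : Finset ι} {i j : ι} (t : Top C S i j) :
    LS C S i ≠ LS C S j := by
  obtain ⟨a, b, d, n1, n2, n3, h1, -, h2, -⟩ := h.top_data t
  rw [h1, h2]
  intro e
  have : b ∈ ({a, d} : Set κ) := e ▸ (by simp)
  simp at this
  tauto

theorem Cube.tX (h : Cube G C) {S : Finset ι} {i j : ι} (t : Top C S i j) :
    LS C S i = symmDiff (LS C S j) (LS C (fl S i) j) := by
  obtain ⟨a, b, d, n1, n2, n3, h1, -, h2, h3, -⟩ := h.top_data t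
  rw [h1, h2, h3]
  ext x
  simp only [Set.mem_symmDiff, Set.mem_insert_iff, Set.mem_singleton_iff]
  grind

theorem Cube.tHne (h : Cube G C) {S : Finset ι} {i j : ι} (t : Top C S i j) :
    HS C (fl S j) i ≠ HS C S i := by
  obtain ⟨a, b, d, n1, n2, n3, -, -, -, -, p⟩ := h.top_data t
  obtain ⟨v, hv⟩ := (h.adj S j).ne
  intro e
  have k : v ∈ HS C (fl S j) i ↔ v ∈ HS C S i := by rw [e]
  have := p v
  simp only [mem_HS, fl_comm S j i] at k
  grind

theorem Cube.asym (h : Cube G C) {S : Finset ι} {i j : ι} (t : Top C S i j) : ¬ Top C S j i :=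
  fun t' => h.tLne t' (h.tL t)

theorem Cube.face (h : Cube G C) (S : Finset ι) {i j : ι} (hij : i ≠ j) :
    Cm (C S) (C (fl S i)) (C (fl S j)) (C (fl (fl S i) j)) ∨ Top C S i j ∨ Top C S j i := by
  rcases (h.isq S hij).cases with k | k | k
  · exact Or.inl k
  · exact Or.inr (Or.inl ⟨hij, k⟩)
  · refine Or.inr (Or.inr ⟨hij.symm, ?_⟩)
    rwa [fl_comm]

theorem Cube.nH (h : Cube G C) {S : Finset ι} {i j : ι} (t : ¬ Top C S i j) :
    HS C (fl S j) i = HS C S i := by
  by_cases hij : i = j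
  · subst hij; exact HS_fl S i
  rcases h.face S hij with k | k | k
  · ext v
    have := k v
    simp only [mem_HS, fl_comm S j i]
    grind
  · exact (t k).elim
  · exact h.tH k

theorem Cube.nL (h : Cube G C) {S : Finset ι} {i j : ι} (t : ¬ Top C S i j) :
    LS C (fl S i) j = LS C S j := by
  by_cases hij : i = j
  · subst hij; exact LS_fl S i
  rcases h.face S hij with k | k | k
  · ext x
    simp only [mem_LS, In]
    constructor
    · rintro ⟨v, h1, h2⟩
      have := k v
      exact ⟨v, by grind, by grind⟩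
    · rintro ⟨v, h1, h2⟩
      have := k v
      exact ⟨v, by grind, by grind⟩
  · exact (t k).elim
  · exact h.tL k

theorem Cube.NR0 (h : Cube G C) {S : Finset ι} {i j t : ι} (h1 : Top C S i j)
    (h2 : Top C (fl S t) j i) (h3 : Top C S i t) (h4 : Top C S j t) : False := by
  have B : Top C (fl S j) t i := by
    by_contra k
    have e1 := h.nL k
    have e2 := h.nL (h.asym h3)
    have e3 := h.tL h1
    have e4 := h.tLne h2
    rw [fl_comm] at e4
    exact e4 (by rw [e1, e3, e2])
  have D : Top C (fl S i) t j := by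
    by_contra k
    have e1 := h.nL k
    have e2 := h.nL (h.asym h4)
    have e3 := h.tL h2
    have e4 := h.tLne h1
    rw [fl_comm] at e3
    exact e4 (by rw [← e1, e3, e2])
  have e1 := h.tX h3
  have e2 := h.tX h4
  have e3 := h.tL B
  have e4 := h.tL D
  rw [fl_comm] at e3
  exact h.tLij h1 (by rw [e1, e2, ← e3, e4])

theorem Cube.NR (h : Cube G C) {S : Finset ι} {i j : ι} (t : ι) (h1 : Top C S i j) :
    ¬ Top C (fl S t) j i := by
  intro h2
  have A : Top C S i t ∨ Top C (fl S j) i t := by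
    by_contra k
    push Not at k
    have e1 := h.nH k.1
    have e2 := h.nH k.2
    have e3 := h.tH h2
    rw [fl_comm] at e3
    exact h.tHne h1 (by rw [← e2, e3, e1])
  have B : Top C S j t ∨ Top C (fl S i) j t := by
    by_contra k
    push Not at k
    have e1 := h.nH k.1
    have e2 := h.nH k.2
    have e3 := h.tH h1
    have e4 := h.tHne h2
    rw [fl_comm] at e4
    exact e4 (by rw [e2, e3, e1])
  rcases A with A | A <;> rcases B with B | B
  · exact h.NR0 h1 h2 A B
  · exact h.NR0 h1.fl1 (by rw [fl_comm]; exact h2.fl2) A.fl1 B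
  · exact h.NR0 h1.fl2 (by rw [fl_comm]; exact h2.fl1) A B.fl1
  · refine h.NR0 h1.fl1.fl2 ?_ (by rw [fl_comm]; exact A.fl1) B.fl1
    rw [fl_comm, fl_comm S]
    exact h2.fl2.fl1

theorem Cube.both0 (h : Cube G C) {S : Finset ι} {i j t : ι} (h1 : Top C S i t)
    (h2 : Top C S t j) : Top C (fl S j) i t ∧ Top C (fl S i) t j := by
  constructor
  · by_contra k
    have e1 := h.nL k
    have e2 := h.tL h2
    have e3 := h.nL (h.NR i h2)
    have e4 := h.tLne h1
    rw [fl_comm] at e3
    exact e4 (by rw [← e3, e1, e2])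
  · by_contra k
    have e1 := h.nH k
    have e2 := h.tH h1
    have e3 := h.nH (h.NR j h1)
    have e4 := h.tHne h2
    rw [fl_comm] at e3
    exact e4 (by rw [← e3, e1, e2])

theorem Cube.CH (h : Cube G C) {S : Finset ι} {i j t : ι} (h1 : Top C S i j)
    (h2 : ¬ Top C (fl S t) i j) : Top C S i t ∧ Top C S t j := by
  have A : Top C S i t ∨ Top C (fl S j) i t := by
    by_contra k
    push Not at k
    have e1 := h.nH k.1
    have e2 := h.nH k.2
    have e3 := h.nH h2
    rw [fl_comm] at e3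
    exact h.tHne h1 (by rw [← e2, e3, e1])
  have B : Top C S t j ∨ Top C (fl S i) t j := by
    by_contra k
    push Not at k
    have e1 := h.nL k.1
    have e2 := h.nL k.2
    have e3 := h.nL h2
    rw [fl_comm] at e3
    exact h.tLne h1 (by rw [← e2, e3, e1])
  rcases A with A | A <;> rcases B with B | B
  · exact ⟨A, B⟩
  · have := (h.both0 A.fl1 B).2
    rw [fl_fl] at this
    exact ⟨A, this⟩
  · have := (h.both0 A B.fl2).1
    rw [fl_fl] at this
    exact ⟨this, B⟩
  · have := h.both0 (S := fl (fl S i) j) (by rw [fl_comm]; exact A.fl1) B.fl2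
    rw [fl_fl, fl_comm S i j, fl_fl] at this
    have a := this.1.fl1
    have b := this.2.fl2
    rw [fl_fl] at a b
    exact ⟨a, b⟩

theorem Cube.no3 (h : Cube G C) {S : Finset ι} {i j t : ι} (h1 : Top C S i t)
    (h2 : Top C S t j) : ¬ Top C S j i := by
  intro k
  obtain ⟨h3, h4⟩ := h.both0 h1 h2
  have e1 := h.tX h1
  have e2 := h.tX h3
  have e3 := h.tL h2
  have e4 := h.tL h4
  rw [fl_comm] at e4
  exact h.tLne k (by rw [e2, e1, e3, e4])

theorem Cube.TR (h : Cube G C) {S : Finset ι} {i j t : ι} (h1 : Top C S i t)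
    (h2 : Top C S t j) : Top C S i j ∨ Top C (fl S t) i j := by
  by_contra k
  push Not at k
  obtain ⟨h3, h4⟩ := h.both0 h1 h2
  have e1 := h.nL k.1
  have e2 := h.nL k.2
  have e3 := h.tX h2
  have e4 := h.tX h4
  rw [fl_comm] at e4
  exact h.tLne h1 (by rw [e4, e3, e1, e2])

/-- corners that agree with `S` outside the directions `D` -/
def Reg (S : Finset ι) (D : Set ι) (U : Finset ι) : Prop := ∀ i, i ∉ D → (i ∈ U ↔ i ∈ S)

omit [DecidableEq ι] in
theorem Reg.refl (S : Finset ι) (D : Set ι) : Reg S D S := fun _ _ => Iff.rfl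

omit [DecidableEq ι] in
theorem Reg.univ (S U : Finset ι) : Reg S Set.univ U := fun i hi => (hi (Set.mem_univ i)).elim

theorem Reg.step {S U : Finset ι} {D : Set ι} (h : Reg S D U) {i : ι} (hi : i ∈ D) :
    Reg S D (fl U i) := by
  intro j hj
  have : j ≠ i := fun e => hj (e ▸ hi)
  rw [mem_fl, h j hj]
  tauto

omit [DecidableEq ι] in
theorem Reg.symm {S U : Finset ι} {D : Set ι} (h : Reg S D U) : Reg U D S :=
  fun i hi => (h i hi).symm

omit [DecidableEq ι] in
theorem Reg.trans {S U W : Finset ι} {D : Set ι} (h : Reg S D U) (h' : Reg U D W) : Reg S D W :=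
  fun i hi => (h' i hi).trans (h i hi)

theorem reg_ind {S : Finset ι} {D : Set ι} {P : Finset ι → Prop} (h0 : P S)
    (hs : ∀ U i, i ∈ D → Reg S D U → P U → P (fl U i)) : ∀ U, Reg S D U → P U := by
  have key : ∀ T : Finset ι, (∀ i ∈ T, i ∈ D) → P (symmDiff S T) := by
    intro T
    induction T using Finset.induction_on with
    | empty => intro _; rw [show symmDiff S ∅ = S from symmDiff_bot S]; exact h0
    | insert i T hi ih =>
      intro hT
      have e : symmDiff S (insert i T) = fl (symmDiff S T) i := by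
        ext j
        simp only [mem_fl, Finset.mem_symmDiff, Finset.mem_insert]
        grind
      rw [e]
      refine hs _ i (hT i (by simp)) (fun j hj => ?_) (ih fun j hj => hT j (by simp [hj]))
      have := hT j
      simp only [Finset.mem_symmDiff, Finset.mem_insert] at *
      tauto
  intro U hU
  have := key (symmDiff S U) (fun i hi => by
    have := hU i
    simp only [Finset.mem_symmDiff] at hi
    tauto)
  simpa using this

theorem all_ind (S : Finset ι) {P : Finset ι → Prop} (h0 : P S)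
    (hs : ∀ U i, P U → P (fl U i)) (U : Finset ι) : P U :=
  reg_ind (D := Set.univ) h0 (fun U i _ _ => hs U i) U (Reg.univ S U)

theorem Cube.inv (h : Cube G C) (S U : Finset ι) :
    ∀ i j, Top C U i j → Relation.TransGen (Top C S) i j := by
  refine all_ind S (P := fun U => ∀ i j, Top C U i j → Relation.TransGen (Top C S) i j)
    (fun i j t => .single t) (fun U t ih i j k => ?_) U
  by_cases e : Top C U i j
  · exact ih i j e
  · obtain ⟨a, b⟩ := h.CH k (t := t) (by rwa [fl_fl])
    have a' := a.fl2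
    have b' := b.fl1
    rw [fl_fl] at a' b'
    exact (ih _ _ a').trans (ih _ _ b')

/-- chains of tops at one corner -/
inductive Path (C : Finset ι → V → κ) (S : Finset ι) : ℕ → ι → ι → Prop
  | one {i j : ι} : Top C S i j → Path C S 0 i j
  | cons {n : ℕ} {i t j : ι} : Top C S i t → Path C S n t j → Path C S (n + 1) i j

theorem Cube.path_fl (h : Cube G C) {S : Finset ι} (t : ι) {n : ℕ} {j i : ι}
    (p : Path C S n j i) : Path C (fl S t) n j i ∨ ∃ m, m ≤ n ∧ Path C S m t i := by
  induction p with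
  | @one x y k =>
    by_cases e : Top C (fl S t) x y
    · exact Or.inl (.one e)
    · exact Or.inr ⟨0, le_rfl, .one (h.CH k e).2⟩
  | @cons n x y w k p ih =>
    rcases ih with ih | ⟨m, hm, ih⟩
    · by_cases e : Top C (fl S t) x y
      · exact Or.inl (.cons e ih)
      · exact Or.inr ⟨n + 1, le_rfl, .cons (h.CH k e).2 p⟩
    · exact Or.inr ⟨m, by omega, ih⟩

theorem Cube.no_path (h : Cube G C) (n : ℕ) : ∀ S i, ¬ Path C S n i i := by
  induction n using Nat.strong_induction_on with
  | _ n ih =>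
    intro S i p
    cases p with
    | one k => exact k.1 rfl
    | @cons n _ t _ k p =>
      cases p with
      | one k' => exact h.asym k k'
      | @cons n _ j _ k' p =>
        rcases h.TR k k' with e | e
        · exact ih _ (by omega) S i (.cons e p)
        · rcases h.path_fl t p with q | ⟨m, hm, q⟩
          · exact ih _ (by omega) _ i (.cons e q)
          · exact ih _ (by omega) S i (.cons k q)

/-- the top order between directions -/
def Gt (C : Finset ι → V → κ) : ι → ι → Prop := Relation.TransGen fun i j => ∃ S, Top C S i j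

theorem Top.gt {S : Finset ι} {i j : ι} (t : Top C S i j) : Gt C i j :=
  Relation.TransGen.single ⟨S, t⟩

theorem Cube.gt_irrefl (h : Cube G C) (i : ι) : ¬ Gt C i i := by
  intro g
  have k : ∀ x y, Gt C x y → Relation.TransGen (Top C ∅) x y := by
    intro x y g
    induction g with
    | single k => obtain ⟨S, k⟩ := k; exact h.inv _ _ _ _ k
    | tail _ k ih => obtain ⟨S, k⟩ := k; exact ih.trans (h.inv _ _ _ _ k)
  have k2 : ∀ x y, Relation.TransGen (Top C ∅) x y → ∃ n, Path C ∅ n x y := by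
    intro x y g
    induction g using Relation.TransGen.head_induction_on with
    | single k => exact ⟨0, .one k⟩
    | head k _ ih => obtain ⟨n, ih⟩ := ih; exact ⟨n + 1, .cons k ih⟩
  obtain ⟨n, p⟩ := k2 _ _ (k _ _ g)
  exact h.no_path n _ _ p

theorem Cube.gt_asym (h : Cube G C) {i j : ι} (g : Gt C i j) {S : Finset ι} : ¬ Top C S j i :=
  fun t => h.gt_irrefl i (Relation.TransGen.trans g t.gt)

theorem Cube.ex_max [Finite ι] (h : Cube G C) {P : Set ι} (hp : P.Nonempty) :
    ∃ m ∈ P, ∀ t ∈ P, ¬ Gt C t m := by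
  have : IsTrans ι (Gt C) := ⟨fun _ _ _ => Relation.TransGen.trans⟩
  have : Std.Irrefl (Gt C) := ⟨h.gt_irrefl⟩
  exact (Finite.wellFounded_of_trans_of_irrefl (Gt C)).has_min P hp

theorem Cube.ex_min [Finite ι] (h : Cube G C) {P : Set ι} (hp : P.Nonempty) :
    ∃ m ∈ P, ∀ t ∈ P, ¬ Gt C m t := by
  have : IsTrans ι (fun a b => Gt C b a) := ⟨fun _ _ _ a b => Relation.TransGen.trans b a⟩
  have : Std.Irrefl (fun a b => Gt C b a) := ⟨h.gt_irrefl⟩
  exact (Finite.wellFounded_of_trans_of_irrefl (fun a b => Gt C b a)).has_min P hp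

end Pool.Agent.Kempe5e
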