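import Pool.Agent.Lib.MP_5e5661.Cube

/-! Roots, level sets and labels in cubes; constructions of cubes. -/

namespace Pool.Agent.Kempe5e

variable {V κ ι : Type*} {G : SimpleGraph V} [DecidableEq ι] {C : Finset ι → V → κ}

theorem Cube.hs_const (h : Cube G C) {S U : Finset ι} {D : Set ι} {i : ι}
    (hm : ∀ t ∈ D, ¬ Gt C i t) (hU : Reg S D U) : HS C U i = HS C S i :=
  reg_ind (P := fun U => HS C U i = HS C S i) rfl
    (fun _ t ht _ ih => (h.nH fun k => hm t ht k.gt).trans ih) U hU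

theorem Cube.ls_const (h : Cube G C) {S U : Finset ι} {D : Set ι} {i : ι}
    (hm : ∀ t ∈ D, ¬ Gt C t i) (hU : Reg S D U) : LS C U i = LS C S i :=
  reg_ind (P := fun U => LS C U i = LS C S i) rfl
    (fun _ t ht _ ih => (h.nL fun k => hm t ht k.gt).trans ih) U hU

theorem Cube.lose (h : Cube G C) {S : Finset ι} {i j : ι} {v : V} (h1 : v ∈ HS C S i)
    (h2 : v ∉ HS C (fl S j) i) : Top C S i j ∧ v ∈ HS C S j := by
  have t : Top C S i j := by
    by_contra k
    exact h2 (h.nH k ▸ h1)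
  refine ⟨t, ?_⟩
  obtain ⟨a, b, d, n1, n2, n3, -, -, -, -, p⟩ := h.top_data t
  have := p v
  simp only [mem_HS, fl_comm S j i] at *
  grind

theorem Cube.root [Finite ι] (h : Cube G C) {S U : Finset ι} {D : Set ι} {t : ι} {v : V}
    (hU : Reg S D U) (ht : t ∈ D) (hv : v ∈ HS C U t) :
    ∃ r ∈ D, ∀ W, Reg S D W → v ∈ HS C W r := by
  obtain ⟨r, ⟨hr, U0, hU0, hv0⟩, hm⟩ :=
    h.ex_min (P := {t | t ∈ D ∧ ∃ U, Reg S D U ∧ v ∈ HS C U t}) ⟨t, ht, U, hU, hv⟩
  refine ⟨r, hr, fun W hW => ?_⟩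
  refine reg_ind (S := U0) (D := D) (P := fun W => v ∈ HS C W r) hv0 (fun X i hi hX ih => ?_) W
    (hU0.symm.trans hW)
  by_contra k
  obtain ⟨a, b⟩ := h.lose ih k
  exact hm i ⟨hi, X, hU0.trans hX, b⟩ a.gt

theorem Cube.root_all [Finite ι] (h : Cube G C) {U : Finset ι} {t : ι} {v : V}
    (hv : v ∈ HS C U t) : ∃ r, ∀ W, v ∈ HS C W r := by
  obtain ⟨r, -, hr⟩ := h.root (D := Set.univ) (Reg.refl U _) (Set.mem_univ t) hv
  exact ⟨r, fun W => hr W (Reg.univ _ _)⟩

theorem Cube.tm (h : Cube G C) {S : Finset ι} {r t : ι} {v : V} (n : r ≠ t)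
    (h1 : v ∈ HS C S r) (h2 : v ∈ HS C (fl S t) r) (h3 : v ∈ HS C S t) :
    Top C S t r ∧ v ∉ HS C (fl S r) t := by
  rcases h.face S n with k | k | k
  · have := k v
    simp only [mem_HS] at *
    grind
  · obtain ⟨a, b, d, n1, n2, n3, -, -, -, -, p⟩ := h.top_data k
    have := p v
    simp only [mem_HS, fl_comm S t r] at *
    grind
  · refine ⟨k, ?_⟩
    obtain ⟨a, b, d, n1, n2, n3, -, -, -, -, p⟩ := h.top_data k
    have := p v
    simp only [mem_HS, fl_comm S r t] at *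
    grind

theorem Cube.lemS0 [Finite ι] (h : Cube G C) (v : V) (n : ℕ) :
    ∀ S S' : Finset ι, (symmDiff S S').card = n → C S v = C S' v →
      ∀ U t, Reg S (symmDiff S S' : Finset ι) U → t ∈ symmDiff S S' → v ∉ HS C U t := by
  induction n using Nat.strong_induction_on with
  | _ n ih =>
    intro S S' hc he U t hU ht hv
    obtain ⟨r, hr, hr'⟩ := h.root hU (Finset.mem_coe.2 ht) hv
    rw [Finset.mem_coe] at hr
    have rS' : Reg S (symmDiff S S' : Finset ι) S' := by
      intro i hi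
      simp only [Finset.coe_symmDiff, Set.mem_symmDiff, Finset.mem_coe] at hi
      tauto
    by_cases e : ∃ t0, t0 ∈ symmDiff S S' ∧ t0 ≠ r
    · obtain ⟨t0, ⟨ht0, n0⟩, hm⟩ := h.ex_min (P := {t | t ∈ symmDiff S S' ∧ t ≠ r}) e
      have lt : ((symmDiff S S').erase t0).card < n := hc ▸ Finset.card_erase_lt_of_mem ht0
      have m1 : v ∈ HS C S t0 := by
        by_contra k
        have e1 : symmDiff (fl S t0) S' = (symmDiff S S').erase t0 := by
          ext j
          simp only [Finset.mem_symmDiff, mem_fl, Finset.mem_erase] at *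
          grind
        refine ih _ lt (fl S t0) S' (by rw [e1]) ?_ (fl S t0) r (Reg.refl _ _) ?_
          (hr' _ ((Reg.refl _ _).step (Finset.mem_coe.2 ht0)))
        · rw [mem_HS, not_not] at k
          rw [← k, he]
        · rw [e1]; exact Finset.mem_erase.2 ⟨n0.symm, hr⟩
      have m2 : v ∈ HS C S' t0 := by
        by_contra k
        have e1 : symmDiff S (fl S' t0) = (symmDiff S S').erase t0 := by
          ext j
          simp only [Finset.mem_symmDiff, mem_fl, Finset.mem_erase] at *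
          grind
        refine ih _ lt S (fl S' t0) (by rw [e1]) ?_ S r (Reg.refl _ _) ?_ (hr' _ (Reg.refl _ _))
        · rw [mem_HS, not_not] at k
          rw [← k, he]
        · rw [e1]; exact Finset.mem_erase.2 ⟨n0.symm, hr⟩
      have m3 : HS C S' t0 = HS C (fl S r) t0 := by
        refine h.hs_const (D := {t | t ∈ symmDiff S S' ∧ t ≠ r}) hm (fun i hi => ?_)
        simp only [Set.mem_ofPred_eq, Finset.mem_symmDiff, mem_fl] at *
        grind
      exact (h.tm n0.symm (hr' _ (Reg.refl _ _))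
        (hr' _ ((Reg.refl _ _).step (Finset.mem_coe.2 ht0))) m1).2 (m3 ▸ m2)
    · push Not at e
      have : S' = fl S r := by
        ext j
        have := e j
        simp only [Finset.mem_symmDiff, mem_fl] at *
        grind
      exact hr' S (Reg.refl _ _) (this ▸ he)

/-- a vertex moved at `S` by a direction separating `S` from `S'` has different colours there -/
theorem Cube.lemS [Finite ι] (h : Cube G C) {v : V} {S S' : Finset ι} {t : ι}
    (ht : ¬ (t ∈ S ↔ t ∈ S')) (hv : v ∈ HS C S t) : C S v ≠ C S' v := fun he =>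
  h.lemS0 v _ S S' rfl he S t (Reg.refl _ _) (by rw [Finset.mem_symmDiff]; tauto) hv

theorem Cube.level [Finite ι] (h : Cube G C) {v : V} {S S' U : Finset ι} (he : C S v = C S' v)
    (hU : ∀ i, (i ∈ S ↔ i ∈ S') → (i ∈ U ↔ i ∈ S)) : C U v = C S v := by
  refine reg_ind (S := S) (D := (symmDiff S S' : Finset ι)) (P := fun U => C U v = C S v) rfl
    (fun W i hi hW ih => ?_) U (fun i hi => hU i ?_)
  · have := h.lemS0 v _ S S' rfl he W i hW (Finset.mem_coe.1 hi)
    rw [mem_HS, not_not] at this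
    rw [← this, ih]
  · simp only [Finset.coe_symmDiff, Set.mem_symmDiff, Finset.mem_coe] at hi
    tauto

theorem Cube.first [Finite ι] (h : Cube G C) {v : V} {S S' : Finset ι} (he : C S v ≠ C S' v) :
    ∃ r, ¬ (r ∈ S ↔ r ∈ S') ∧
      ∀ W : Finset ι, (∀ i, (i ∈ S ↔ i ∈ S') → (i ∈ W ↔ i ∈ S)) → v ∈ HS C W r := by
  have : ∃ U t, Reg S {i | ¬ (i ∈ S ↔ i ∈ S')} U ∧ t ∈ {i | ¬ (i ∈ S ↔ i ∈ S')} ∧
      v ∈ HS C U t := by
    by_contra k
    apply he
    refine (reg_ind (S := S) (D := {i | ¬ (i ∈ S ↔ i ∈ S')}) (P := fun U => C U v = C S v) rfl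
      (fun W i hi hW ih => ?_) S' (fun i hi => ?_)).symm
    · have : v ∉ HS C W i := fun q => k ⟨W, i, hW, hi, q⟩
      rw [mem_HS, not_not] at this
      rw [← this, ih]
    · simp only [Set.mem_ofPred_eq] at hi
      tauto
  obtain ⟨U, t, h1, h2, h3⟩ := this
  obtain ⟨r, hr, hr'⟩ := h.root h1 h2 h3
  refine ⟨r, hr, fun W hW => hr' W fun i hi => hW i ?_⟩
  simp only [Set.mem_ofPred_eq] at hi
  tauto

theorem Cube.first' [Finite ι] (h : Cube G C) {v : V} {S S' : Finset ι} (he : C S v ≠ C S' v) :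
    ∃ r, ¬ (r ∈ S ↔ r ∈ S') ∧ v ∈ HS C S r := by
  obtain ⟨r, h1, h2⟩ := h.first he
  exact ⟨r, h1, h2 S fun _ _ => Iff.rfl⟩

/-- corners outside the moving directions keep the colour -/
theorem Cube.stay [Finite ι] (h : Cube G C) {v : V} {S S' : Finset ι}
    (hs : ∀ r, v ∈ HS C S r → (r ∈ S ↔ r ∈ S')) : C S v = C S' v := by
  by_contra k
  obtain ⟨r, h1, h2⟩ := h.first' k
  exact h1 (hs r h2)

theorem Cube.k4aux [Fintype ι] (h : Cube G C) {S : Finset ι} {t : ι} {x : κ}
    (hx : ∀ W, x ∈ LS C W t) (hn : ∀ w ∈ HS C S t, C S w ≠ x) :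
    ∃ v, v ∈ HS C S t ∧ C (fl S t) v = x ∧ C Sᶜ v = x ∧ ∀ W, v ∈ HS C W t := by
  obtain ⟨v, hv⟩ := (h.adj S t).ne
  have hv' : C (fl S t) v = x := (h.mem_of_ls (hx S) hv).resolve_left (hn v hv)
  have s := (h.adj S t).swat hv
  have mono : ∀ u, u ≠ v → C S u = C (fl S t) u := by
    refine (h.adj S t).mono (a := C S v) (fun u hu => ?_) hv
    have := s u hu
    have := hn u hu
    grind
  obtain ⟨r, hr⟩ := h.root_all hv
  have e : r = t := by
    by_contra n
    obtain ⟨⟨n', a, b, d, k⟩, -⟩ := h.tm n (hr S) (hr _) hv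
    obtain ⟨u, u1, u2⟩ := k.R_ne (h.isq S n') (h.only S _ _ n')
    have : u = v := by
      by_contra q
      exact u1 (mono u q)
    subst this
    exact hr S u2
  subst e
  refine ⟨v, hv, hv', ?_, hr⟩
  rcases h.mem_of_ls (hx Sᶜ) (hr _) with k | k
  · exact k
  · refine (h.lemS (S := fl S r) (S' := fl Sᶜ r) (t := r) ?_ (hr _) (hv'.trans k.symm)).elim
    simp only [mem_fl, Finset.mem_compl]
    tauto

theorem Cube.max_lab [Finite ι] (h : Cube G C) {U : Finset ι} {t : ι} {x : κ}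
    (hx : x ∈ LS C U t) : ∃ m, ∀ W, x ∈ LS C W m := by
  obtain ⟨m, ⟨U0, h0⟩, hm⟩ := h.ex_max (P := {t | ∃ U, x ∈ LS C U t}) ⟨t, U, hx⟩
  refine ⟨m, all_ind U0 (P := fun W => x ∈ LS C W m) h0 fun W i ih => ?_⟩
  by_cases k : Top C W i m
  · obtain ⟨a, b, d, n1, n2, n3, e1, -, e2, e3, -⟩ := h.top_data k
    rw [e2] at ih
    rw [e3]
    rcases ih with rfl | rfl
    · exact (hm i ⟨W, by rw [e1]; simp⟩ k.gt).elim
    · simp
  · rw [h.nL k]; exact ih

/-- a colour used on an edge is used between antipodal corners -/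
theorem Cube.K4 [Fintype ι] (h : Cube G C) (S : Finset ι) {U : Finset ι} {t : ι} {x : κ}
    (hx : x ∈ LS C U t) : In (C S) (C Sᶜ) x := by
  obtain ⟨m, hm⟩ := h.max_lab hx
  by_cases k : ∃ w ∈ HS C S m, C S w = x
  · obtain ⟨w, h1, h2⟩ := k
    exact ⟨w, h.lemS (t := m) (by simp) h1, Or.inl h2⟩
  · push Not at k
    obtain ⟨v, h1, h2, h3, -⟩ := h.k4aux hm k
    exact ⟨v, h3 ▸ k v h1, Or.inr h3⟩

theorem Cube.K4' [Fintype ι] (h : Cube G C) {τ : Set κ} {S : Finset ι}
    (e : Eqv τ (C S) (C Sᶜ)) (U : Finset ι) : Eqv τ (C S) (C U) :=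
  all_ind S (P := fun U => Eqv τ (C S) (C U)) (Eqv.refl _ _)
    (fun _ _ ih => ih.trans (eqv_iff.2 fun x hx => eqv_iff.1 e x (h.K4 S (mem_LS.2 hx)))) U

theorem Cube.K5 (h : Cube G C) {τ : Set κ} {S : Finset ι} {D : Set ι}
    (e : ∀ i ∈ D, Eqv τ (C S) (C (fl S i))) {U : Finset ι} (hU : Reg S D U) :
    Eqv τ (C S) (C U) := by
  refine (reg_ind (P := fun U => Eqv τ (C S) (C U) ∧ ∀ i ∈ D, Eqv τ (C S) (C (fl U i)))
    ⟨Eqv.refl _ _, e⟩ (fun W j hj _ ih => ⟨ih.2 j hj, fun i hi => ?_⟩) U hU).1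
  by_cases q : j = i
  · subst q; rw [fl_fl]; exact ih.1
  · exact ih.1.trans ((h.isq W q).eqv (ih.1.symm.trans (ih.2 j hj)) (ih.1.symm.trans (ih.2 i hi)))

theorem Cube.K5' (h : Cube G C) {τ : Set κ} {S : Finset ι}
    (e : ∀ i, Eqv τ (C S) (C (fl S i))) (U : Finset ι) : Eqv τ (C S) (C U) :=
  h.K5 (D := Set.univ) (fun i _ => e i) (Reg.univ _ _)

theorem Cube.noTop (h : Cube G C) {S : Finset ι} (e : ∀ i j, ¬ Top C S i j) (U : Finset ι)
    (i j : ι) : ¬ Top C U i j := by
  intro k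
  have := h.inv S U i j k
  cases this with
  | single q => exact e _ _ q
  | tail _ q => exact e _ _ q

theorem Cube.noGt (h : Cube G C) {S : Finset ι} (e : ∀ i j, ¬ Top C S i j) (i j : ι) :
    ¬ Gt C i j := by
  intro k
  cases k with
  | single q => obtain ⟨U, q⟩ := q; exact h.noTop e U _ _ q
  | tail _ q => obtain ⟨U, q⟩ := q; exact h.noTop e U _ _ q

theorem KIso.cube {V' κ' : Type*} {G' : SimpleGraph V'} {φ : (V → κ) → (V' → κ')}
    {ψ : (V' → κ') → (V → κ)} (k : KIso G G' φ ψ) (h : Cube G C) :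
    Cube G' (fun S => φ (C S)) :=
  ⟨fun S i => k.k _ _ (h.adj S i),
    fun S i j n => k.ne (h.adj S i).pd (h.adj S j).pd (h.ne S i j n),
    fun S i j n => k.nka (h.adj S i).pd (h.adj S j).pd (h.nadj S i j n),
    fun S i j n => k.only (h.adj S i).pd (h.adj S j).pd (h.only S i j n)⟩

theorem fl_compl [Fintype ι] (S : Finset ι) (i : ι) : (fl S i)ᶜ = fl Sᶜ i := by
  ext j
  simp only [mem_fl, Finset.mem_compl]
  tauto

theorem Cube.compl [Fintype ι] (h : Cube G C) : Cube G (fun S => C Sᶜ) := by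
  refine ⟨fun S i => ?_, fun S i j n => ?_, fun S i j n => ?_, fun S i j n => ?_⟩ <;>
    simp only [fl_compl]
  exacts [h.adj _ _, h.ne _ _ _ n, h.nadj _ _ _ n, h.only _ _ _ n]

theorem only_of_far {c0 c1 c2 c3 : V → κ} (h01 : KA G c0 c1) (h02 : KA G c0 c2)
    (h23 : KA G c2 c3) (cm : Cm c0 c1 c2 c3)
    (far : ∀ u v, c0 u ≠ c1 u → c0 v ≠ c2 v → ¬ G.Adj u v) : Only G c1 c2 c0 c3 := by
  intro e k1 k2
  obtain ⟨x, hx⟩ := h01.ne
  obtain ⟨y, hy⟩ := h02.ne
  by_cases A : ∃ w, c1 w = c2 w ∧ c1 w ≠ e w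
  · obtain ⟨w, w1, w2⟩ := A
    have s1 := k1.swat w2
    have s2 : Sw c2 e (c1 w) (e w) := w1 ▸ k2.swat (w1 ▸ w2)
    have s3 := (s1.trans s2.symm).or x
    have cx := cm x
    have x2 : c2 x ≠ c3 x := by grind
    by_cases B : c1 x = e x
    · right
      refine (k2.uniq_sw h23 s2 (fun u hu => ?_) (v := x) (by grind) x2)
      have := h23.swat x2 u hu
      grind
    · left
      refine (k1.uniq_sw h01.symm s1 (fun u hu => ?_) B hx.symm)
      have := h01.symm.swat hx.symm u hu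
      grind
  · push Not at A
    have P1 : ∀ u, c1 u ≠ e u → c0 u ≠ c1 u → ∀ v, c1 v ≠ e v → c0 v ≠ c1 v := fun u u1 u2 =>
      k1.conn.sub (P := {v | c0 v ≠ c1 v}) u1 u2 fun p hp q hq hadj pp => by
        have := far p q pp
        have := A q
        simp only [Set.mem_ofPred_eq] at *
        grind
    have P2 : ∀ u, c2 u ≠ e u → c0 u ≠ c1 u → ∀ v, c2 v ≠ e v → c0 v ≠ c1 v := fun u u1 u2 =>
      k2.conn.sub (P := {v | c0 v ≠ c1 v}) u1 u2 fun p hp q hq hadj pp => by
        have := far p q pp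
        have := A q
        simp only [Set.mem_ofPred_eq] at *
        grind
    by_cases B : ∃ u, c1 u ≠ e u ∧ c0 u ≠ c1 u
    · obtain ⟨u, u1, u2⟩ := B
      left
      funext v
      have := P1 u u1 u2 v
      have := P1 u u1 u2 y
      have := P2 v
      have := cm v
      have := cm y
      have := A v
      by_cases q : c0 v = c1 v
      · grind
      · by_cases q' : c2 v = e v
        · grind
        · have := P2 v q' q y
          grind
    · push Not at B
      right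
      funext v
      have := B v
      have := B x
      have := cm v
      have := cm x
      have := P2 x (by grind) hx v
      grind

theorem cube_of_char {c : V → κ} {d : ι → V → κ} (hk : ∀ i, KA G c (d i))
    (hd : ∀ i j, i ≠ j → ∀ u v, c u ≠ d i u → c v ≠ d j v → u ≠ v ∧ ¬ G.Adj u v)
    (h1 : ∀ S i v, i ∈ S → c v ≠ d i v → C S v = d i v)
    (h2 : ∀ S v, (∀ i ∈ S, c v = d i v) → C S v = c v) (pc : Proper G c) : Cube G C := by
  have f1 : ∀ S i v, c v ≠ d i v → i ∉ S → C S v = c v := fun S i v hv hi =>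
    h2 S v fun j hj => by
      by_contra k
      exact (hd i j (fun e => hi (e ▸ hj)) v v hv k).1 rfl
  have f2 : ∀ S i v, c v = d i v → C (fl S i) v = C S v := by
    intro S i v hv
    by_cases k : ∃ j, c v ≠ d j v
    · obtain ⟨j, hj⟩ := k
      have n : j ≠ i := fun e => hj (e ▸ hv)
      by_cases q : j ∈ S
      · rw [h1 S j v q hj, h1 _ j v (mem_fl.2 (by tauto)) hj]
      · rw [f1 S j v hj q, f1 _ j v hj (by rw [mem_fl]; tauto)]
    · push Not at k
      rw [h2 S v fun j _ => k j, h2 _ v fun j _ => k j]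
  have f3 : ∀ S i v, c v ≠ d i v →
      (C S v = c v ∧ C (fl S i) v = d i v) ∨ (C S v = d i v ∧ C (fl S i) v = c v) := by
    intro S i v hv
    by_cases q : i ∈ S
    · exact Or.inr ⟨h1 S i v q hv, f1 _ i v hv (by rw [mem_fl]; tauto)⟩
    · exact Or.inl ⟨f1 S i v hv q, h1 _ i v (mem_fl.2 (by tauto)) hv⟩
  have pr : ∀ S, Proper G (C S) := by
    have key : ∀ S i u v, i ∈ S → c u ≠ d i u → G.Adj u v → C S u ≠ C S v := by
      intro S i u v hi hu huv
      have : C S v = d i v := by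
        by_cases q : c v = d i v
        · rw [← q]
          refine h2 S v fun j hj => ?_
          by_contra k
          exact (hd i j (fun e => k (e ▸ q)) u v hu k).2 huv
        · exact h1 S i v hi q
      rw [this, h1 S i u hi hu]
      exact (hk i).pd u v huv
    intro S u v huv
    by_cases q1 : ∃ i ∈ S, c u ≠ d i u
    · obtain ⟨i, hi, hu⟩ := q1
      exact key S i u v hi hu huv
    · by_cases q2 : ∃ i ∈ S, c v ≠ d i v
      · obtain ⟨i, hi, hv⟩ := q2
        exact (key S i v u hi hv huv.symm).symm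
      · push Not at q1 q2
        rw [h2 S u q1, h2 S v q2]
        exact pc u v huv
  have ch : ∀ S i v, C S v ≠ C (fl S i) v ↔ c v ≠ d i v := by
    intro S i v
    have := f2 S i v
    have := f3 S i v
    grind
  have ka : ∀ S i, KA G (C S) (C (fl S i)) := by
    intro S i
    obtain ⟨v, hv⟩ := (hk i).ne
    obtain ⟨a, b, s⟩ := (hk i).sw
    refine ⟨pr _, pr _, ⟨v, (ch S i v).2 hv⟩, ⟨a, b, fun u hu => ?_⟩, ?_⟩
    · have := (ch S i u).1 hu
      have := f3 S i u this
      have := s u ‹_›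
      grind
    · have : {v | C S v ≠ C (fl S i) v} = {v | c v ≠ d i v} := by
        ext v; exact ch S i v
      rw [this]; exact (hk i).conn
  refine ⟨ka, fun S i j n e => ?_, fun S i j n k => ?_, fun S i j n => ?_⟩
  · obtain ⟨v, hv⟩ := (hk i).ne
    have q : c v = d j v := by
      by_contra k
      exact (hd i j n v v hv k).1 rfl
    exact (ch S i v).2 hv (by rw [e, f2 S j v q])
  · obtain ⟨u, hu⟩ := (hk i).ne
    obtain ⟨v, hv⟩ := (hk j).ne
    have dj : ∀ w, c w ≠ d i w → c w = d j w := fun w hw => by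
      by_contra k
      exact (hd i j n w w hw k).1 rfl
    have a1 : C (fl S i) u ≠ C (fl S j) u := by
      rw [f2 S j u (dj u hu)]; exact ((ch S i u).2 hu).symm
    have a2 : c v = d i v := by
      by_contra q
      exact hv (dj v q)
    have a3 : C (fl S i) v ≠ C (fl S j) v := by
      rw [f2 S i v a2]; exact (ch S j v).2 hv
    obtain ⟨x, hx, y, hy, hadj, px, py⟩ :=
      k.conn.cross (P := {w | c w ≠ d i w}) a1 a3 hu (fun q => q a2)
    simp only [Set.mem_ofPred_eq, not_not] at hy px py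
    rw [f2 S i y py] at hy
    exact (hd i j n x y px ((ch S j y).1 hy)).2 hadj
  · refine only_of_far (ka S i) (ka S j) (by rw [fl_comm]; exact ka _ i) (fun v => ?_)
      (fun u v hu hv => (hd i j n u v ((ch S i u).1 hu) ((ch S j v).1 hv)).2)
    by_cases q : c v = d i v
    · left
      rw [fl_comm, f2 _ i v q, f2 _ i v q]
      exact ⟨rfl, rfl⟩
    · right
      have q' : c v = d j v := by
        by_contra k
        exact (hd i j n v v q k).1 rfl
      rw [f2 _ j v q', f2 _ j v q']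
      exact ⟨rfl, rfl⟩

theorem fl_empty (i : ι) : fl (∅ : Finset ι) i = {i} := by
  ext j; simp [mem_fl]

/-- the components of a two-coloured change -/
def SwI (G : SimpleGraph V) (c c' : V → κ) (a b : κ) : Type _ :=
  {d : V → κ // KA G c d ∧ Sw c d a b ∧ ∀ w, c w ≠ d w → d w = c' w}

instance [Finite V] [Finite κ] (c c' : V → κ) (a b : κ) : Finite (SwI G c c' a b) := by
  unfold SwI; infer_instance

theorem cube_of_sw {c c' : V → κ} {a b : κ} (pc : Proper G c) (pc' : Proper G c')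
    (s : Sw c c' a b) [Fintype (SwI G c c' a b)] [DecidableEq (SwI G c c' a b)] :
    ∃ C : Finset (SwI G c c' a b) → V → κ, Cube G C ∧ C ∅ = c ∧ C Finset.univ = c' ∧
      ∀ i, Sw c (C (fl ∅ i)) a b := by
  classical
  have hd : ∀ i j : SwI G c c' a b, i ≠ j → ∀ u v, c u ≠ i.1 u → c v ≠ j.1 v →
      u ≠ v ∧ ¬ G.Adj u v := by
    intro i j n u v hu hv
    have key : c v = i.1 v := by
      by_contra k
      exact n (Subtype.ext (i.2.1.uniq_sw j.2.1 i.2.2.1 j.2.2.1 k hv))
    exact ⟨fun e => hu (e ▸ key),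
      fun hadj => closure pc i.2.1.pd i.2.2.1 hu hadj (j.2.2.1 v hv).1 key⟩
  let C : Finset (SwI G c c' a b) → V → κ := fun S v =>
    if ∃ i ∈ S, c v ≠ i.1 v then c' v else c v
  have h1 : ∀ S (i : SwI G c c' a b) v, i ∈ S → c v ≠ i.1 v → C S v = i.1 v := by
    intro S i v hi hv
    simp only [C]
    rw [if_pos ⟨i, hi, hv⟩, i.2.2.2 v hv]
  have h2 : ∀ S v, (∀ i ∈ S, c v = i.1 v) → C S v = c v := by
    intro S v hv
    simp only [C]
    rw [if_neg]
    push Not
    exact hv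
  refine ⟨C, cube_of_char (d := fun i => i.1) (fun i => i.2.1) hd h1 h2 pc, ?_, ?_, fun i => ?_⟩
  · funext v; exact h2 _ v (by simp)
  · funext v
    by_cases e : c v = c' v
    · simp only [C]; split_ifs; exacts [rfl, e]
    · obtain ⟨d, k1, k2, k3⟩ := ex_move pc (s.ne ⟨v, e⟩) (s v e).1
      simp only [C]
      rw [if_pos ⟨⟨d, k1, k2, sub_move pc' s k1 k2 k3 e⟩, Finset.mem_univ _, k3⟩]
  · intro v hv
    by_cases e : c v = i.1 v
    · exact (hv (h2 _ v (by simpa [fl_empty] using e)).symm).elim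
    · rw [h1 _ i v (by simp [fl_empty]) e]
      exact i.2.2.1 v e

end Pool.Agent.Kempe5e
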