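import Pool.Agent.Lib.MP_5e5661.WR

/-! Reconstruction of the graph from the images of the single recolourings to a free colour. -/

namespace Pool.Agent.Kempe5e

variable {V κ V' κ' : Type*} {G : SimpleGraph V} {G' : SimpleGraph V'}
  {φ : (V → κ) → (V' → κ')} {ψ : (V' → κ') → (V → κ)} {c : V → κ} {z : κ}

structure WD (φ : (V → κ) → (V' → κ')) (G : SimpleGraph V) (G' : SimpleGraph V') (c : V → κ)
    (z : κ) (u : V) (e : κ) (n : V → κ) (A B : Set V) (o t h : κ') : Prop where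
  wr : WR φ G G' c n A B z o t h
  uA : u ∈ A
  cB : ∀ v ∈ B, c v = e
  kn : KA G c n
  nu : n u = e
  ch : ∀ v, c v ≠ n v ↔ v ∈ A ∨ v ∈ B
  nz : ∀ v, n v ≠ z

theorem km (pc : Proper G c) (hz : ∀ v, c v ≠ z) (u : V) : KA G c (flp c {u} z) := by
  refine KA.single pc (fun x y h => ?_) (v := u) (by grind) (by grind)
  have := pc x y h
  have := h.ne
  grind

theorem m_inj (hz : ∀ v, c v ≠ z) {u v : V} (e : flp c {u} z = flp c {v} z) : u = v := by
  have := congrFun e u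
  grind

section
variable {u : V} {e : κ} {n : V → κ} {A B : Set V} {o t h : κ'}

theorem WD.cap (W : WD φ G G' c z u e n A B o t h) {w : V'} (hw : φ c w ≠ φ (flp c {u} z) w) :
    (∃ s ∈ B, φ c w ≠ φ (flp c {s} z) w ∧ φ (flp c {s} z) w = h) ∨
      (φ c w ≠ φ n w ∧ φ n w = h) := by
  have := W.wr.ot; have := W.wr.oh; have := W.wr.th
  rcases (W.wr.la u W.uA w hw).1 with y | y
  · obtain ⟨s, hs, q⟩ := (W.wr.io w y).1 ⟨u, W.uA, hw⟩
    have := (W.wr.lb s hs).or w
    exact Or.inl ⟨s, hs, q, by grind⟩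
  · have := (W.wr.it w y).1 ⟨u, W.uA, hw⟩
    have := W.wr.ln.or w
    exact Or.inr (by grind)

theorem WD.uclos (k : KIso G G' φ ψ) (pc : Proper G c) (hz : ∀ v, c v ≠ z)
    (W : WD φ G G' c z u e n A B o t h) {w w' : V'} (hw : φ c w ≠ φ (flp c {u} z) w)
    (a : w = w' ∨ G'.Adj w w') :
    ((φ c w' = o ∨ φ c w' = h) → ∃ s ∈ B, φ c w' ≠ φ (flp c {s} z) w') ∧
      ((φ c w' = t ∨ φ c w' = h) → φ c w' ≠ φ n w') := by
  have := W.wr.ot; have := W.wr.oh; have := W.wr.th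
  have ku := k.k _ _ (km pc hz u)
  have kn := k.k _ _ W.kn
  have a1 : φ c w' = o ∨ φ c w' = t → φ c w' ≠ φ (flp c {u} z) w' := fun y =>
    a.elim (fun q => q ▸ hw) fun q => closure ku.pc ku.pd (W.wr.la u W.uA) hw q y
  have a2 : φ c w' = h → φ c w' ≠ φ n w' := by
    intro y
    have l := (W.wr.la u W.uA w hw).1
    have q : G'.Adj w w' := a.resolve_left (by grind)
    rcases W.cap hw with ⟨s, hs, r, -⟩ | ⟨r, -⟩
    · have ks := k.k _ _ (km pc hz s)
      exact (W.wr.ih w' y).1 ⟨s, hs, closure ks.pc ks.pd (W.wr.lb s hs) r q (Or.inr y)⟩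
    · exact closure kn.pc kn.pd W.wr.ln r q (Or.inr y)
  refine ⟨fun y => y.elim (fun y => ?_) fun y => ?_, fun y => y.elim (fun y => ?_) a2⟩
  · exact (W.wr.io w' y).1 ⟨u, W.uA, a1 (Or.inl y)⟩
  · exact (W.wr.ih w' y).2 (a2 y)
  · exact (W.wr.it w' y).1 ⟨u, W.uA, a1 (Or.inr y)⟩

theorem WD.ne_m (k : KIso G G' φ ψ) (pc : Proper G c) (hz : ∀ v, c v ≠ z)
    (W : WD φ G G' c z u e n A B o t h) (s : V) : φ n ≠ φ (flp c {s} z) :=
  k.ne W.kn.pd (km pc hz s).pd (ne_of_at s (by have := W.nz s; grind))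

theorem WD.hinj (k : KIso G G' φ ψ) (pc : Proper G c) (hz : ∀ v, c v ≠ z)
    (W : WD φ G G' c z u e n A B o t h) {e' : κ} {n' : V → κ} {A' B' : Set V} {o' t' : κ'}
    (W' : WD φ G G' c z u e' n' A' B' o' t' h) : e = e' := by
  obtain ⟨w, hw⟩ := (k.k _ _ (km pc hz u)).ne
  rcases W.cap hw with ⟨s, hs, r, r'⟩ | ⟨r, r'⟩ <;> rcases W'.cap hw with ⟨s', hs', q, q'⟩ | ⟨q, q'⟩
  · have := m_inj hz (k.inj (km pc hz s).pd (km pc hz s').pd
      ((k.k _ _ (km pc hz s)).uniq (k.k _ _ (km pc hz s')) r (r'.trans q'.symm)))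
    rw [← W.cB s hs, ← W'.cB s' hs', this]
  · exact (W'.ne_m k pc hz s ((k.k _ _ W'.kn).uniq (k.k _ _ (km pc hz s)) q (q'.trans r'.symm))).elim
  · exact (W.ne_m k pc hz s' ((k.k _ _ W.kn).uniq (k.k _ _ (km pc hz s')) r (r'.trans q'.symm))).elim
  · have := k.inj W.kn.pd W'.kn.pd ((k.k _ _ W.kn).uniq (k.k _ _ W'.kn) r (r'.trans q'.symm))
    rw [← W.nu, ← W'.nu, this]

end

/-- every colour outside the label of a recolouring is the third colour of a world -/
def SW (φ : (V → κ) → (V' → κ')) (G : SimpleGraph V) (G' : SimpleGraph V') (c : V → κ)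
    (z : κ) : Prop :=
  ∀ u y, ¬ In (φ c) (φ (flp c {u} z)) y → ∃ e n A B o t, WD φ G G' c z u e n A B o t y

section
variable {u : V} {e : κ} {n : V → κ} {A B : Set V} {o t h : κ'}

theorem WD.excl (k : KIso G G' φ ψ) (pc : Proper G c) (hz : ∀ v, c v ≠ z) (S : SW φ G G' c z)
    (W : WD φ G G' c z u e n A B o t h) {v : V} {w : V'} (hw : φ c w ≠ φ (flp c {v} z) w)
    (hn : φ c w ≠ φ n w) (hy : ¬ In (φ c) (φ (flp c {v} z)) (φ n w)) : v ∈ A ∨ v ∈ B := by
  obtain ⟨e', n', A', B', o', t', W'⟩ := S v _ hy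
  rcases W'.cap hw with ⟨s, hs, q, q'⟩ | ⟨q, q'⟩
  · exact (W.ne_m k pc hz s ((k.k _ _ W.kn).uniq (k.k _ _ (km pc hz s)) hn q'.symm)).elim
  · have := k.inj W.kn.pd W'.kn.pd ((k.k _ _ W.kn).uniq (k.k _ _ W'.kn) hn q'.symm)
    exact (W.ch v).1 (this ▸ (W'.ch v).2 (Or.inl W'.uA))

theorem WD.shared (k : KIso G G' φ ψ) (pc : Proper G c) (hz : ∀ v, c v ≠ z) (S : SW φ G G' c z)
    (W : WD φ G G' c z u e n A B o t h) {v : V} (uv : u ≠ v) {w : V'}
    (hu : φ c w ≠ φ (flp c {u} z) w) (hv : φ c w ≠ φ (flp c {v} z) w) : φ c w = o := by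
  have := W.wr.ot; have := W.wr.oh; have := W.wr.th
  have ku := k.k _ _ (km pc hz u)
  have kv := k.k _ _ (km pc hz v)
  refine (W.wr.la u W.uA w hu).1.resolve_right fun y => ?_
  have hn := (W.wr.it w y).1 ⟨u, W.uA, hu⟩
  have e1 : φ n w = h := by have := W.wr.ln.or w; grind
  by_cases q : In (φ c) (φ (flp c {v} z)) (φ n w)
  · have := sw_iff.1 (kv.swat hv) _ q
    exact W.ne_m k pc hz v ((k.k _ _ W.kn).uniq kv hn (by grind))
  · rcases W.excl k pc hz S hv hn q with r | r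
    · exact uv (m_inj hz (k.inj (km pc hz u).pd (km pc hz v).pd
        (ku.uniq_sw kv (W.wr.la u W.uA) (W.wr.la v r) hu hv)))
    · have := W.wr.lb v r w hv
      grind

end

theorem F1 (k : KIso G G' φ ψ) (pc : Proper G c) (hz : ∀ v, c v ≠ z) (S : SW φ G G' c z)
    {u v : V} (uv : u ≠ v) {w w' : V'} (hu : φ c w ≠ φ (flp c {u} z) w)
    (hv : φ c w' ≠ φ (flp c {v} z) w') (a : w = w' ∨ G'.Adj w w') : G.Adj u v := by
  have ku := k.k _ _ (km pc hz u)
  have kv := k.k _ _ (km pc hz v)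
  have su := ku.swat hu
  have sv := kv.swat hv
  have iu := su.in_iff ku.ne
  have iv := sv.in_iff kv.ne
  have main : ∀ {e : κ} {n : V → κ} {A B : Set V} {o t h : κ'},
      WD φ G G' c z u e n A B o t h → ∀ y, (y = o ∨ y = t) →
      Sw (φ c) (φ (flp c {v} z)) y h → G.Adj u v := by
    intro e n A B o t h W y hy s
    obtain ⟨a1, a2⟩ := W.uclos k pc hz hu a
    rcases hy with rfl | rfl
    · obtain ⟨x, hx, q⟩ := a1 (s w' hv).1
      obtain rfl := m_inj hz (k.inj (km pc hz x).pd (km pc hz v).pd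
        ((k.k _ _ (km pc hz x)).uniq_sw kv (W.wr.lb x hx) s q hv))
      by_contra na
      have := W.wr.te u W.uA x hx na w w' hu hv
      tauto
    · exact (W.ne_m k pc hz v ((k.k _ _ W.kn).uniq_sw kv W.wr.ln s (a2 (s w' hv).1) hv)).elim
  by_cases h1 : In (φ c) (φ (flp c {u} z)) (φ c w')
  · by_cases h2 : In (φ c) (φ (flp c {u} z)) (φ (flp c {v} z) w')
    · have s : Sw (φ c) (φ (flp c {v} z)) (φ c w) (φ (flp c {u} z) w) := fun x hx => by
        have := sv x hx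
        have := (iu _).1 h1
        have := (iu _).1 h2
        grind
      refine (uv (m_inj hz (k.inj (km pc hz u).pd (km pc hz v).pd
        (ku.uniq_sw kv su s ?_ hv)))).elim
      exact a.elim (fun q => q ▸ hu) fun q => closure ku.pc ku.pd su hu q (s w' hv).1
    · obtain ⟨e, n, A, B, o, t, W⟩ := S u _ h2
      exact main W _ (sw_iff.1 (W.wr.la u W.uA) _ h1) sv
  · obtain ⟨e, n, A, B, o, t, W⟩ := S u _ h1
    by_cases h2 : In (φ c) (φ (flp c {u} z)) (φ (flp c {v} z) w')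
    · exact main W _ (sw_iff.1 (W.wr.la u W.uA) _ h2) sv.swap
    · exfalso
      have hn := (W.uclos k pc hz hu a).2 (Or.inr rfl)
      have i2 := (W.wr.la u W.uA).in_iff ku.ne
      have := i2 o
      have := i2 t
      have := W.wr.ln.or w'
      have := W.wr.th
      rcases W.excl k pc hz S hv hn (by rw [iv]; grind) with r | r
      · have := W.wr.la v r w' hv
        grind
      · have := W.wr.lb v r w' hv
        grind

theorem half (k : KIso G G' φ ψ) (pc : Proper G c) (hz : ∀ v, c v ≠ z) (S : SW φ G G' c z) :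
    ∃ ρ : V → V', Function.Injective ρ ∧ ∀ u v, G'.Adj (ρ u) (ρ v) → G.Adj u v := by
  have ex : ∀ u, ∃ w, φ c w ≠ φ (flp c {u} z) w ∧
      ((∀ v, v ≠ u → φ c w = φ (flp c {v} z) w) ∨ ∀ x, x ≠ w → φ c x = φ (flp c {u} z) x) := by
    intro u
    have ku := k.k _ _ (km pc hz u)
    by_cases q : ∃ w, φ c w ≠ φ (flp c {u} z) w ∧ ∀ v, v ≠ u → φ c w = φ (flp c {v} z) w
    · obtain ⟨w, h1, h2⟩ := q
      exact ⟨w, h1, Or.inl h2⟩
    · push Not at q
      obtain ⟨w, hw⟩ := ku.ne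
      obtain ⟨v, vu, hv⟩ := q w hw
      have kv := k.k _ _ (km pc hz v)
      obtain ⟨e, n, A, B, o, t, W⟩ := S u (φ (flp c {v} z) w) fun y => by
        have := sw_iff.1 (ku.swat hw) _ y
        exact vu (m_inj hz (k.inj (km pc hz v).pd (km pc hz u).pd (kv.uniq ku hv (by grind))))
      refine ⟨w, hw, Or.inr (ku.mono (a := o) (fun x hx => ?_) hw)⟩
      obtain ⟨v', vu', hv'⟩ := q x hx
      exact W.shared k pc hz S vu'.symm hx hv'
  choose ρ h1 h2 using ex
  refine ⟨ρ, fun u v e => ?_, fun u v h => F1 k pc hz S (fun e => h.ne (e ▸ rfl)) (h1 u) (h1 v)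
    (Or.inr h)⟩
  by_contra n
  have a := F1 k pc hz S n (h1 u) (h1 v) (Or.inl e)
  have b1 := (h2 u).resolve_left fun y => h1 v (e ▸ y v (Ne.symm n))
  have b2 := (h2 v).resolve_left fun y => h1 u (e ▸ y u n)
  have pu := (km pc hz u).pd
  have pv := (km pc hz v).pd
  have := pc u v a
  rcases eq_or_KA (k.p _ pu) (k.p _ pv) b1 (e ▸ b2) with y | y
  · exact n (m_inj hz (k.inj pu pv y))
  · exact k.nka pu pv (nka3 u v (by grind) (by grind) (by grind)) y

variable [Finite V] [Finite V'] [Finite κ] [Finite κ']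

theorem exW (k : KIso G G' φ ψ) (pc : Proper G c) (hz : ∀ v, c v ≠ z) (u : V) (e : κ)
    (h1 : e ≠ c u) (h2 : e ≠ z) : ∃ n A B o t h, WD φ G G' c z u e n A B o t h := by
  let A : Set V := {v | v ∈ comp G c (c u) e u ∧ c v = c u}
  let B : Set V := {v | v ∈ comp G c (c u) e u ∧ c v = e}
  have mA : ∀ v, v ∈ A ↔ v ∈ comp G c (c u) e u ∧ c v = c u := fun _ => Iff.rfl
  have mB : ∀ v, v ∈ B ↔ v ∈ comp G c (c u) e u ∧ c v = e := fun _ => Iff.rfl
  have w : World G c A B (c u) e z := by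
    refine ⟨h1.symm, hz u, h2, by grind, fun x y hx hy h => pc x y h (by grind),
      fun x y hx hy h => pc x y h (by grind), ?_, fun x y h _ _ _ _ => pc x y h,
      fun x y h a1 a2 a3 => ?_⟩
    · have : A ∪ B = comp G c (c u) e u := by
        ext v
        have := comp_col (G := G) (c := c) (a := c u) (b := e) (v := u) (w := v) (Or.inl rfl)
        grind
      rw [this]; exact comp_conn _ _ _ _
    · have := comp_cl (G := G) (c := c) (a := c u) (b := e) (v := u) (w := x) (y := y) (Or.inl rfl)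
        (by grind) h
      have := hz y
      grind
  have uA : u ∈ A := ⟨comp_self _ _ _ _, rfl⟩
  have e0 : R c A B (c u) e = c := by funext v; grind
  obtain ⟨o, t, h, W⟩ := w.wr k uA
  have kn := w.nu (Or.inl uA)
  rw [e0] at W kn
  exact ⟨_, A, B, o, t, h, W, uA, fun v hv => hv.2, kn, by grind, by grind, by grind⟩

theorem colmap (k : KIso G G' φ ψ) (pc : Proper G c) (hz : ∀ v, c v ≠ z) (u : V) :
    ∃ f : κ → κ', Function.Injective f ∧ ∀ e, ¬ In (φ c) (φ (flp c {u} z)) (f e) →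
      ∃ n A B o t, WD φ G G' c z u e n A B o t (f e) := by
  classical
  choose n A B o t h W using exW k pc hz u
  have ku := k.k _ _ (km pc hz u)
  obtain ⟨w, hw⟩ := ku.ne
  let f : κ → κ' := fun e =>
    if h1 : e = c u then φ c w else if h2 : e = z then φ (flp c {u} z) w else h e h1 h2
  have f1 : f (c u) = φ c w := by simp [f]
  have f2 : f z = φ (flp c {u} z) w := by simp [f, (hz u).symm]
  have f3 : ∀ e h1 h2, f e = h e h1 h2 := fun e h1 h2 => by simp [f, h1, h2]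
  have f4 : ∀ e h1 h2, h e h1 h2 ≠ φ c w ∧ h e h1 h2 ≠ φ (flp c {u} z) w := fun e h1 h2 => by
    have := (W e h1 h2).wr.la u (W e h1 h2).uA w hw
    have := (W e h1 h2).wr.oh
    have := (W e h1 h2).wr.th
    grind
  refine ⟨f, fun x y e => ?_, fun e he => ?_⟩
  · by_cases a1 : x = c u ∨ x = z <;> by_cases a2 : y = c u ∨ y = z
    · grind
    · push Not at a2
      have := f3 y a2.1 a2.2
      have := f4 y a2.1 a2.2
      grind
    · push Not at a1
      have := f3 x a1.1 a1.2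
      have := f4 x a1.1 a1.2
      grind
    · push Not at a1 a2
      rw [f3 x a1.1 a1.2, f3 y a2.1 a2.2] at e
      exact (W x a1.1 a1.2).hinj k pc hz (e ▸ W y a2.1 a2.2)
  · have h1 : e ≠ c u := by rintro rfl; exact he ⟨w, hw, Or.inl f1.symm⟩
    have h2 : e ≠ z := by rintro rfl; exact he ⟨w, hw, Or.inr f2.symm⟩
    exact ⟨_, _, _, _, _, f3 e h1 h2 ▸ W e h1 h2⟩

theorem half' (k : KIso G G' φ ψ) (pc : Proper G c) (hz : ∀ v, c v ≠ z) {c' : V' → κ'} {z' : κ'}
    (pc' : Proper G' c') (hz' : ∀ v, c' v ≠ z') :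
    ∃ ρ : V → V', Function.Injective ρ ∧ ∀ u v, G'.Adj (ρ u) (ρ v) → G.Adj u v := by
  refine half k pc hz fun u y hy => ?_
  obtain ⟨w, -⟩ := (k.k _ _ (km pc hz u)).ne
  obtain ⟨f', i', -⟩ := colmap k.symm pc' hz' w
  obtain ⟨f, i, hf⟩ := colmap k pc hz u
  obtain ⟨e, rfl⟩ := (i.bijective_of_nat_card_le (Nat.card_le_card_of_injective f' i')).2 y
  exact ⟨e, hf e hy⟩

theorem kempe_iso (k : KIso G G' φ ψ) (pc : Proper G c) (hz : ∀ v, c v ≠ z) {c' : V' → κ'}
    {z' : κ'} (pc' : Proper G' c') (hz' : ∀ v, c' v ≠ z') : Nonempty (G ≃g G') := by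
  classical
  obtain ⟨ρ, i, h⟩ := half' k pc hz pc' hz'
  obtain ⟨ρ', i', h'⟩ := half' k.symm pc' hz' pc hz
  have b := i.bijective_of_nat_card_le (Nat.card_le_card_of_injective ρ' i')
  let σ : Equiv.Perm V := Equiv.ofBijective (ρ' ∘ ρ) (Finite.injective_iff_bijective.1 (i'.comp i))
  have it : ∀ m : ℕ, ∀ u v, G.Adj ((σ ^ m) u) ((σ ^ m) v) → G.Adj u v := by
    intro m
    induction m with
    | zero => intro u v q; simpa using q
    | succ m ih =>
      intro u v q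
      rw [pow_succ'] at q
      exact ih u v (h _ _ (h' _ _ q))
  refine ⟨⟨Equiv.ofBijective ρ b, fun {u v} => ⟨h u v, fun q => h' _ _ ?_⟩⟩⟩
  have := Fintype.ofFinite V
  have e : σ ^ (orderOf σ - 1) * σ = 1 := by
    rw [← pow_succ, Nat.sub_add_cancel (orderOf_pos σ), pow_orderOf_eq_one]
  refine it (orderOf σ - 1) (σ u) (σ v) ?_
  rw [← Equiv.Perm.mul_apply, ← Equiv.Perm.mul_apply, e]
  exact q

end Pool.Agent.Kempe5e
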