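import Pool.Agent.Lib.MP_5e5661.Mono

/-! Labels of the moves in the image of a world. -/

namespace Pool.Agent.Kempe5e

variable {V κ V' κ' : Type*} {G : SimpleGraph V} {G' : SimpleGraph V'}
  {φ : (V → κ) → (V' → κ')} {ψ : (V' → κ') → (V → κ)}
  {c0 : V → κ} {A B : Set V} {a b z : κ} {τ : Set κ'}

theorem Sw.same {c d : V' → κ'} {p q x y : κ'} (s : Sw c d p q) (s' : Sw c d x y)
    (k : KA G' c d) : (p = x ∧ q = y) ∨ (p = y ∧ q = x) := by
  obtain ⟨v, hv⟩ := k.ne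
  have := s.or v
  have := s'.or v
  grind

/-- all recolourings of vertices of `A` have the image label `p q` -/
def Lab (φ : (V → κ) → (V' → κ')) (c : V → κ) (A : Set V) (z : κ) (p q : κ') : Prop :=
  ∀ x ∈ A, Sw (φ c) (φ (flp c {x} z)) p q

theorem Lab.swap {c : V → κ} {p q : κ'} (h : Lab φ c A z p q) : Lab φ c A z q p :=
  fun x hx => (h x hx).swap

theorem World.dis (k : KIso G G' φ ψ) (w : World G c0 A B a b z) {x y : V}
    (hx : x ∈ A ∨ x ∈ B) (hy : y ∈ A ∨ y ∈ B) {p q : κ'}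
    (s1 : Sw (φ (R c0 A B a b)) (φ (flp (R c0 A B a b) {x} z)) p q)
    (s2 : Sw (φ (R c0 A B a b)) (φ (flp (R c0 A B a b) {y} z)) p q) {v : V'}
    (h1 : φ (R c0 A B a b) v ≠ φ (flp (R c0 A B a b) {x} z) v)
    (h2 : φ (R c0 A B a b) v ≠ φ (flp (R c0 A B a b) {y} z) v) : x = y := by
  have := w.az; have := w.bz
  have e := k.inj (w.p1 hx) (w.p1 hy)
    ((k.k _ _ (w.k1 hx)).uniq_sw (k.k _ _ (w.k1 hy)) s1 s2 h1 h2)
  have := congrFun e x
  grind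

theorem World.sqI (w : World G c0 A B a b z) {x s : V} (hx : x ∈ A ∨ x ∈ B)
    (hs : s ∈ A ∨ s ∈ B) (n : x ≠ s) (na : ¬ G.Adj x s) :
    ISq G (R c0 A B a b) (flp (R c0 A B a b) {x} z) (flp (R c0 A B a b) {s} z)
      (flp (R c0 A B a b) {x, s} z) ∧
    Only G (flp (R c0 A B a b) {x} z) (flp (R c0 A B a b) {s} z) (R c0 A B a b)
      (flp (R c0 A B a b) {x, s} z) := by
  classical
  have ij : (⟨x, by simp⟩ : ({x, s} : Set V)) ≠ ⟨s, by simp⟩ := fun e => n (congrArg Subtype.val e)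
  have hC := w.cube (I := {x, s}) (by grind) (fun u hu v hv h => by
    have := h.ne
    have := h.symm
    grind)
  have q1 := hC.isq ∅ ij
  have q2 := hC.only ∅ _ _ ij
  simp only [im_empty, flp_empty, im_one, im_two ij] at q1 q2
  exact ⟨q1, q2⟩

theorem World.leaf_nbr (w : World G c0 A B a b z) (n : NLW G A B) {s : V} (hs : s ∈ B)
    (lf : ¬ NL G A s) : ∃ x ∈ A, G.Adj x s ∧ NL G B x := by
  obtain ⟨y, hy, hy'⟩ : ∃ y, y ∈ A ∪ B ∧ ((y ∈ A ∧ NL G B y) ∨ (y ∈ B ∧ NL G A y)) := by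
    rcases n with ⟨y, h1, h2⟩ | ⟨y, h1, h2⟩
    exacts [⟨y, Or.inl h1, Or.inl ⟨h1, h2⟩⟩, ⟨y, Or.inr h1, Or.inr ⟨h1, h2⟩⟩]
  have := w.disj
  obtain ⟨u, -, x, hx, hadj, pu, -⟩ := w.conn.cross (P := {s}) (Or.inr hs) hy rfl (by grind)
  obtain rfl : u = s := pu
  have xA : x ∈ A := hx.elim id fun z => (w.indB u x hs z hadj).elim
  refine ⟨x, xA, hadj.symm, ?_⟩
  by_contra lf'
  have := w.conn.sub (P := {v | v = u ∨ v = x}) (Or.inr hs) (Or.inl rfl) (fun p hp q hq h pp => by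
    rcases pp with rfl | rfl
    · exact Or.inr (leaf_eq xA hadj.symm lf q (hq.elim id fun z => (w.indB p q hs z h).elim) h.symm)
    · exact Or.inl (leaf_eq hs hadj lf' q (hq.elim (fun z => (w.indA p q xA z h).elim) id) h.symm))
    y hy
  grind

theorem World.nu (w : World G c0 A B a b z) {u : V} (hu : u ∈ A ∨ u ∈ B) :
    KA G (R c0 A B a b) (R c0 A B b a) := by
  have := w.ab; have := w.disj
  refine ⟨w.pR, (w.perm w.ab.symm w.bz w.az (by simp) (by simp) (by simp)).pR, ⟨u, by grind⟩,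
    ⟨a, b, Sw.of_or (by grind)⟩, ?_⟩
  have : {v | R c0 A B a b v ≠ R c0 A B b a v} = A ∪ B := by ext v; grind
  rw [this]; exact w.conn

variable [Finite V]

theorem World.mvA (k : KIso G G' φ ψ) (w : World G c0 A B a b z) (v : V') :
    φ (R c0 A B a b) v ≠ φ (R c0 A B z b) v ↔
      ∃ x ∈ A, φ (R c0 A B a b) v ≠ φ (flp (R c0 A B a b) {x} z) v := by
  classical
  have := Fintype.ofFinite A
  obtain ⟨C, hC, -, e0, e1, ej, -⟩ := w.pcube k (I := A) (fun _ h => Or.inl h) fun u hu v hv =>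
    w.indA u v hu hv
  rw [show flp (R c0 A B a b) A z = R c0 A B z b by funext v; grind] at e1
  rw [← e1]
  constructor
  · intro h
    obtain ⟨r, -, hr⟩ := hC.first' (S := ∅) (S' := Finset.univ) (v := v) (by rwa [e0])
    rw [mem_HS, e0, ej] at hr
    exact ⟨r.1, r.2, hr⟩
  · rintro ⟨x, hx, h⟩
    rw [← e0]
    exact hC.lemS (t := ⟨x, hx⟩) (by simp) (by rwa [mem_HS, e0, ej])

theorem World.mvB (k : KIso G G' φ ψ) (w : World G c0 A B a b z) (v : V') :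
    φ (R c0 A B a b) v ≠ φ (R c0 A B a z) v ↔
      ∃ x ∈ B, φ (R c0 A B a b) v ≠ φ (flp (R c0 A B a b) {x} z) v := by
  have := w.swap.mvA k v
  rwa [w.R_swap, w.R_swap] at this

theorem World.revA (k : KIso G G' φ ψ) (w : World G c0 A B a b z) {p q : κ'}
    (h : Lab φ (R c0 A B a b) A z p q) :
    Sw (φ (R c0 A B a b)) (φ (R c0 A B z b)) p q ∧ Lab φ (R c0 A B z b) A a p q := by
  have key : ∀ T ⊆ A, Sw (φ (R c0 A B a b)) (φ (flp (R c0 A B a b) T z)) p q := fun T hT v hv => by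
    have := w.K5e k (τ := {p, q}) (fun _ h => Or.inl (hT h))
      (fun u hu v hv => w.indA u v (hT hu) (hT hv))
      (fun t ht => (h t (hT ht)).eqv (by simp) (by simp)) v hv
    simpa using this
  have e := key A subset_rfl
  rw [show flp (R c0 A B a b) A z = R c0 A B z b by funext v; grind] at e
  refine ⟨e, fun x hx => e.symm.trans ?_⟩
  rw [show flp (R c0 A B z b) {x} a = flp (R c0 A B a b) (A \ {x}) z by funext v; grind]
  exact key _ Set.sdiff_subset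

theorem World.revB (k : KIso G G' φ ψ) (w : World G c0 A B a b z) {p q : κ'}
    (h : Lab φ (R c0 A B a b) B z p q) :
    Sw (φ (R c0 A B a b)) (φ (R c0 A B a z)) p q ∧ Lab φ (R c0 A B a z) B b p q := by
  have := w.swap.revA k (p := p) (q := q) (by rwa [w.R_swap])
  rwa [w.R_swap, w.R_swap] at this

variable [Finite V'] [Finite κ] [Finite κ']

theorem World.sib (k : KIso G G' φ ψ) (w : World G c0 A B a b z) (n : NLW G A B)
    (g : G3 φ G c0 A B a b z τ) {y s s' : V} (hy : y ∈ A) (hs : s ∈ Nb G B y)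
    (hs' : s' ∈ Nb G B y) {p q : κ'}
    (h : Sw (φ (R c0 A B a b)) (φ (flp (R c0 A B a b) {s} z)) p q) :
    Sw (φ (R c0 A B a b)) (φ (flp (R c0 A B a b) {s'} z)) p q := by
  by_cases e : s = s'
  · exact e ▸ h
  obtain ⟨p', q', r', -, -, -, -, -, -, h4⟩ := w.star k hy ⟨s, s', e, hs, hs'⟩
  obtain ⟨-, h5, -⟩ := h4 fun u hu u' hu' => w.noTw k n g u hu.1 u' hu'.1
  rcases h.same (h5 s hs) (k.k _ _ (w.k1 (Or.inr hs.1))) with ⟨rfl, rfl⟩ | ⟨rfl, rfl⟩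
  exacts [h5 s' hs', (h5 s' hs').swap]

theorem World.starL (k : KIso G G' φ ψ) (w : World G c0 A B a b z) (n : NLW G A B)
    (g : G3 φ G c0 A B a b z τ) {x : V} (hx : x ∈ A) (nl : NL G B x) :
    ∃ p q r, p ≠ q ∧ p ≠ r ∧ q ≠ r ∧ Lab φ (R c0 A B a b) A z p q ∧
      Lab φ (R c0 A B a b) B z p r ∧
      Sw (φ (flp (R c0 A B a b) {x} z)) (φ (st3 G (R c0 A B a b) B x b z)) p r ∧
      Sw (φ (st3 G (R c0 A B a b) B x b z)) (φ (flp (R c0 A B a b) (Nb G B x) z)) q r ∧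
      (∀ v, φ (R c0 A B a b) v = p → φ (flp (R c0 A B a b) {x} z) v = q →
        ∃ s ∈ Nb G B x, φ (R c0 A B a b) v ≠ φ (flp (R c0 A B a b) {s} z) v) ∧
      (∀ v u, φ (R c0 A B a b) v = q → φ (flp (R c0 A B a b) {x} z) v = p → G'.Adj v u →
        φ (R c0 A B a b) u = r →
        ∃ s ∈ Nb G B x, φ (R c0 A B a b) u ≠ φ (flp (R c0 A B a b) {s} z) u) ∧
      (∀ s ∈ Nb G B x, ∀ u, φ (R c0 A B a b) u ≠ φ (flp (R c0 A B a b) {s} z) u →
        φ (R c0 A B a b) u = φ (flp (R c0 A B a b) {x} z) u →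
        φ (flp (R c0 A B a b) {x} z) u ≠ φ (st3 G (R c0 A B a b) B x b z) u) := by
  obtain ⟨p, q, r, pq, pr, qr, h1, h2, -, h4⟩ := w.star k hx nl
  obtain ⟨h3, h5, h6⟩ := h4 fun u hu u' hu' => w.noTw k n g u hu.1 u' hu'.1
  let lab : V → Prop := fun v =>
    (v ∈ A → Sw (φ (R c0 A B a b)) (φ (flp (R c0 A B a b) {v} z)) p q) ∧
    (v ∈ B → Sw (φ (R c0 A B a b)) (φ (flp (R c0 A B a b) {v} z)) p r)
  have Q : ∀ v ∈ A ∪ B, lab v ∧ ∀ u, G.Adj v u → lab u := by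
    refine w.conn.sub (P := {v | lab v ∧ ∀ u, G.Adj v u → lab u}) (Or.inl hx)
      ⟨⟨fun _ => h1, fun y => (w.disj x hx y).elim⟩, fun u hu =>
        ⟨fun y => (w.indA x u hx y hu).elim, fun y => h5 u ⟨y, hu⟩⟩⟩
      fun v hv y hy hadj pv => ⟨pv.2 y hadj, fun u hu => ⟨fun uA => ?_, fun uB => ?_⟩⟩
    · have yB : y ∈ B := hy.elim (fun t => (w.indA y u t uA hu).elim) id
      have vA : v ∈ A := hv.elim id (fun t => (w.indB v y t yB hadj).elim)
      have := w.swap.sib k n.symm (g.swap w) yB ⟨vA, hadj.symm⟩ ⟨uA, hu⟩ (p := p) (q := q)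
        (by rw [w.R_swap]; exact pv.1.1 vA)
      rwa [w.R_swap] at this
    · have yA : y ∈ A := hy.elim id (fun t => (w.indB y u t uB hu).elim)
      have vB : v ∈ B := hv.elim (fun t => (w.indA v y t yA hadj).elim) id
      exact w.sib k n g yA ⟨vB, hadj.symm⟩ ⟨uB, hu⟩ (pv.1.2 vB)
  exact ⟨p, q, r, pq, pr, qr, fun v hv => (Q v (Or.inl hv)).1.1 hv,
    fun v hv => (Q v (Or.inr hv)).1.2 hv, h2, h3, h6⟩

theorem World.te_nl (k : KIso G G' φ ψ) (w : World G c0 A B a b z) (n : NLW G A B)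
    (g : G3 φ G c0 A B a b z τ) {x t : V} (hx : x ∈ A) (nl : NL G B x) (ht : t ∈ B)
    (na : ¬ G.Adj x t) (v u : V')
    (hv : φ (R c0 A B a b) v ≠ φ (flp (R c0 A B a b) {x} z) v)
    (hu : φ (R c0 A B a b) u ≠ φ (flp (R c0 A B a b) {t} z) u) : v ≠ u ∧ ¬ G'.Adj v u := by
  obtain ⟨p, q, r, pq, pr, qr, la, lb, -, -, s1, s2, -⟩ := w.starL k n g hx nl
  have kx := k.k _ _ (w.k1 (Or.inl hx))
  have kt := k.k _ _ (w.k1 (Or.inr ht))
  have D : ∀ y, φ (R c0 A B a b) y ≠ φ (flp (R c0 A B a b) {t} z) y →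
      ¬ ∃ s ∈ Nb G B x, φ (R c0 A B a b) y ≠ φ (flp (R c0 A B a b) {s} z) y := by
    rintro y hy ⟨s, hs, h⟩
    exact na (w.dis k (Or.inr hs.1) (Or.inr ht) (lb s hs.1) (lb t ht) h hy ▸ hs.2)
  have D2 : ∀ y, φ (R c0 A B a b) y ≠ φ (flp (R c0 A B a b) {x} z) y →
      φ (R c0 A B a b) y = φ (flp (R c0 A B a b) {t} z) y := by
    intro y h1
    by_contra h2
    have := (la x hx).or y
    have := (lb t ht).or y
    exact D y h2 (s1 y (by grind) (by grind))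
  refine ⟨fun e => hu (D2 u (e ▸ hv)), fun hadj => ?_⟩
  have := (la x hx).or v
  have := (lb t ht).or u
  have := closure kx.pc kx.pd (la x hx) hv hadj
  have := closure kt.pc kt.pd (lb t ht) hu hadj.symm
  have := D2 u
  have := D2 v hv
  exact D u hu (s2 v u (by grind) (by grind) hadj (by grind))

theorem World.tri3 (k : KIso G G' φ ψ) (w : World G c0 A B a b z) (n : NLW G A B)
    (g : G3 φ G c0 A B a b z τ) {x : V} (hx : x ∈ A) (nl : NL G B x) :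
    ∃ p q r, p ≠ q ∧ p ≠ r ∧ q ≠ r ∧ Lab φ (R c0 A B a b) A z p q ∧
      Lab φ (R c0 A B a b) B z p r ∧ Lab φ (R c0 A B a z) A b q r := by
  classical
  obtain ⟨p, q, r, pq, pr, qr, la, lb, -, se, -⟩ := w.starL k n g hx nl
  have g' := g.pB k w n
  obtain ⟨p', q', r', -, -, -, la', -⟩ := w.pB.starL k n g' hx nl
  refine ⟨p, q, r, pq, pr, qr, la, lb, ?_⟩
  have := w.ab; have := w.az; have := w.bz; have := w.disj
  obtain ⟨i1, i2⟩ := w.indI hx
  have := Fintype.ofFinite (insert x (B \ Nb G B x) : Set V)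
  obtain ⟨C, hC, -, e0, e1, ej, ej', nt⟩ := w.pB.pcube k i1 i2
  have nt' := nt fun s hs s' hs' ss p q r t => by
    obtain ⟨q1, q2⟩ := w.pB.sqI (i1 s hs) (i1 s' hs') ss (i2 s hs s' hs')
    obtain ⟨u, v, hadj, hu, hv⟩ := t.witness (k.isq q1) (k.only q1.h01.pd q1.h02.pd q2)
    rcases hs with rfl | hs
    · exact (w.pB.te_nl k n g' hx nl (by grind) (i2 _ (by simp) _ hs') u v hu hv).2 hadj
    · rcases hs' with rfl | hs'
      · exact (w.pB.te_nl k n g' hx nl hs.1 (i2 _ (by simp) _ (Or.inr hs)) v u hv hu).2 hadj.symm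
      · exact w.pB.noTw k n g' s hs.1 s' hs'.1 ss p q r t
  have e := hC.nt_ls nt' Finset.univ ∅ ⟨x, by simp⟩
  rw [hC.ls_of_sw (S := Finset.univ) (a := q) (b := r) (by
    rw [e1, ej', show flp (R c0 A B a z) (insert x (B \ Nb G B x)) b =
      st3 G (R c0 A B a b) B x b z by funext v; unfold st3; grind,
      show flp (R c0 A B a z) (insert x (B \ Nb G B x) \ {x}) b =
        flp (R c0 A B a b) (Nb G B x) z by funext v; grind]
    exact se)] at e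
  have s := sw_of_ls e.subset
  rw [e0, ej] at s
  rcases s.same (la' x hx) (k.k _ _ (w.pB.k1 (Or.inl hx))) with ⟨rfl, rfl⟩ | ⟨rfl, rfl⟩
  exacts [la', la'.swap]

/-- labels at one of the six colourings -/
def Lab2 (φ : (V → κ) → (V' → κ')) (c0 : V → κ) (A B : Set V) (a b z : κ) (p q r : κ') : Prop :=
  Lab φ (R c0 A B a b) A z p q ∧ Lab φ (R c0 A B a b) B z p r

structure Six (φ : (V → κ) → (V' → κ')) (c0 : V → κ) (A B : Set V) (a b z : κ) (p q r : κ') :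
    Prop where
  pq : p ≠ q
  pr : p ≠ r
  qr : q ≠ r
  abz : Lab2 φ c0 A B a b z p q r
  zba : Lab2 φ c0 A B z b a q p r
  azb : Lab2 φ c0 A B a z b r q p
  zab : Lab2 φ c0 A B z a b r p q
  bza : Lab2 φ c0 A B b z a q r p
  baz : Lab2 φ c0 A B b a z p r q

theorem World.six0 (k : KIso G G' φ ψ) (w : World G c0 A B a b z) (n : NLW G A B)
    (g : G3 φ G c0 A B a b z τ) {x : V} (hx : x ∈ A) (nl : NL G B x) :
    ∃ p q r, Six φ c0 A B a b z p q r := by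
  obtain ⟨s, -, -, hs, -⟩ := id nl
  have g1 := (g.pB k w n).pA k w.pB n
  have g2 := g.pA k w n
  obtain ⟨p, q, r, pq, pr, qr, a1, a2, a3⟩ := w.tri3 k n g hx nl
  obtain ⟨p1, q1, r1, pq1, pr1, qr1, b1, b2, b3⟩ := w.rot.tri3 k n g1 hx nl
  obtain ⟨p2, q2, r2, pq2, pr2, qr2, c1, c2, c3⟩ := w.pA.tri3 k n g2 hx nl
  have a4 := (w.revA k a1).2
  have a5 := (w.pB.revA k a3).2
  have a6 := (w.rot.pB.revA k b3).2
  have e1 := (b1 x hx).same (a5 x hx) (k.k _ _ (w.rot.k1 (Or.inl hx)))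
  have e2 := (c1 x hx).same (a4 x hx) (k.k _ _ (w.pA.k1 (Or.inl hx)))
  have e3 := (c3 x hx).same (a6 x hx) (k.k _ _ (w.pA.pB.k1 (Or.inl hx)))
  have m1 := (a1 x hx).mem (k.k _ _ (w.k1 (Or.inl hx))) (g.good x (Or.inl hx))
  have m2 := (a2 s hs.1).mem (k.k _ _ (w.k1 (Or.inr hs.1))) (g.good s (Or.inr hs.1))
  have m3 := (b2 s hs.1).mem (k.k _ _ (w.rot.k1 (Or.inr hs.1))) (g1.good s (Or.inr hs.1))
  have m4 := (c2 s hs.1).mem (k.k _ _ (w.pA.k1 (Or.inr hs.1))) (g2.good s (Or.inr hs.1))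
  rw [g.tri.eq pq pr qr m1.1 m1.2 m2.2] at m3 m4
  simp only [Set.mem_insert_iff, Set.mem_singleton_iff] at m3 m4
  obtain ⟨rfl, rfl, rfl, rfl, rfl, rfl⟩ : p1 = q ∧ q1 = r ∧ r1 = p ∧ p2 = q ∧ q2 = p ∧ r2 = r := by
    grind
  exact ⟨_, _, _, pq, pr, qr, ⟨a1, a2⟩, ⟨c1, c2⟩, ⟨a3.swap, (w.revB k a2).2.swap⟩,
    ⟨c3.swap, (w.pA.revB k c2).2.swap⟩, ⟨b1, b2⟩, ⟨b3.swap, (w.rot.revB k b2).2.swap⟩⟩

omit [Finite V] [Finite V'] [Finite κ] [Finite κ'] in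
theorem Six.swap (w : World G c0 A B a b z) {p q r : κ'} (h : Six φ c0 A B a b z p q r) :
    Six φ c0 B A b a z p r q := by
  have t : ∀ {x y u : κ} {p q r : κ'}, Lab2 φ c0 A B x y u p q r → Lab2 φ c0 B A y x u p r q := by
    intro x y u p q r h
    unfold Lab2
    rw [w.R_swap]
    exact ⟨h.2, h.1⟩
  exact ⟨h.pr, h.pq, h.qr.symm, t h.abz, t h.azb, t h.zba, t h.bza, t h.zab, t h.baz⟩

omit [Finite V] [Finite V'] [Finite κ] [Finite κ'] in
theorem Six.pA {p q r : κ'} (h : Six φ c0 A B a b z p q r) : Six φ c0 A B z b a q p r :=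
  ⟨h.pq.symm, h.qr, h.pr, h.zba, h.abz, h.zab, h.azb, h.baz, h.bza⟩

omit [Finite V] [Finite V'] [Finite κ] [Finite κ'] in
theorem Six.pB {p q r : κ'} (h : Six φ c0 A B a b z p q r) : Six φ c0 A B a z b r q p :=
  ⟨h.qr.symm, h.pr.symm, h.pq.symm, h.azb, h.bza, h.abz, h.baz, h.zba, h.zab⟩

theorem World.six (k : KIso G G' φ ψ) (w : World G c0 A B a b z) (n : NLW G A B)
    (g : G3 φ G c0 A B a b z τ) : ∃ p q r, Six φ c0 A B a b z p q r := by
  rcases id n with ⟨x, hx, nl⟩ | ⟨x, hx, nl⟩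
  · exact w.six0 k n g hx nl
  · obtain ⟨p, q, r, h⟩ := w.swap.six0 k n.symm (g.swap w) hx nl
    exact ⟨p, r, q, h.swap w.swap⟩

omit [Finite V'] [Finite κ] [Finite κ'] in
theorem Six.sides (k : KIso G G' φ ψ) (w : World G c0 A B a b z) {p q r : κ'}
    (h : Six φ c0 A B a b z p q r) :
    Sw (φ (R c0 A B a b)) (φ (R c0 A B z b)) p q ∧ Sw (φ (R c0 A B z b)) (φ (R c0 A B z a)) q r ∧
    Sw (φ (R c0 A B z a)) (φ (R c0 A B b a)) p r ∧ Sw (φ (R c0 A B b a)) (φ (R c0 A B b z)) p q ∧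
    Sw (φ (R c0 A B b z)) (φ (R c0 A B a z)) q r ∧ Sw (φ (R c0 A B a z)) (φ (R c0 A B a b)) p r :=
  ⟨(w.revA k h.abz.1).1, (w.pA.revB k h.zba.2).1, (w.pA.pB.revA k h.zab.1).1.swap,
    (w.rot.pB.revB k h.baz.2).1, (w.rot.revA k h.bza.1).1, (w.pB.revB k h.azb.2).1.swap⟩

omit [Finite V'] [Finite κ] [Finite κ'] in
theorem Six.chord0 (k : KIso G G' φ ψ) (w : World G c0 A B a b z) {p q r : κ'}
    (h : Six φ c0 A B a b z p q r) {u : V} (hu : u ∈ A ∨ u ∈ B) :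
    ¬ Sw (φ (R c0 A B a b)) (φ (R c0 A B b a)) p q := by
  obtain ⟨s1, s2, s3, s4, s5, s6⟩ := h.sides k w
  have := w.ab; have := w.az; have := w.bz; have := w.disj
  refine hex_chord h.pq h.pr h.qr s1 s2 s3 s4 s5 s6 (k.k _ _ (w.nu hu)) (fun v hv => ?_)
    (fun v hv => ?_)
  · obtain ⟨x, hx, e⟩ := (w.mvA k v).1 hv
    exact ⟨_, k.k _ _ (w.k1 (Or.inl hx)), h.abz.1 x hx, e,
      k.ne (w.p1 (Or.inl hx)) (w.nu hu).pd (ne_of_at x (by grind))⟩
  · obtain ⟨x, hx, e⟩ := (w.rot.pB.mvB k v).1 hv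
    exact ⟨_, k.k _ _ (w.rot.pB.k1 (Or.inr hx)), h.baz.2 x hx, e,
      k.ne (w.rot.pB.p1 (Or.inr hx)) w.pR (ne_of_at x (by grind))⟩

omit [Finite V'] [Finite κ] [Finite κ'] in
theorem Six.chord (k : KIso G G' φ ψ) (w : World G c0 A B a b z) {p q r : κ'}
    (h : Six φ c0 A B a b z p q r) {u : V} (hu : u ∈ A ∨ u ∈ B) :
    Sw (φ (R c0 A B a b)) (φ (R c0 A B b a)) q r := by
  have a1 := h.chord0 k w hu
  have a2 := (h.swap w).chord0 k w.swap hu.symm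
  rw [w.R_swap, w.R_swap] at a2
  obtain ⟨s1, s2, s3, -⟩ := h.sides k w
  have kn := k.k _ _ (w.nu hu)
  obtain ⟨v, hv⟩ := kn.ne
  have s := kn.swat hv
  have := s1.or v
  have := s2.or v
  have := s3.or v
  have := h.pq; have := h.pr; have := h.qr
  have := s.swap
  grind

end Pool.Agent.Kempe5e
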