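import Pool.Agent.Lib.MP_5e5661.Tau2

/-! A monodromy argument on one edge of the image excludes twisted squares inside a class. -/

namespace Pool.Agent.Kempe5e

variable {V κ V' κ' : Type*} {G : SimpleGraph V} {G' : SimpleGraph V'}
  {φ : (V → κ) → (V' → κ')} {ψ : (V' → κ') → (V → κ)}
  {c0 : V → κ} {A B : Set V} {a b z : κ} {τ : Set κ'}

/-- the side of K33 -/
def Par (x : Fin 3 × Bool) : Prop := x.2 = true

/-- a locally injective projection to K33 -/
structure PiS (G' : SimpleGraph V') (τ : Set κ') (d0 : V' → κ')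
    (π : (V' → κ') → Fin 3 × Bool) : Prop where
  mv : ∀ d d', Eqv τ d0 d → Eqv τ d0 d' → KA G' d d' → π d = π d' ∨ ¬ (Par (π d) ↔ Par (π d'))
  li : ∀ d d1 d2, Eqv τ d0 d → Eqv τ d0 d1 → Eqv τ d0 d2 → KA G' d d1 → KA G' d d2 →
    π d ≠ π d1 → π d1 = π d2 → d1 = d2

theorem pig (x y t u : Fin 3 × Bool) (h1 : Par x ↔ Par y) (h2 : Par x ↔ Par t)
    (h3 : Par x ↔ Par u) :
    x = y ∨ x = t ∨ x = u ∨ y = t ∨ y = u ∨ t = u := by
  obtain ⟨x1, x2⟩ := x
  obtain ⟨y1, y2⟩ := y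
  obtain ⟨t1, t2⟩ := t
  obtain ⟨u1, u2⟩ := u
  simp only [Prod.mk.injEq, Par, Bool.coe_iff_coe] at *
  subst h1 h2 h3
  simp only [and_true]
  omega

theorem exPiS (t : Tri τ) {d0 : V' → κ'} {u w : V'} (hadj : G'.Adj u w) (hu : d0 u ∈ τ)
    (hw : d0 w ∈ τ) : ∃ π, PiS G' τ d0 π ∧ ∀ d d', Eqv τ d0 d → Eqv τ d0 d' → Proper G' d →
      Proper G' d' → π d = π d' → d u = d' u ∧ d w = d' w := by
  classical
  obtain ⟨p, q, r, pq, pr, qr, rfl⟩ := t
  let π : (V' → κ') → Fin 3 × Bool := fun d =>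
    (if d u = p then 0 else if d u = q then 1 else 2,
      decide ((d u = p ∧ d w = q) ∨ (d u = q ∧ d w = r) ∨ (d u = r ∧ d w = p)))
  have mem : ∀ d, Eqv {p, q, r} d0 d → (d u = p ∨ d u = q ∨ d u = r) ∧
      (d w = p ∨ d w = q ∨ d w = r) := by
    intro d e
    have := e u
    have := e w
    simp only [Set.mem_insert_iff, Set.mem_singleton_iff] at *
    grind
  have inj : ∀ d d', Eqv {p, q, r} d0 d → Eqv {p, q, r} d0 d' → Proper G' d →
      Proper G' d' → π d = π d' → d u = d' u ∧ d w = d' w := by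
    intro d d' e e' pd pd' h
    have := mem d e
    have := mem d' e'
    have := pd u w hadj
    have := pd' u w hadj
    simp only [π, Prod.mk.injEq, decide_eq_decide] at h
    grind
  refine ⟨π, ⟨fun d d' e e' k => ?_, fun d d1 d2 e e1 e2 k1 k2 n h => ?_⟩, inj⟩
  · have := mem d e
    have := mem d' e'
    have := k.pc u w hadj
    have := k.pd u w hadj
    obtain ⟨x, y, s⟩ := k.sw
    have := s.or u
    have := s.or w
    simp only [π, Prod.mk.injEq, decide_eq_decide, Par, decide_eq_true_eq]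
    grind
  · obtain ⟨h1, h2⟩ := inj d1 d2 e1 e2 k1.pd k2.pd h
    by_cases x : d u = d1 u
    · by_cases y : d w = d1 w
      · exact (n (by simp only [π, x, y])).elim
      · exact k1.uniq k2 y h2
    · exact k1.uniq k2 x h1

variable {d0 : V' → κ'} {π : (V' → κ') → Fin 3 × Bool}

theorem PiS.sq (P : PiS G' τ d0 π) {e0 e1 e2 e3 : V' → κ'} (q : ISq G' e0 e1 e2 e3)
    (p0 : Eqv τ d0 e0) (p1 : Eqv τ d0 e1) (p2 : Eqv τ d0 e2) (p3 : Eqv τ d0 e3)
    (h : π e0 = π e1) : π e2 = π e3 := by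
  have := P.mv _ _ p0 p2 q.h02
  have := P.mv _ _ p1 p3 q.h13
  have := P.mv _ _ p2 p3 q.h23
  have := P.li _ _ _ p3 p1 p2 q.h13.symm q.h23.symm
  have := P.li _ _ _ p2 p0 p3 q.h02.symm q.h23
  have := q.n12
  have := q.n03
  grind

section
variable {ι : Type*} [DecidableEq ι] {C : Finset ι → V' → κ'}

theorem PiS.dir (P : PiS G' τ d0 π) (h : Cube G' C) (p : ∀ S, Eqv τ d0 (C S)) (S U : Finset ι)
    (i : ι) : π (C S) = π (C (fl S i)) → π (C U) = π (C (fl U i)) := by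
  intro e
  refine all_ind S (P := fun U => π (C U) = π (C (fl U i))) e (fun W j ih => ?_) U
  by_cases n : i = j
  · subst n; rw [fl_fl, ih]
  · rw [fl_comm]
    exact P.sq (h.isq W n) (p _) (p _) (p _) (p _) ih

theorem PiS.stay (P : PiS G' τ d0 π) (h : Cube G' C) (p : ∀ S, Eqv τ d0 (C S)) {S U W : Finset ι}
    (e : ∀ i, ¬ (i ∈ U ↔ i ∈ S) → π (C W) = π (C (fl W i))) : π (C U) = π (C S) :=
  reg_ind (S := S) (D := {i | ¬ (i ∈ U ↔ i ∈ S)}) (P := fun U => π (C U) = π (C S)) rfl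
    (fun X i hi _ ih => (P.dir h p W X i (e i hi)).symm.trans ih) U
    (fun i hi => by simpa using hi)

theorem PiS.opp (P : PiS G' τ d0 π) (h : Cube G' C) (p : ∀ S, Eqv τ d0 (C S)) (S : Finset ι)
    {i j : ι} (n : i ≠ j) (hi : π (C S) ≠ π (C (fl S i))) : π (C (fl S i)) ≠ π (C (fl S j)) :=
  fun e => h.ne S i j n (P.li _ _ _ (p _) (p _) (p _) (h.adj S i) (h.adj S j) hi e)

theorem PiS.three (P : PiS G' τ d0 π) (h : Cube G' C) (p : ∀ S, Eqv τ d0 (C S)) {S : Finset ι}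
    {i j t : ι} (ij : i ≠ j) (it : i ≠ t) (jt : j ≠ t) (hi : π (C S) ≠ π (C (fl S i)))
    (hj : π (C S) ≠ π (C (fl S j))) : π (C S) = π (C (fl S t)) := by
  by_contra ht
  have mv : ∀ {x}, π (C S) ≠ π (C (fl S x)) → ∀ U, π (C U) ≠ π (C (fl U x)) :=
    fun hx U e => hx (P.dir h p U S _ e)
  have par : ∀ {x}, π (C S) ≠ π (C (fl S x)) → ∀ U,
      ¬ (Par (π (C U)) ↔ Par (π (C (fl U x)))) :=
    fun hx U => (P.mv _ _ (p _) (p _) (h.adj U _)).resolve_left (mv hx U)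
  have a1 := P.opp h p (fl S i) ij (mv hi _)
  have a2 := P.opp h p (fl S i) it (mv hi _)
  have a3 := P.opp h p (fl S j) jt (mv hj _)
  have a4 := P.opp h p (fl S i) jt (mv hj _)
  have a5 := P.opp h p (fl S j) it (mv hi _)
  have a6 := P.opp h p (fl S t) ij (mv hi _)
  rw [fl_fl] at a1 a2 a3
  rw [fl_comm S j i] at a5
  rw [fl_comm S t i, fl_comm S t j] at a6
  have := par hi S
  have := par hj S
  have := par hj (fl S i)
  have := par ht (fl S i)
  have := par ht (fl S j)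
  clear par mv
  have := pig (π (C S)) (π (C (fl (fl S i) j))) (π (C (fl (fl S i) t))) (π (C (fl (fl S j) t)))
    (by grind) (by grind) (by grind)
  grind

end

theorem PiS.flip [Finite V] [Finite κ] (P : PiS G' τ d0 π) (k : KIso G G' φ ψ)
    {O O' d1 d2 : V → κ} (pO' : Proper G O') (s : Sw O O' a b) (k1 : KA G O d1) (k2 : KA G O d2)
    (n : d1 ≠ d2) (s1 : ¬ Sw O d1 a b) (s2 : ¬ Sw O d2 a b) (p : Eqv τ d0 (φ O))
    (p' : Eqv τ d0 (φ O')) (p1 : Eqv τ d0 (φ d1)) (p2 : Eqv τ d0 (φ d2))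
    (m1 : π (φ O) ≠ π (φ d1)) (m2 : π (φ O) ≠ π (φ d2)) :
    π (φ O') = π (φ O) ∨
      (¬ (Par (π (φ O')) ↔ Par (π (φ O))) ∧ π (φ O') ≠ π (φ d1) ∧ π (φ O') ≠ π (φ d2)) := by
  classical
  have := Fintype.ofFinite (SwI G O O' a b)
  obtain ⟨Q, hQ, q0, q1, qi⟩ := cube_of_sw k1.pc pO' s
  have h := k.cube hQ
  have pa : ∀ S, Eqv τ d0 (φ (Q S)) := fun S => p.trans (by
    have := h.K4' (τ := τ) (S := ∅) (by
      rw [Finset.compl_empty, q0, q1]; exact p.symm.trans p') S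
    rwa [q0] at this)
  by_cases e : ∀ i, π (φ (Q ∅)) = π (φ (Q (fl ∅ i)))
  · left
    have := P.stay h pa (S := ∅) (U := Finset.univ) (W := ∅) fun i _ => e i
    rwa [q0, q1] at this
  · right
    push Not at e
    obtain ⟨i, hi⟩ := e
    have K1 := k.k _ _ k1
    have K2 := k.k _ _ k2
    have li : ∀ {d : V → κ}, KA G O d → ¬ Sw O d a b → Eqv τ d0 (φ d) → π (φ O) ≠ π (φ d) →
        ∀ j, π (φ d) ≠ π (φ (Q (fl ∅ j))) := by
      intro d kd sd pd md j e
      have ka := h.adj ∅ j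
      rw [q0] at ka
      have := P.li _ _ _ p pd (pa _) (k.k _ _ kd) ka md e
      exact sd (k.inj kd.pd (hQ.adj _ _).pd this ▸ qi j)
    have par : ∀ j, π (φ (Q ∅)) ≠ π (φ (Q (fl ∅ j))) →
        ¬ (Par (π (φ (Q ∅))) ↔ Par (π (φ (Q (fl ∅ j))))) := fun j hj =>
      (P.mv _ _ (pa _) (pa _) (h.adj ∅ j)).resolve_left hj
    have e12 : π (φ d1) ≠ π (φ d2) := fun e =>
      n (k.inj k1.pd k2.pd (P.li _ _ _ p p1 p2 K1 K2 m1 e))
    have a1 := (P.mv _ _ p p1 K1).resolve_left m1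
    have a2 := (P.mv _ _ p p2 K2).resolve_left m2
    have a3 := par i hi
    have b1 := li k1 s1 p1 m1
    have b2 := li k2 s2 p2 m2
    have : π (φ (Q Finset.univ)) = π (φ (Q (fl ∅ i))) := by
      refine P.stay h pa (W := ∅) fun j hj => ?_
      by_contra hj'
      have ij : i ≠ j := by rintro rfl; simp [mem_fl] at hj
      have := P.opp h pa ∅ ij hi
      have := par j hj'
      have := b1 i; have := b1 j; have := b2 i; have := b2 j
      have := pig (π (φ d1)) (π (φ d2)) (π (φ (Q (fl ∅ i)))) (π (φ (Q (fl ∅ j))))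
        (by grind) (by grind) (by grind)
      grind
    rw [q1] at this
    rw [this]
    exact ⟨by grind, (b1 i).symm, (b2 i).symm⟩

variable [Finite V] [Finite V'] [Finite κ] [Finite κ']

theorem PiS.step (P : PiS G' τ d0 π) (k : KIso G G' φ ψ) (w : World G c0 A B a b z)
    (n : NLW G A B) (g : G3 φ G c0 A B a b z τ) (p : Eqv τ d0 (φ (R c0 A B a b)))
    [DecidableEq B] [Fintype B] {i j : B} (ij : i ≠ j)
    (hi : π (φ (flp (R c0 A B a b) (im (∅ : Finset B)) z)) ≠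
      π (φ (flp (R c0 A B a b) (im (fl ∅ i)) z)))
    (hj : π (φ (flp (R c0 A B a b) (im (∅ : Finset B)) z)) ≠
      π (φ (flp (R c0 A B a b) (im (fl ∅ j)) z))) :
    Eqv τ d0 (φ (R c0 A B b z)) ∧
    π (φ (flp (R c0 A B b z) (im (∅ : Finset B)) a)) ≠
      π (φ (flp (R c0 A B b z) (im (fl ∅ i)) a)) ∧
    π (φ (flp (R c0 A B b z) (im (∅ : Finset B)) a)) ≠
      π (φ (flp (R c0 A B b z) (im (fl ∅ j)) a)) ∧
    π (φ (flp (R c0 A B b z) (im (∅ : Finset B)) a)) =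
      π (φ (flp (R c0 A B a b) (im (fl (fl ∅ i) j)) z)) ∧
    π (φ (flp (R c0 A B b z) (im (fl (fl ∅ i) j)) a)) =
      π (φ (flp (R c0 A B a b) (im (∅ : Finset B)) z)) := by
  have := w.ab; have := w.az; have := w.bz; have := w.disj
  have g1 := g.pB k w n
  have g2 := g1.pA k w.pB n
  have p' : Eqv τ d0 (φ (R c0 A B b z)) := p.trans ((g.eB k w).trans (g1.eA k w.pB))
  have hC := w.cube (I := B) (fun _ h => Or.inr h) (fun u hu v hv => w.indB u v hu hv)
  have hD := w.rot.cube (I := B) (fun _ h => Or.inr h) (fun u hu v hv => w.indB u v hu hv)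
  obtain ⟨C, eC⟩ : ∃ C : Finset B → V → κ, ∀ S, flp (R c0 A B a b) (im S) z = C S := ⟨_, fun _ => rfl⟩
  obtain ⟨D, eD⟩ : ∃ D : Finset B → V → κ, ∀ S, flp (R c0 A B b z) (im S) a = D S := ⟨_, fun _ => rfl⟩
  have pC : ∀ S, Eqv τ d0 (φ (C S)) := fun S => eC S ▸ p.trans (g.flB k w (im_sub S))
  have pD : ∀ S, Eqv τ d0 (φ (D S)) := fun S => eD S ▸ p'.trans (g2.flB k w.rot (im_sub S))
  have nsw : ∀ S t, ¬ Sw (C S) (C (fl S t)) a b := by
    intro S t s
    have := s t.1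
    have := mem_im_fl S t t.1
    have := t.2
    rw [← eC, ← eC] at *
    grind
  have sw : ∀ S : Finset B, Sw (C S) (D Sᶜ) a b := by
    intro S
    rw [← eC, ← eD]
    refine Sw.of_or fun v => ?_
    have : v ∈ B → (v ∈ im Sᶜ ↔ v ∉ im S) := fun hv => by
      rw [mem_im ⟨v, hv⟩, mem_im ⟨v, hv⟩, Finset.mem_compl]
    have := im_sub S (a := v)
    have := im_sub Sᶜ (a := v)
    grind
  simp only [eC, eD] at hC hD hi hj ⊢
  have hC' := k.cube hC
  have hD' := k.cube hD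
  have mi : ∀ U, π (φ (C U)) ≠ π (φ (C (fl U i))) := fun U e => hi (P.dir hC' pC U ∅ i e)
  have mj : ∀ U, π (φ (C U)) ≠ π (φ (C (fl U j))) := fun U e => hj (P.dir hC' pC U ∅ j e)
  have FL := fun S : Finset B => P.flip k (hD.proper Sᶜ i) (sw S) (hC.adj S i) (hC.adj S j)
    (hC.ne S i j ij) (nsw S i) (nsw S j) (pC _) (pD _) (pC _) (pC _) (mi S) (mj S)
  have st : ∀ S U : Finset B, (i ∈ U ↔ i ∈ S) → (j ∈ U ↔ j ∈ S) →
      π (φ (C U)) = π (φ (C S)) := fun S U h1 h2 =>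
    P.stay hC' pC (W := ∅) fun t ht =>
      P.three hC' pC ij (fun e => ht (e ▸ h1)) (fun e => ht (e ▸ h2)) hi hj
  have f1 := FL Finset.univ
  have f2 := FL (fl Finset.univ i)
  have f3 := FL (fl Finset.univ j)
  have f4 := FL (fl (fl Finset.univ i) j)
  have e1 := st Finset.univ (fl (fl ∅ i) j) (by simp [mem_fl, ij]) (by simp [mem_fl, ij.symm])
  have e2 := st (fl (fl Finset.univ i) j) ∅ (by simp [mem_fl, ij]) (by simp [mem_fl, ij.symm])
  rw [fl_comm Finset.univ j i] at f3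
  rw [fl_fl _ j, fl_comm (fl Finset.univ i) j i] at f4
  simp only [fl_compl, Finset.compl_univ, fl_fl] at f1 f2 f3 f4
  rw [e1, e2]
  have parC : ∀ U t, π (φ (C U)) ≠ π (φ (C (fl U t))) →
      ¬ (Par (π (φ (C U))) ↔ Par (π (φ (C (fl U t))))) := fun U t h =>
    (P.mv _ _ (pC _) (pC _) (hC'.adj U t)).resolve_left h
  have x1 := parC _ _ (mi Finset.univ)
  have x2 := parC _ _ (mj Finset.univ)
  have x3 := parC _ _ (mj (fl Finset.univ i))
  have x4 := P.opp hC' pC Finset.univ ij (mi _)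
  have y1 := P.mv _ _ (pD _) (pD _) (hD'.adj ∅ i)
  have y2 := P.mv _ _ (pD _) (pD _) (hD'.adj ∅ j)
  have y3 := P.mv _ _ (pD _) (pD _) (hD'.adj (fl ∅ i) j)
  have y4 := P.mv _ _ (pD _) (pD _) (hD'.adj (fl ∅ j) i)
  have y5 := P.opp hD' pD (fl ∅ i) ij
  rw [fl_comm ∅ j i] at y4
  rw [fl_fl] at y5
  have := pig (π (φ (C (fl Finset.univ i)))) (π (φ (C (fl Finset.univ j)))) (π (φ (D ∅)))
    (π (φ (D (fl (fl ∅ i) j)))) (by grind)
  refine ⟨p', ?_⟩
  grind

theorem World.noTw (k : KIso G G' φ ψ) (w : World G c0 A B a b z) (n : NLW G A B)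
    (g : G3 φ G c0 A B a b z τ) : NoTw φ (R c0 A B a b) B z := by
  classical
  intro s hs s' hs' ss p q r t
  have := Fintype.ofFinite B
  have ij : (⟨s, hs⟩ : B) ≠ ⟨s', hs'⟩ := fun e => ss (congrArg Subtype.val e)
  have hC := k.cube (w.cube (I := B) (fun _ h => Or.inr h) (fun u hu v hv => w.indB u v hu hv))
  have q1 := hC.isq ∅ ij
  have q2 := hC.only ∅ _ _ ij
  simp only [im_empty, flp_empty, im_one, im_two ij] at q1 q2
  obtain ⟨u, v, hadj, hu, hv⟩ := t.witness q1 q2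
  have g1 := g.good s (Or.inr hs)
  have g2 := g.good s' (Or.inr hs')
  obtain ⟨π, P, inj⟩ := exPiS g.tri hadj (g1 u hu).1 (g2 v hv).1
  obtain ⟨a0, a1, a2, a3, a4⟩ := P.step k w n g (Eqv.refl _ _) ij
    (by
      simp only [im_empty, flp_empty, im_one]
      exact fun e => hu (inj _ _ (Eqv.refl _ _) g1 q1.h01.pc q1.h01.pd e).1)
    (by
      simp only [im_empty, flp_empty, im_one]
      exact fun e => hv (inj _ _ (Eqv.refl _ _) g2 q1.h01.pc q1.h02.pd e).2)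
  have gr := (g.pB k w n).pA k w.pB n
  obtain ⟨b0, b1, b2, b3, b4⟩ := P.step k w.rot n gr a0 ij a1 a2
  have gr' := (gr.pB k w.rot n).pA k w.rot.pB n
  obtain ⟨-, e1, e2, e3, -⟩ := P.step k w.rot.rot n gr' b0 ij b1 b2
  have pC : ∀ S : Finset B, Eqv τ (φ (R c0 A B a b)) (φ (flp (R c0 A B a b) (im S) z)) :=
    fun S => g.flB k w (im_sub S)
  have := P.opp hC pC (fl ∅ ⟨s, hs⟩) ij (by rw [fl_fl]; exact e1.symm)
  rw [fl_fl] at this
  exact this (e3.trans (b4.trans a3))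

end Pool.Agent.Kempe5e
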