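import Pool.Agent.Lib.MP_5e5661.Cube2

/-! The star relation: a cube whose antipodal corners are also joined by a path of three moves. -/

namespace Pool.Agent.Kempe5e

variable {V κ ι : Type*} {G : SimpleGraph V} [DecidableEq ι] {C : Finset ι → V → κ}

theorem Cube.A1 [Fintype ι] (h : Cube G C) {S : Finset ι} {v : V} (hv : C S v ≠ C Sᶜ v) :
    ∃ i, (∀ W, C S v ∈ LS C W i) ∧ v ∈ HS C S i := by
  classical
  obtain ⟨t, -, ht⟩ := h.first' hv
  obtain ⟨i, hi, hm⟩ := h.ex_max (P := {t | v ∈ HS C S t}) ⟨t, ht⟩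
  refine ⟨i, fun W => ?_, hi⟩
  let W' : Finset ι := Finset.univ.filter fun t => if v ∈ HS C S t then t ∈ S else t ∈ W
  have m : ∀ t, t ∈ W' ↔ if v ∈ HS C S t then t ∈ S else t ∈ W := by intro t; simp [W']
  have e1 : LS C W' i = LS C W i := h.ls_const hm fun t ht => by
    rw [m, if_neg (show v ∉ HS C S t from ht)]
  have e2 : C S v = C W' v := h.stay fun r hr => by rw [m, if_pos hr]
  have e3 : v ∈ HS C W' i := by
    intro k
    refine h.lemS (S' := fl W' i) ?_ hi (e2.trans k)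
    rw [mem_fl, m, if_pos (show v ∈ HS C S i from hi)]
    tauto
  rw [← e1, e2]
  exact ls_left e3

theorem Cube.A2 (h : Cube G C) {S : Finset ι} {i j : ι} {x : κ} (hi : x ∈ LS C S i)
    (hj : ∀ W, x ∈ LS C W j) : ¬ Top C S i j := by
  intro t
  rw [h.tX t, Set.mem_symmDiff] at hi
  have := hj S
  have := hj (fl S i)
  tauto

theorem Cube.uniqM (h : Cube G C) {S : Finset ι} {i j : ι} {x : κ} (hi : ∀ W, x ∈ LS C W i)
    (hj : ∀ W, x ∈ LS C W j) {v : V} (h1 : v ∈ HS C S i) (h2 : v ∈ HS C S j) : i = j := by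
  by_contra n
  rcases h.face S n with k | k | k
  · have := k v
    simp only [mem_HS] at *
    grind
  · exact h.A2 (hi S) hj k
  · exact h.A2 (hj S) hi k

theorem Cube.newcol (h : Cube G C) {S : Finset ι} {i j : ι} {v : V} (h1 : v ∈ HS C S i)
    (e : C (fl S i) v = C (fl S j) v) : i = j := by
  by_contra n
  exact h.ne S i j n ((h.adj S i).uniq (h.adj S j) h1 e)

theorem Cube.star_tri [Fintype ι] (h : Cube G C) {c2 : V → κ} (M : KA G (C ∅) c2)
    (n2 : ∀ j, c2 ≠ C (fl ∅ j)) {p q r s : κ} (pq : p ≠ q) (pr : p ≠ r) (ps : p ≠ s)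
    (qr : q ≠ r) (qs : q ≠ s) (rs : r ≠ s) (sM : Sw (C ∅) c2 p q)
    (h2 : ¬ In c2 (C Finset.univ) q)
    (h4 : ∀ x, In (C ∅) (C Finset.univ) x → x = p ∨ x = q ∨ x = r ∨ x = s)
    (N34 : ∀ t, p ∉ LS C ∅ t → q ∉ LS C ∅ t → q ∉ LS C Finset.univ t) :
    ∃ g T, g ≠ q ∧ T.Nonempty ∧ Sw c2 (C T) p g := by
  classical
  have ce : (∅ : Finset ι)ᶜ = Finset.univ := Finset.compl_empty
  have cu : (Finset.univ : Finset ι)ᶜ = ∅ := Finset.compl_univ
  rw [not_in_iff] at h2
  have L4 : ∀ U t x, x ∈ LS C U t → x = p ∨ x = q ∨ x = r ∨ x = s :=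
    fun U t x hx => h4 x (ce ▸ h.K4 ∅ hx)
  have Q0 : ∀ U v, C ∅ v = q → C U v ≠ q → c2 v = p := by
    intro U v h1 h3
    have : C Finset.univ v ≠ q := fun k =>
      h3 ((h.level (U := U) (h1.trans k.symm) (by simp)).trans h1)
    have := h2 v
    have := sM.or v
    grind
  have nM : ∀ t v, C ∅ v ≠ c2 v → c2 v ≠ C (fl ∅ t) v := fun t v hv e =>
    n2 t (M.uniq (h.adj ∅ t) hv e)
  have A3 : ∀ v1 v2 i1 i2, G.Adj v1 v2 → C Finset.univ v1 = q → C ∅ v2 = q →
      (∀ W, q ∈ LS C W i1) → (∀ W, q ∈ LS C W i2) → v1 ∈ HS C Finset.univ i1 →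
      v2 ∈ HS C ∅ i2 → i1 = i2 := by
    intro v1 v2 i1 i2 hadj a1 a2 m1 m2 b1 b2
    have c2v : c2 v2 = p := Q0 (fl ∅ i2) v2 a2 (fun k => b2 (a2.trans k.symm))
    have : ∃ j, v1 ∈ HS C Finset.univ j ∧ v2 ∈ HS C ∅ j := by
      by_contra k
      push Not at k
      let S : Finset ι := Finset.univ.filter fun t => v1 ∈ HS C Finset.univ t
      have e1 : C Finset.univ v1 = C S v1 := h.stay fun t ht => by simp [S, ht]
      have e2 : C ∅ v2 = C S v2 := h.stay fun t ht => by
        have : v1 ∉ HS C Finset.univ t := fun z => k t z ht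
        simp [S, this]
      exact h.proper S i1 v1 v2 hadj (by rw [← e1, ← e2, a1, a2])
    obtain ⟨j, j1, j2⟩ := this
    by_cases ej : j = i2
    · exact h.uniqM m1 m2 b1 (ej ▸ j1)
    exfalso
    obtain ⟨ρ, hρ⟩ := h.root_all b2
    have col : ∀ t, v2 ∈ HS C ∅ t → C (fl ∅ t) v2 = r ∨ C (fl ∅ t) v2 = s := by
      intro t ht
      have := L4 _ _ _ (ls_right ht)
      have := nM t v2 (by rw [a2, c2v]; exact pq.symm)
      have := mem_HS.1 ht
      grind
    have : ρ = i2 ∨ ρ = j := by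
      have := col _ b2
      have := col _ j2
      have := col _ (hρ ∅)
      have := h.newcol (j := i2) (hρ ∅)
      have := h.newcol (j := j) (hρ ∅)
      have := h.newcol (j := i2) j2
      grind
    rcases this with rfl | rfl
    · exact h.A2 (a2 ▸ ls_left j2) m2 (h.tm (Ne.symm ej) b2 (hρ _) j2).1
    · rcases h.mem_of_ls (a1 ▸ ls_left j1) (hρ Finset.univ) with k | k
      · exact h.proper _ i1 v1 v2 hadj (a1.trans k.symm)
      · refine h.lemS (S' := fl Finset.univ ρ) ?_ b2 (a2.trans k.symm)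
        simp [mem_fl, Ne.symm ej]
  have A1' : ∀ v, C ∅ v ≠ c2 v → ∃ i, (∀ W, q ∈ LS C W i) ∧
      (C ∅ v = p → v ∈ HS C Finset.univ i) ∧ (C ∅ v = q → v ∈ HS C ∅ i) := by
    intro v hv
    have := sM.or v
    have := h2 v
    by_cases e : C ∅ v = p
    · have e1 : C Finset.univ v = q := by grind
      obtain ⟨i, i1, i2⟩ := h.A1 (S := Finset.univ) (v := v) (by rw [cu]; grind)
      exact ⟨i, e1 ▸ i1, fun _ => i2, fun k => (pq (e.symm.trans k)).elim⟩
    · have e1 : C ∅ v = q := by grind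
      obtain ⟨i, i1, i2⟩ := h.A1 (S := ∅) (v := v) (by rw [ce]; grind)
      exact ⟨i, e1 ▸ i1, fun k => (e k).elim, fun _ => i2⟩
  obtain ⟨v0, hv0⟩ := M.ne
  obtain ⟨i, mi, hi0⟩ := A1' v0 hv0
  have allX : ∀ v, C ∅ v ≠ c2 v →
      (C ∅ v = p → v ∈ HS C Finset.univ i) ∧ (C ∅ v = q → v ∈ HS C ∅ i) := by
    refine M.conn.sub (P := {v | (C ∅ v = p → v ∈ HS C Finset.univ i) ∧
      (C ∅ v = q → v ∈ HS C ∅ i)}) hv0 hi0 fun x hx y hy hadj px => ?_
    obtain ⟨i', mi', hi'⟩ := A1' y hy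
    have : i = i' := by
      have := sM.or x
      have := sM.or y
      have := M.pc x y hadj
      have := h2 x
      have := h2 y
      simp only [Set.mem_ofPred_eq] at hx hy px
      by_cases e : C ∅ x = p
      · exact A3 x y i i' hadj (by grind) (by grind) mi mi' (px.1 e) (hi'.2 (by grind))
      · exact (A3 y x i' i hadj.symm (by grind) (by grind) mi' mi (hi'.1 (by grind))
          (px.2 (by grind))).symm
    exact this ▸ hi'
  have A4 : ∃ v2, C ∅ v2 = q ∧ c2 v2 = p := by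
    by_contra k
    push Not at k
    obtain ⟨w, w1, w2, w3, -⟩ := h.k4aux (S := ∅) mi fun w hw e =>
      k w e (Q0 (fl ∅ i) w e fun z => hw (e.trans z.symm))
    rw [ce] at w3
    have := h2 w
    have := mem_HS.1 w1
    exact nM i w (by grind) (by grind)
  obtain ⟨v2, a2, b2⟩ := A4
  have x2 : ∀ v, C ∅ v = q → c2 v = p → v ∈ HS C ∅ i := fun v k1 k2 =>
    (allX v (by rw [k1, k2]; exact pq.symm)).2 k1
  have hv2 := x2 v2 a2 b2
  obtain ⟨g, hg⟩ : ∃ g, C (fl ∅ i) v2 = g := ⟨_, rfl⟩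
  have gq : g ≠ q := fun e => hv2 (by rw [a2, hg, e])
  have gp : g ≠ p := fun e => nM i v2 (by rw [a2, b2]; exact pq.symm) (by rw [b2, hg, e])
  have si : Sw (C ∅) (C (fl ∅ i)) q g := by
    have := (h.adj ∅ i).swat hv2
    rwa [a2, hg] at this
  have li := h.ls_of_sw si
  obtain ⟨d, dg, dp, dq, L4'⟩ : ∃ d, d ≠ g ∧ d ≠ p ∧ d ≠ q ∧
      ∀ U t x, x ∈ LS C U t → x = p ∨ x = q ∨ x = g ∨ x = d := by
    have := L4 _ _ _ (hg ▸ ls_right hv2)
    by_cases e : g = r
    · exact ⟨s, by grind, by grind, by grind, e ▸ L4⟩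
    · refine ⟨r, by grind, by grind, by grind, fun U t x hx => ?_⟩
      have := L4 U t x hx
      grind
  have N34' : ∀ t, LS C ∅ t = {g, d} → q ∉ LS C Finset.univ t := fun t e =>
    N34 t (by rw [e]; simp [gp.symm, dp.symm]) (by rw [e]; simp [gq.symm, dq.symm])
  have A6 : ∀ w, w ∈ HS C ∅ i → C ∅ w = g →
      ∃ j, (Gt C i j ∧ Sw (C ∅) (C (fl ∅ j)) p g) ∧ w ∈ HS C ∅ j := by
    intro w hw cw
    have wq : C (fl ∅ i) w = q := by have := si.or w; have := mem_HS.1 hw; grind
    have st : ∀ U, i ∈ U → w ∈ HS C U i → C U w = q := by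
      intro U hU k
      refine (h.mem_of_ls (mi U) k).resolve_right fun z => ?_
      refine h.lemS (S := fl ∅ i) (S' := fl U i) (t := i) ?_ (by rwa [HS_fl]) (wq.trans z.symm)
      simp [mem_fl, hU]
    have st2 : ∀ t, t ≠ i → w ∈ HS C ∅ t → w ∈ HS C (fl ∅ i) t → C (fl ∅ t) w ≠ d →
        ∃ j, (Gt C i j ∧ Sw (C ∅) (C (fl ∅ j)) p g) ∧ w ∈ HS C ∅ j := by
      intro t n k1 k2 k3
      refine ⟨t, ⟨(h.tm n k1 k2 hw).1.gt, ?_⟩, k1⟩
      have := L4' _ _ _ (ls_right k1)
      have := h.newcol (j := i) k1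
      have := mem_HS.1 k1
      have e : C (fl ∅ t) w = p := by grind
      have := ((h.adj ∅ t).swat k1).swap
      rwa [e, cw] at this
    obtain ⟨ρ, hρ⟩ := h.root_all hw
    have n : ρ ≠ i := by
      rintro rfl
      have := st _ (Finset.mem_univ _) (hρ _)
      have := h2 w
      have := sM.or w
      grind
    by_cases e : C (fl ∅ ρ) w = d
    · have l1 : LS C ∅ ρ = {g, d} := by
        have := h.ls_of_sw ((h.adj ∅ ρ).swat (hρ ∅))
        rwa [e, cw] at this
      have l2 : C (fl Finset.univ ρ) w ≠ q := fun z => N34' ρ l1 (z ▸ ls_right (hρ _))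
      have im : i ∈ fl Finset.univ ρ := by simp [mem_fl, n.symm]
      obtain ⟨t, t1, t2⟩ := h.first (h.lemS (S' := fl Finset.univ ρ) (by simp [im]) hw)
      have tρ : t ≠ ρ := by rintro rfl; simp [mem_fl] at t1
      have t0 := t2 ∅ (by simp)
      refine st2 t ?_ t0 (t2 _ ?_) fun z => tρ (h.newcol t0 (z.trans e.symm))
      · rintro rfl
        exact l2 (st _ im (t2 _ (by simp)))
      · intro j hj
        simp only [mem_fl, Finset.notMem_empty, Finset.mem_univ] at *
        grind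
    · exact st2 ρ n (hρ _) (hρ _) e
  have A7 : ∀ v, C ∅ v = p → c2 v = q →
      ∃ j, (Gt C i j ∧ Sw (C ∅) (C (fl ∅ j)) p g) ∧ v ∈ HS C ∅ j := by
    intro v k1 k2
    have xv : C ∅ v ≠ c2 v := by rw [k1, k2]; exact pq
    have hv := (allX v xv).1 k1
    have cv : C Finset.univ v = q := (h2 v).1 k2
    obtain ⟨ρ, hρ⟩ := h.root_all hv
    have n : ρ ≠ i := by
      rintro rfl
      have := si v (hρ ∅)
      grind
    have gt : Gt C i ρ := (h.tm n (hρ _) (hρ _) hv).1.gt
    by_cases e : C (fl ∅ ρ) v = g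
    · refine ⟨ρ, ⟨gt, ?_⟩, hρ _⟩
      have := (h.adj ∅ ρ).swat (hρ ∅)
      rwa [e, k1] at this
    exfalso
    have y : C (fl ∅ ρ) v = d := by
      have := L4' _ _ _ (ls_right (hρ ∅))
      have := nM ρ v xv
      have := mem_HS.1 (hρ ∅)
      grind
    have l1 : LS C (fl ∅ ρ) i = {q, g} := (h.nL (h.gt_asym gt)).trans li
    obtain ⟨t, t1, t2⟩ := h.first (S := fl ∅ ρ) (S' := Finset.univ) (v := v)
      (by rw [y, cv]; exact dq)
    have tρ : t ≠ ρ := by rintro rfl; simp [mem_fl] at t1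
    have t0 := t2 _ (fun _ _ => Iff.rfl)
    have ti : t ≠ i := by
      rintro rfl
      have := ls_left t0
      rw [l1, y] at this
      simp at this
      tauto
    have l2 := h.tL (h.tm tρ.symm (hρ _) (hρ _) t0).1
    rw [fl_fl, h.ls_of_sw ((h.adj _ t).swat t0), y] at l2
    have := L4' _ _ _ (ls_right t0)
    have z1 : C (fl (fl ∅ ρ) t) v ≠ p := fun z =>
      tρ (h.newcol t0 (by rw [fl_fl, z, k1]))
    have z2 : C (fl (fl ∅ ρ) t) v ≠ q := fun z =>
      h.lemS (S' := fl (fl ∅ ρ) t) (by simp [mem_fl, n.symm, ti.symm]) hv (cv.trans z.symm)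
    have z3 : C (fl (fl ∅ ρ) t) v ≠ g := fun z =>
      N34' t (by rw [l2, z, Set.pair_comm]) (cv ▸ ls_left (t2 _ (by simp)))
    have := mem_HS.1 t0
    grind
  let D : Set ι := {j | Gt C i j ∧ Sw (C ∅) (C (fl ∅ j)) p g}
  let S : Finset ι := Finset.univ.filter fun j => j ∈ D
  have mS : ∀ j, j ∈ S ↔ j ∈ D := by intro j; simp [S]
  have rS : Reg ∅ D S := fun j hj => by simp [mS, hj]
  have E1 : Eqv {p, g} (C ∅) (C S) :=
    h.K5 (fun j hj => hj.2.eqv (by simp) (by simp)) rS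
  have E1' : ∀ v, C ∅ v = C S v ∨ (C ∅ v = p ∧ C S v = g) ∨ (C ∅ v = g ∧ C S v = p) := by
    intro v
    have := E1 v
    simp only [Set.mem_insert_iff, Set.mem_singleton_iff] at this
    grind
  have iS : i ∉ S := fun k => h.gt_irrefl i ((mS i).1 k).1
  have iT : i ∈ fl S i := by simp [mem_fl, iS]
  have sT : Sw (C S) (C (fl S i)) q g := sw_of_ls (by
    rw [h.ls_const (fun t ht k => h.gt_irrefl i (Relation.TransGen.trans ht.1 k)) rS, li])
  have B2 : ∀ v, C ∅ v = q → c2 v = p → C S v = q ∧ C (fl S i) v = g := by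
    intro v k1 k2
    have := h.lemS (S' := fl S i) (by simp [iT]) (x2 v k1 k2)
    have := E1' v
    have := sT.or v
    grind
  have mv : ∀ v j, j ∈ D → v ∈ HS C ∅ j → C ∅ v ≠ C S v := fun v j hj hv =>
    h.lemS (by simp [mS, hj]) hv
  refine ⟨g, fl S i, gq, ⟨i, iT⟩, Sw.of_or fun v => ?_⟩
  by_cases xv : C ∅ v = c2 v
  · have : C S v = C (fl S i) v := by
      by_contra k
      have key : ∀ y, C S y ≠ C (fl S i) y → C S y = q → C ∅ y = q ∧ c2 y = p := by
        intro y y1 y2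
        have e : C ∅ y = q := by have := E1' y; grind
        exact ⟨e, Q0 (fl S i) y e (by grind)⟩
      have vg : C S v = g := by
        have := key v k
        have := sT v k
        grind
      have b := B2 v2 a2 b2
      obtain ⟨x, hx, y, hy, hadj, px, py⟩ := (h.adj S i).conn.cross (P := {v}) (u := v) (v := v2)
        k (by simp only [Set.mem_ofPred_eq]; grind) rfl (by simp only [Set.mem_singleton_iff]; grind)
      obtain rfl : x = v := px
      have yq : C S y = q := by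
        have := sT y hy
        have := h.proper S i x y hadj
        grind
      obtain ⟨y1, y2⟩ := key y hy yq
      have := E1' x
      by_cases e : C ∅ x = g
      · obtain ⟨j, j1, j2⟩ := A6 x
          (closure (h.proper _ i) (h.adj ∅ i).pd si (x2 y y1 y2) hadj.symm (Or.inr e)) e
        have := mv x j j1 j2
        grind
      · exact closure M.pc M.pd sM (v := y) (by grind) hadj.symm (by grind) xv
    have := E1' v
    grind
  · by_cases e : C ∅ v = q
    · have := B2 v e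
      have := sM.or v
      grind
    · have k1 : C ∅ v = p ∧ c2 v = q := by have := sM.or v; grind
      obtain ⟨j, j1, j2⟩ := A7 v k1.1 k1.2
      have := mv v j j1 j2
      have vg : C S v = g := by have := E1' v; grind
      obtain ⟨x, hx, y, hy, hadj, px, py⟩ := M.conn.cross (P := {v}) (u := v) (v := v2)
        xv (by simp only [Set.mem_ofPred_eq]; grind) rfl
        (by simp only [Set.mem_singleton_iff]; grind)
      obtain rfl : x = v := px
      have := sM.or y
      have := M.pc x y hadj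
      simp only [Set.mem_ofPred_eq] at hy
      have b := B2 y (by grind) (by grind)
      have := closure (h.proper _ i) (h.adj S i).pd sT (v := y) (by grind) hadj.symm (Or.inr vg)
      have := sT.or x
      grind

end Pool.Agent.Kempe5e
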