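import Pool.Agent.Lib.MP_5e5661.Star

/-! The star relation in a commuting cube, the hexagon of six colourings, and K33. -/

namespace Pool.Agent.Kempe5e

variable {V κ ι : Type*} {G : SimpleGraph V} [DecidableEq ι] {C : Finset ι → V → κ}

theorem Cube.nt_hs (h : Cube G C) (nt : ∀ U i j, ¬ Top C U i j) (S U : Finset ι) (j : ι) :
    HS C U j = HS C S j :=
  h.hs_const (D := Set.univ) (fun t _ => h.noGt (nt S) j t) (Reg.univ _ _)

theorem Cube.nt_ls (h : Cube G C) (nt : ∀ U i j, ¬ Top C U i j) (S U : Finset ι) (j : ι) :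
    LS C U j = LS C S j :=
  h.ls_const (D := Set.univ) (fun t _ => h.noGt (nt S) t j) (Reg.univ _ _)

theorem Cube.nt_disj (h : Cube G C) (nt : ∀ U i j, ¬ Top C U i j) {S : Finset ι} {i j : ι}
    {v : V} (h1 : v ∈ HS C S i) (h2 : v ∈ HS C S j) : i = j := by
  by_contra n
  exact nt _ _ _ (h.tm n h1 (by rwa [h.nt_hs nt S]) h2).1

theorem Cube.nt_stay [Finite ι] (h : Cube G C) (nt : ∀ U i j, ¬ Top C U i j) {S U : Finset ι}
    {j : ι} {v : V} (h1 : v ∈ HS C S j) (hj : j ∈ S ↔ j ∈ U) : C S v = C U v :=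
  h.stay fun r hr => by rw [h.nt_disj nt hr h1]; exact hj

theorem Cube.nt_go [Finite ι] (h : Cube G C) (nt : ∀ U i j, ¬ Top C U i j) {S U : Finset ι}
    {j : ι} {v : V} (h1 : v ∈ HS C S j) (hj : ¬ (j ∈ S ↔ j ∈ U)) : C (fl S j) v = C U v :=
  h.nt_stay nt (j := j) (by rwa [HS_fl]) (by rw [mem_fl]; tauto)

theorem Cube.no_lab [Fintype ι] (h : Cube G C) (nt : ∀ U i j, ¬ Top C U i j) {S : Finset ι}
    {c2 c3 : V → κ} (M : KA G (C S) c2) (e : KA G c3 (C Sᶜ)) {p q r : κ} (pq : p ≠ q)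
    (pr : p ≠ r) (qr : q ≠ r) (sM : Sw (C S) c2 p q) (sf : Sw c2 c3 p r)
    (se : Sw c3 (C Sᶜ) q r) (j : ι) (n2 : c2 ≠ C (fl S j)) (n3 : c3 ≠ C (fl Sᶜ j))
    (m3 : ¬ KA G c3 (C (fl Sᶜ j))) : ¬ Sw (C S) (C (fl S j)) p q := by
  intro sj
  have A : ∀ v, v ∈ HS C S j → C S v = p ∧ c2 v = p ∧ c3 v = r ∧ C Sᶜ v = q := by
    intro v hv
    have e1 : C S v = c2 v := by
      by_contra k
      exact n2 (M.uniq_sw (h.adj S j) sM sj k hv)
    have e2 := h.nt_go nt (U := Sᶜ) hv (by simp)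
    have := sj.or v
    have := sf.or v
    have := se.or v
    have := mem_HS.1 hv
    grind
  obtain ⟨v, hv⟩ := (h.adj S j).ne
  have m1 := (h.adj S j).mono (fun u hu => (A u hu).1) hv
  have m2 : ∀ u, u ≠ v → C Sᶜ u = C (fl Sᶜ j) u := by
    intro u hu
    by_contra k
    have : u ∈ HS C S j := by rw [← h.nt_hs nt S Sᶜ]; exact k
    exact this (m1 u hu)
  have a := A v hv
  have m4 : ∀ u, u ≠ v → C Sᶜ u = c3 u := by
    intro u hu
    by_contra k
    obtain ⟨x, hx, y, hy, hadj, px, py⟩ := e.conn.cross (P := {v}) (u := v) (v := u)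
      (by simp only [Set.mem_ofPred_eq]; grind) (Ne.symm k) rfl hu
    obtain rfl : x = v := px
    simp only [Set.mem_ofPred_eq] at hy
    have := se.or y
    have := sf.or y
    have := sM.or y
    have := e.pc x y hadj
    have := M.pc x y hadj
    have := closure M.pc (h.adj S j).pd sj hv hadj (by grind)
    exact this (m1 y py)
  rcases eq_or_KA e.pc (h.adj Sᶜ j).pd m4 m2 with k | k
  · exact n3 k
  · exact m3 k

theorem Cube.no_pq [Fintype ι] [Nontrivial ι] (h : Cube G C) (nt : ∀ U i j, ¬ Top C U i j)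
    {c2 c3 : V → κ} (M : KA G (C ∅) c2) (f : KA G c2 c3) (e : KA G c3 (C Finset.univ))
    {p q r : κ} (pr : p ≠ r) (qr : q ≠ r) (sM : Sw (C ∅) c2 p q) (sf : Sw c2 c3 p r)
    (n2 : ∀ j, c2 ≠ C (fl ∅ j)) (n3 : ∀ j, c3 ≠ C (fl Finset.univ j)) :
    ¬ Sw c3 (C Finset.univ) p q := by
  intro se
  have ce : (∅ : Finset ι)ᶜ = Finset.univ := Finset.compl_empty
  have F : ∀ v, c2 v ≠ c3 v → ∃ j, v ∈ HS C ∅ j := by
    intro v hv
    obtain ⟨j, -, hj⟩ := h.first' (S := ∅) (S' := Finset.univ) (v := v) (by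
      have := sM.or v; have := sf.or v; have := se.or v; grind)
    exact ⟨j, hj⟩
  obtain ⟨v0, hv0⟩ := f.ne
  obtain ⟨j, hj⟩ := F v0 hv0
  have F' : ∀ v, c2 v ≠ c3 v → v ∈ HS C ∅ j := by
    refine f.conn.sub (P := HS C ∅ j) hv0 hj fun x hx y hy hadj px => ?_
    obtain ⟨j', hj'⟩ := F y hy
    by_contra k
    have n : j ≠ j' := fun z => k (z ▸ hj')
    have a1 := h.nt_stay nt (U := fl ∅ j') px (by simp [mem_fl, n])
    have a2 := h.nt_stay nt (U := fl ∅ j) hj' (by simp [mem_fl, n.symm])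
    have a3 := h.nt_go nt (U := Finset.univ) px (by simp)
    have a4 := h.nt_go nt (U := Finset.univ) hj' (by simp)
    have := h.proper (fl ∅ j) j x y hadj
    have := h.proper (fl ∅ j') j x y hadj
    have := f.pc x y hadj
    have := sM.or x; have := sf.or x; have := se.or x
    have := sM.or y; have := sf.or y; have := se.or y
    simp only [Set.mem_ofPred_eq] at hx hy
    grind
  obtain ⟨j', n⟩ := exists_ne j
  have tot : Eqv {p, q, r} (C ∅) (C Finset.univ) :=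
    ((sM.eqv (by simp) (by simp)).trans (sf.eqv (by simp) (by simp))).trans
      (se.eqv (by simp) (by simp))
  have B : ∀ w, w ∈ HS C ∅ j' → c2 w = c3 w ∧ C ∅ w ≠ C Finset.univ w ∧
      C (fl ∅ j') w = C Finset.univ w ∧ C ∅ w = C (fl Finset.univ j') w := by
    intro w hw
    refine ⟨?_, h.lemS (by simp) hw, h.nt_go nt hw (by simp), h.nt_stay nt hw (by simp [mem_fl])⟩
    by_contra k
    exact n (h.nt_disj nt hw (F' w k))
  have B' : ∀ w, w ∈ HS C ∅ j' → (C ∅ w = p ∨ C ∅ w = q) ∧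
      (C Finset.univ w = p ∨ C Finset.univ w = q) := by
    intro w hw
    have b := B w hw
    have := tot w b.2.1
    have := sM.or w
    have := se.or w
    simp only [Set.mem_insert_iff, Set.mem_singleton_iff] at *
    grind
  have s1 : Sw (C ∅) (C (fl ∅ j')) p q := fun w hw => by
    have := B w hw; have := B' w hw; grind
  have s2 : Sw (C Finset.univ) (C (fl Finset.univ j')) p q := fun w hw => by
    have hw' : w ∈ HS C ∅ j' := by rw [← h.nt_hs nt ∅ Finset.univ]; exact hw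
    have := B w hw'; have := B' w hw'; grind
  obtain ⟨w, hw⟩ := (h.adj ∅ j').ne
  have b := B w hw
  have e1 : C ∅ w = c2 w := by
    by_contra k
    exact n2 j' (M.uniq_sw (h.adj ∅ j') sM s1 k hw)
  exact n3 j' (e.symm.uniq_sw (h.adj _ j') se.symm s2 (v := w) (by grind) (by grind))

theorem Cube.star_cm [Fintype ι] [Nontrivial ι] (h : Cube G C) (nt : ∀ U i j, ¬ Top C U i j)
    {c2 c3 : V → κ} (M : KA G (C ∅) c2) (f : KA G c2 c3) (e : KA G c3 (C Finset.univ))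
    {p q r : κ} (pq : p ≠ q) (pr : p ≠ r) (qr : q ≠ r) (sM : Sw (C ∅) c2 p q)
    (sf : Sw c2 c3 p r) (se : Eqv {p, q, r} c3 (C Finset.univ)) (se' : ¬ Sw c3 (C Finset.univ) p r)
    (n2 : ∀ j, c2 ≠ C (fl ∅ j)) (m2 : ∀ j, ¬ KA G c2 (C (fl ∅ j)))
    (n3 : ∀ j, c3 ≠ C (fl Finset.univ j)) (m3 : ∀ j, ¬ KA G c3 (C (fl Finset.univ j))) :
    Sw c3 (C Finset.univ) q r ∧ (∀ j, Sw (C ∅) (C (fl ∅ j)) p r) ∧
      (∀ v, C ∅ v = p → c2 v = q → ∃ j, v ∈ HS C ∅ j) ∧
      (∀ v w, C ∅ v = q → c2 v = p → G.Adj v w → C ∅ w = r → ∃ j, w ∈ HS C ∅ j) ∧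
      (∀ j w, w ∈ HS C ∅ j → C ∅ w = c2 w → c2 w ≠ c3 w) := by
  have ce : (∅ : Finset ι)ᶜ = Finset.univ := Finset.compl_empty
  have cu : (Finset.univ : Finset ι)ᶜ = ∅ := Finset.compl_univ
  have three : ∀ {c d : V → κ}, KA G c d → Eqv {p, q, r} c d →
      Sw c d p q ∨ Sw c d p r ∨ Sw c d q r := by
    intro c d k ev
    obtain ⟨v, hv⟩ := k.ne
    have s := k.swat hv
    have := ev v hv
    simp only [Set.mem_insert_iff, Set.mem_singleton_iff] at this
    rcases this with ⟨a | a | a, b | b | b⟩ <;> rw [a, b] at s <;>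
      first
      | exact (hv (a.trans b.symm)).elim
      | exact Or.inl s
      | exact Or.inl s.swap
      | exact Or.inr (Or.inl s)
      | exact Or.inr (Or.inl s.swap)
      | exact Or.inr (Or.inr s)
      | exact Or.inr (Or.inr s.swap)
  have s1 : Sw c3 (C Finset.univ) q r :=
    ((three e se).resolve_left (h.no_pq nt M f e pr qr sM sf n2 n3)).resolve_left se'
  have tot : Eqv {p, q, r} (C ∅) (C (∅ : Finset ι)ᶜ) :=
    ce ▸ ((sM.eqv (by simp) (by simp)).trans (sf.eqv (by simp) (by simp))).trans se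
  have s2 : ∀ j, Sw (C ∅) (C (fl ∅ j)) p r := by
    intro j
    have a1 := h.no_lab nt (S := ∅) M (ce ▸ e) pq pr qr sM sf (ce ▸ s1) j (n2 j) (ce ▸ n3 j)
      (ce ▸ m3 j)
    have a2 := h.no_lab nt (S := Finset.univ) e.symm (cu ▸ M.symm) qr.symm pr.symm pq.symm
      s1.symm.swap sf.symm.swap (cu ▸ sM.symm.swap) j (n3 j) (cu ▸ n2 j) (cu ▸ m2 j)
    rcases (three (h.adj ∅ j) (h.K4' tot _)).resolve_left a1 with k | k
    · exact k
    · exact (a2 (sw_of_ls (by rw [h.nt_ls nt ∅, h.ls_of_sw k, Set.pair_comm]))).elim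
  have s3 : Eqv {p, r} (C ∅) (C Finset.univ) :=
    h.K5' (fun j => (s2 j).eqv (by simp) (by simp)) _
  have fm : ∀ v, C ∅ v ≠ C Finset.univ v → ∃ j, v ∈ HS C ∅ j := fun v hv => by
    obtain ⟨j, -, hj⟩ := h.first' hv
    exact ⟨j, hj⟩
  refine ⟨s1, s2, fun v a b => fm v ?_, fun v w a b hadj c => fm w ?_, fun j w hw a => ?_⟩
  · have := sf.or v; have := s1.or v; grind
  · have := s3 v
    simp only [Set.mem_insert_iff, Set.mem_singleton_iff] at this
    have := sf.or v; have := s1.or v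
    have := sM.or w; have := sf.or w; have := s1.or w
    have := closure f.pc f.pd sf (v := v) (by grind) hadj (by grind)
    grind
  · have := h.nt_go nt (U := Finset.univ) hw (by simp)
    have := (s2 j).or w
    have := s1.or w
    have := mem_HS.1 hw
    grind

omit [DecidableEq ι] in
/-- the chord of the hexagon does not repeat the label of a side -/
theorem hex_chord {h0 h1 h2 h3 h4 h5 : V → κ} {p q r : κ} (pq : p ≠ q) (pr : p ≠ r) (qr : q ≠ r)
    (s01 : Sw h0 h1 p q) (s12 : Sw h1 h2 q r) (s23 : Sw h2 h3 p r) (s34 : Sw h3 h4 p q)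
    (s45 : Sw h4 h5 q r) (s50 : Sw h5 h0 p r) (k : KA G h0 h3)
    (f0 : ∀ v, h0 v ≠ h1 v → ∃ d, KA G h0 d ∧ Sw h0 d p q ∧ h0 v ≠ d v ∧ d ≠ h3)
    (f3 : ∀ v, h3 v ≠ h4 v → ∃ d, KA G h3 d ∧ Sw h3 d p q ∧ h3 v ≠ d v ∧ d ≠ h0) :
    ¬ Sw h0 h3 p q := by
  intro s
  obtain ⟨y, hy⟩ := k.ne
  have a : h0 y = h1 y := by
    by_contra z
    obtain ⟨d, d1, d2, d3, d4⟩ := f0 y z
    exact d4 (d1.uniq_sw k d2 s d3 hy)
  have b : h3 y = h4 y := by
    by_contra z
    obtain ⟨d, d1, d2, d3, d4⟩ := f3 y z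
    exact d4 (d1.uniq_sw k.symm d2 s.symm d3 hy.symm)
  have := s.or y
  have := s12.or y
  have := s23.or y
  have := s45.or y
  have := s50.or y
  grind

omit [DecidableEq ι] in
theorem hex_pat {h0 h1 h2 h3 h4 h5 : V → κ} {p q r : κ} (pq : p ≠ q) (pr : p ≠ r) (qr : q ≠ r)
    (s01 : Sw h0 h1 p q) (s12 : Sw h1 h2 q r) (s23 : Sw h2 h3 p r) (s34 : Sw h3 h4 p q)
    (s45 : Sw h4 h5 q r) (s50 : Sw h5 h0 p r) (s03 : Sw h0 h3 q r) (s14 : Sw h1 h4 p r)
    (s25 : Sw h2 h5 p q) (v : V) :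
    (h0 v = p → (h0 v ≠ h1 v ↔ h0 v ≠ h5 v)) ∧ (h0 v = q → (h0 v ≠ h1 v ↔ h0 v ≠ h3 v)) ∧
      (h0 v = r → (h0 v ≠ h5 v ↔ h0 v ≠ h3 v)) := by
  have := s01.or v
  have := s12.or v
  have := s23.or v
  have := s34.or v
  have := s45.or v
  have := s50.or v
  have := s03.or v
  have := s14.or v
  have := s25.or v
  grind

omit [DecidableEq ι] in
theorem k33_pair {e0 e1 e2 o1 o2 : V → κ} (q1 : ISq G e0 o1 o2 e1) (q2 : ISq G e0 o1 o2 e2)
    (n : e1 ≠ e2) : ∃ a b d, a ≠ b ∧ a ≠ d ∧ b ≠ d ∧ Sw e0 o1 a b ∧ Sw e0 o2 a d ∧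
      (∀ v, e0 v = a → (e0 v ≠ o1 v ↔ e0 v ≠ o2 v)) ∧
      (∀ v, e0 v = b → e0 v ≠ o1 v → e1 v = d ∨ e2 v = d) ∧
      (∀ v, e0 v = b → e0 v ≠ o1 v → e1 v = a ∨ e2 v = a) := by
  have cmtw : ∀ {o1 o2 e1 e2 : V → κ} {a b d : κ}, ISq G e0 o1 o2 e1 → ISq G e0 o1 o2 e2 →
      Cm e0 o1 o2 e1 → ¬ Tw e0 o1 o2 e2 a b d := by
    intro o1 o2 e1 e2 a b d q1 q2 c t
    obtain ⟨u, hu⟩ := q1.h01.ne
    obtain ⟨w, hw⟩ := q1.h02.ne
    have := t.ab; have := t.ad; have := t.bd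
    obtain ⟨x, hx, y, hy, hadj, px, py⟩ := q2.h23.conn.cross (P := {v | e0 v = o2 v}) (u := u)
      (v := w) (by have := c u; have := t.pat u; simp only [Set.mem_ofPred_eq]; grind)
      (by have := c w; have := t.pat w; simp only [Set.mem_ofPred_eq]; grind)
      (by have := c u; simp only [Set.mem_ofPred_eq]; grind) hw
    simp only [Set.mem_ofPred_eq] at hx hy px py
    have := c x; have := c y; have := t.pat x; have := t.pat y
    have := t.l01.or x
    have := q1.h23.pc x y hadj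
    have := q1.h23.pd x y hadj
    grind
  have twtw : ∀ {o1 o2 e1 e2 : V → κ} {a b d a' b' d' : κ}, ISq G e0 o1 o2 e1 →
      Tw e0 o1 o2 e1 a b d → Tw e0 o1 o2 e2 a' b' d' → e1 = e2 := by
    intro o1 o2 e1 e2 a b d a' b' d' q t t'
    obtain ⟨u, hu⟩ := q.h01.ne
    obtain ⟨w, hw⟩ := q.h02.ne
    have := t.ab; have := t.ad; have := t.bd
    have := t'.ab; have := t'.ad; have := t'.bd
    have := t.l01.or u; have := t'.l01.or u; have := t.l02.or w; have := t'.l02.or w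
    funext v
    have := t.pat v; have := t'.pat v
    grind
  have fin : ∀ {e1 e2 : V → κ} {a b d a' b' d' : κ}, ISq G e0 o1 o2 e1 →
      Tw e0 o1 o2 e1 a b d → Tw e0 o2 o1 e2 a' b' d' →
      Sw e0 o1 a b ∧ Sw e0 o2 a d ∧ (∀ v, e0 v = a → (e0 v ≠ o1 v ↔ e0 v ≠ o2 v)) ∧
      (∀ v, e0 v = b → e0 v ≠ o1 v → e1 v = a ∧ e2 v = d) := by
    intro e1 e2 a b d a' b' d' q t t'
    obtain ⟨u, hu⟩ := q.h01.ne
    obtain ⟨w, hw⟩ := q.h02.ne
    have := t.ab; have := t.ad; have := t.bd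
    have := t'.ab; have := t'.ad; have := t'.bd
    have := t.l01.or u; have := t'.l02.or u; have := t.l02.or w; have := t'.l01.or w
    refine ⟨t.l01, t.l02, fun v hv => ?_, fun v hv hv' => ?_⟩
    · have := t.pat v; have := t'.pat v; grind
    · have := t.pat v; have := t'.pat v; grind
  rcases q1.cases with c | ⟨a, b, d, t⟩ | ⟨a, b, d, t⟩ <;>
    rcases q2.cases with c' | ⟨a', b', d', t'⟩ | ⟨a', b', d', t'⟩
  · refine (n (funext fun v => ?_)).elim
    have := c v; have := c' v; grind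
  · exact (cmtw q1 q2 c t').elim
  · exact (cmtw q1.swap q2.swap c.symm t').elim
  · exact (cmtw q2 q1 c' t).elim
  · exact (n (twtw q1 t t')).elim
  · obtain ⟨x1, x2, x3, x4⟩ := fin q1 t t'
    exact ⟨a, b, d, t.ab, t.ad, t.bd, x1, x2, x3, fun v k k' => Or.inr (x4 v k k').2,
      fun v k k' => Or.inl (x4 v k k').1⟩
  · exact (cmtw q2.swap q1.swap c'.symm t).elim
  · obtain ⟨x1, x2, x3, x4⟩ := fin q2 t' t
    exact ⟨a', b', d', t'.ab, t'.ad, t'.bd, x1, x2, x3, fun v k k' => Or.inl (x4 v k k').2,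
      fun v k k' => Or.inr (x4 v k k').1⟩
  · exact (n (twtw q1.swap t t')).elim

end Pool.Agent.Kempe5e
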