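import Pool.Agent.Lib.MP_5e5661.World

/-! The image of a world uses only three colours. -/

namespace Pool.Agent.Kempe5e

variable {V κ V' κ' : Type*} {G : SimpleGraph V} {G' : SimpleGraph V'}
  {φ : (V → κ) → (V' → κ')} {ψ : (V' → κ') → (V → κ)}
  {c0 : V → κ} {A B : Set V} {a b z : κ}

/-- a set of three colours -/
def Tri (τ : Set κ') : Prop := ∃ p q r, p ≠ q ∧ p ≠ r ∧ q ≠ r ∧ τ = {p, q, r}

theorem Tri.eq {τ : Set κ'} (h : Tri τ) {p q r : κ'} (pq : p ≠ q) (pr : p ≠ r) (qr : q ≠ r)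
    (hp : p ∈ τ) (hq : q ∈ τ) (hr : r ∈ τ) : τ = {p, q, r} := by
  obtain ⟨x, y, t, h1, h2, h3, rfl⟩ := h
  ext u
  simp only [Set.mem_insert_iff, Set.mem_singleton_iff] at *
  grind

theorem Sw.mem {τ : Set κ'} {c d : V' → κ'} {p q : κ'} (s : Sw c d p q) (k : KA G' c d)
    (e : Eqv τ c d) : p ∈ τ ∧ q ∈ τ :=
  ⟨eqv_iff.1 e p ((s.in_iff k.ne p).2 (Or.inl rfl)), eqv_iff.1 e q ((s.in_iff k.ne q).2 (Or.inr rfl))⟩

/-- no twisted square among the recolourings of `I` -/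
def NoTw (φ : (V → κ) → (V' → κ')) (c : V → κ) (I : Set V) (z : κ) : Prop :=
  ∀ s ∈ I, ∀ s' ∈ I, s ≠ s' → ∀ p q r,
    ¬ Tw (φ c) (φ (flp c {s} z)) (φ (flp c {s'} z)) (φ (flp c {s, s'} z)) p q r

theorem World.pcube (k : KIso G G' φ ψ) (w : World G c0 A B a b z) {I : Set V} [DecidableEq I]
    [Fintype I] (hI : ∀ v ∈ I, v ∈ A ∨ v ∈ B) (hi : ∀ u ∈ I, ∀ v ∈ I, ¬ G.Adj u v) :
    ∃ C : Finset I → V' → κ', Cube G' C ∧ (∀ T, C T = φ (flp (R c0 A B a b) (im T) z)) ∧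
      C ∅ = φ (R c0 A B a b) ∧ C Finset.univ = φ (flp (R c0 A B a b) I z) ∧
      (∀ j, C (fl ∅ j) = φ (flp (R c0 A B a b) {j.1} z)) ∧
      (∀ j, C (fl Finset.univ j) = φ (flp (R c0 A B a b) (I \ {j.1}) z)) ∧
      (NoTw φ (R c0 A B a b) I z → ∀ U i j, ¬ Top C U i j) := by
  have h := k.cube (w.cube hI hi)
  refine ⟨_, h, fun _ => rfl, by simp only [im_empty, flp_empty], by simp only [im_univ],
    fun j => by simp only [im_one], fun j => by simp only [im_co], fun nt => h.noTop (S := ∅) ?_⟩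
  rintro i j ⟨n, p, q, r, t⟩
  simp only [im_empty, flp_empty, im_one, im_two n] at t
  exact nt _ i.2 _ j.2 (fun e => n (Subtype.ext e)) p q r t

theorem World.K5 [Finite V] (k : KIso G G' φ ψ) (w : World G c0 A B a b z) {I U : Set V}
    (hI : ∀ v ∈ I, v ∈ A ∨ v ∈ B) (hi : ∀ u ∈ I, ∀ v ∈ I, ¬ G.Adj u v) (hU : U ⊆ I)
    {τ : Set κ'} (h : ∀ t ∈ I, Eqv τ (φ (flp (R c0 A B a b) U z))
      (φ (flp (R c0 A B a b) {v | v ∈ U ↔ v ≠ t} z))) {T : Set V} (hT : T ⊆ I) :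
    Eqv τ (φ (flp (R c0 A B a b) U z)) (φ (flp (R c0 A B a b) T z)) := by
  classical
  have := Fintype.ofFinite I
  obtain ⟨C, hC, e, -⟩ := w.pcube k hI hi
  obtain ⟨S, rfl⟩ := im_surj hU
  obtain ⟨S', rfl⟩ := im_surj hT
  rw [← e, ← e]
  refine hC.K5' (fun i => ?_) S'
  have : im (fl S i) = {v | v ∈ im S ↔ v ≠ i.1} := by ext v; exact mem_im_fl S i v
  rw [e, e, this]
  exact h _ i.2

theorem World.K5e [Finite V] (k : KIso G G' φ ψ) (w : World G c0 A B a b z) {I : Set V}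
    (hI : ∀ v ∈ I, v ∈ A ∨ v ∈ B) (hi : ∀ u ∈ I, ∀ v ∈ I, ¬ G.Adj u v)
    {τ : Set κ'} (h : ∀ t ∈ I, Eqv τ (φ (R c0 A B a b)) (φ (flp (R c0 A B a b) {t} z))) :
    Eqv τ (φ (R c0 A B a b)) (φ (flp (R c0 A B a b) I z)) := by
  have := w.K5 k hI hi (Set.empty_subset I) (τ := τ) (fun t ht => by
    have e : {v : V | v ∈ (∅ : Set V) ↔ v ≠ t} = {t} := by ext v; simp
    rw [e, flp_empty]
    exact h t ht) subset_rfl
  rwa [flp_empty] at this

theorem World.star [Finite V] [Finite V'] [Finite κ'] (k : KIso G G' φ ψ)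
    (w : World G c0 A B a b z) {x : V} (hx : x ∈ A) (nl : NL G B x) :
    ∃ p q r, p ≠ q ∧ p ≠ r ∧ q ≠ r ∧
      Sw (φ (R c0 A B a b)) (φ (flp (R c0 A B a b) {x} z)) p q ∧
      Sw (φ (flp (R c0 A B a b) {x} z)) (φ (st3 G (R c0 A B a b) B x b z)) p r ∧
      (∀ s ∈ Nb G B x, Eqv {p, q, r} (φ (R c0 A B a b)) (φ (flp (R c0 A B a b) {s} z))) ∧
      (NoTw φ (R c0 A B a b) (Nb G B x) z →
        Sw (φ (st3 G (R c0 A B a b) B x b z)) (φ (flp (R c0 A B a b) (Nb G B x) z)) q r ∧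
        (∀ s ∈ Nb G B x, Sw (φ (R c0 A B a b)) (φ (flp (R c0 A B a b) {s} z)) p r) ∧
        (∀ v, φ (R c0 A B a b) v = p → φ (flp (R c0 A B a b) {x} z) v = q →
          ∃ s ∈ Nb G B x, φ (R c0 A B a b) v ≠ φ (flp (R c0 A B a b) {s} z) v) ∧
        (∀ v u, φ (R c0 A B a b) v = q → φ (flp (R c0 A B a b) {x} z) v = p → G'.Adj v u →
          φ (R c0 A B a b) u = r →
          ∃ s ∈ Nb G B x, φ (R c0 A B a b) u ≠ φ (flp (R c0 A B a b) {s} z) u) ∧
        (∀ s ∈ Nb G B x, ∀ u, φ (R c0 A B a b) u ≠ φ (flp (R c0 A B a b) {s} z) u →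
          φ (R c0 A B a b) u = φ (flp (R c0 A B a b) {x} z) u →
          φ (flp (R c0 A B a b) {x} z) u ≠ φ (st3 G (R c0 A B a b) B x b z) u)) := by
  classical
  have := Fintype.ofFinite (Nb G B x)
  have : Nontrivial (Nb G B x) := by
    obtain ⟨s, s', n, h1, h2⟩ := nl
    exact ⟨⟨s, h1⟩, ⟨s', h2⟩, fun e => n (congrArg Subtype.val e)⟩
  obtain ⟨C, hC, eT, e0, e1, ej, ej', nt⟩ := w.pcube k (I := Nb G B x) (fun _ h => Or.inr h.1)
    (fun u hu v hv => w.indB u v hu.1 hv.1)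
  have := w.ab; have := w.az; have := w.bz; have := w.disj
  have kM := w.k1 (Or.inl hx)
  have kf := w.k23 hx
  have ke := w.k31 hx
  have M := k.k _ _ kM
  have f := k.k _ _ kf
  have e := k.k _ _ ke
  obtain ⟨p, q, r, pq, pr, qr, sM, sf⟩ := L1 M.symm f
    (k.ne kM.pc kf.pd (ne_of_at x (by unfold st3; grind))) (k.only kM.pc kf.pd (w.o03 hx nl))
  obtain ⟨p', q', r', pq', pr', qr', sf', se⟩ := L1 f.symm e
    (k.ne kM.pd ke.pd (ne_of_at x (by grind))) (k.only kM.pd ke.pd (w.o12 hx nl).swap)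
  have hp' := (sf.symm.in_iff f.symm.ne p').1 ((sf'.in_iff f.symm.ne p').2 (Or.inl rfl))
  have hq' := (sf.symm.in_iff f.symm.ne q').1 ((sf'.in_iff f.symm.ne q').2 (Or.inr rfl))
  have hr' : r' ≠ p ∧ r' ≠ r := by grind
  have se' : ¬ Sw (φ (st3 G (R c0 A B a b) B x b z)) (φ (flp (R c0 A B a b) (Nb G B x) z)) p r :=
    fun s => by
      have := (s.in_iff e.ne r').1 ((se.in_iff e.ne r').2 (Or.inr rfl))
      grind
  have n2 : ∀ j, φ (flp (R c0 A B a b) {x} z) ≠ C (fl ∅ j) := fun j => by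
    rw [ej]; exact k.ne kM.pd (w.p1 (Or.inr j.2.1)) (w.n2 hx j.2.1).1
  have rq : r' = q := by
    by_contra rq
    have ne : ¬ In (φ (st3 G (R c0 A B a b) B x b z))
        (φ (flp (R c0 A B a b) (Nb G B x) z)) q := fun z => by
      have := sw_iff.1 se q z
      grind
    have nf : ¬ In (φ (flp (R c0 A B a b) {x} z)) (φ (st3 G (R c0 A B a b) B x b z)) q :=
      fun z => by
        have := sw_iff.1 sf q z
        grind
    obtain ⟨g, T, gq, -, sT⟩ := hC.star_tri (e0 ▸ M) n2 pq pr hr'.1.symm qr (Ne.symm rq)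
      hr'.2.symm (e0 ▸ sM.symm) (by rw [e1]; exact fun z => z.trans.elim nf ne)
      (by
        rw [e0, e1]
        intro y hy
        rcases hy.trans with h1 | h1
        · have := sw_iff.1 sM.symm y h1; grind
        · rcases h1.trans with h2 | h2
          · have := sw_iff.1 sf y h2; grind
          · have := sw_iff.1 se y h2; grind)
      (by
        intro t h1 h2
        rw [mem_LS, e0, ej] at h1 h2
        rw [mem_LS, e1, ej']
        have kt := w.k1 (Or.inr t.2.1)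
        obtain ⟨g, g1, g2, g3, g4⟩ := comm_disj M (k.k _ _ kt) (fun y hy => by
          rcases sw_iff.1 sM.symm y hy with rfl | rfl <;> assumption)
        have a1 := k.k' _ _ g1
        have a2 := k.k' _ _ g2
        rw [k.l _ kM.pd] at a1
        rw [k.l _ kt.pd] at a2
        rcases w.adj_sq hx nl t.2 a1 a2 with y | ⟨y, lf⟩
        · exact (g3 (by rw [← y, k.r _ g1.pd])).elim
        · have y' : g = φ (flp (flp (R c0 A B a b) {x} z) {t.1} a) := by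
            rw [← y, k.r _ g1.pd]
          have b1 := (k.isq (w.sq2 hx t.2 lf)).swap.avoid (y' ▸ fun z => h2 (g4 _ z)) nf
          exact (k.isq (w.sq3 hx t.2 lf)).avoid b1 ne)
    have pT : Proper G' (C T) := hC.proper T (Classical.arbitrary _)
    have := Fintype.ofFinite (SwI G' (φ (flp (R c0 A B a b) {x} z)) (C T) p g)
    obtain ⟨Q, hQ, q0, q1, qi⟩ := cube_of_sw M.pd pT sT
    obtain ⟨t1, i, t2⟩ := w.pb hx (im_sub T) (k.symm.cube hQ) (by rw [q0, k.l _ kM.pd])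
      (by rw [q1, eT, k.l _ (w.pN fun _ h => (im_sub T h).1)])
      (fun i y => by
        have y' : Q (fl ∅ i) = φ (R c0 A B a b) :=
          (k.r _ (hQ.adj _ _).pd).symm.trans (congrArg φ y)
        have := (sM.in_iff M.symm.ne g).1 (((y' ▸ qi i).in_iff M.symm.ne g).2 (Or.inr rfl))
        have := (y' ▸ qi i).ne M.symm.ne
        grind)
    have y' : Q (fl ∅ i) = φ (st3 G (R c0 A B a b) B x b z) :=
      (k.r _ (hQ.adj _ _).pd).symm.trans (congrArg φ t2)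
    rw [eT, t1] at sT
    have := (sf.in_iff f.ne g).1 (((y' ▸ qi i).in_iff f.ne g).2 (Or.inr rfl))
    have := (y' ▸ qi i).ne f.ne
    have gr : g = r := by grind
    exact se' (sf.symm.trans (gr ▸ sT))
  have ee : Eqv {p, q, r} (φ (st3 G (R c0 A B a b) B x b z))
      (φ (flp (R c0 A B a b) (Nb G B x) z)) := se.eqv (by grind) (by grind)
  refine ⟨p, q, r, pq, pr, qr, sM.symm, sf, fun s hs => ?_, fun ntw => ?_⟩
  · have := hC.K4' (τ := {p, q, r}) (S := ∅) (by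
      rw [Finset.compl_empty, e0, e1]
      exact ((sM.symm.eqv (by simp) (by simp)).trans (sf.eqv (by simp) (by simp))).trans ee)
      (fl ∅ ⟨s, hs⟩)
    rwa [e0, ej] at this
  · obtain ⟨r1, r2, r3, r4, r5⟩ := hC.star_cm (nt ntw) (e0 ▸ M) f (e1 ▸ e) pq pr qr
      (e0 ▸ sM.symm) sf (e1 ▸ ee) (e1 ▸ se') n2
      (fun j => by rw [ej]; exact k.nka kM.pd (w.p1 (Or.inr j.2.1)) (w.n2 hx j.2.1).2)
      (fun j => by rw [ej']; exact k.ne kf.pd (w.pN fun _ h => h.1.1) (w.n3 hx j.2).1)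
      (fun j => by rw [ej']; exact k.nka kf.pd (w.pN fun _ h => h.1.1) (w.n3 hx j.2).2)
    simp only [mem_HS, e0, e1, ej] at r1 r2 r3 r4 r5
    refine ⟨r1, fun s hs => r2 ⟨s, hs⟩, fun v h1 h2 => ?_, fun v u h1 h2 h3 h4 => ?_,
      fun s hs => r5 ⟨s, hs⟩⟩
    · obtain ⟨j, hj⟩ := r3 v h1 h2
      exact ⟨j.1, j.2, hj⟩
    · obtain ⟨j, hj⟩ := r4 v u h1 h2 h3 h4
      exact ⟨j.1, j.2, hj⟩

end Pool.Agent.Kempe5e
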