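import Pool.Agent.Lib.MP_5e5661.Tau

/-! One set of three colours serves all six colourings of a world. -/

namespace Pool.Agent.Kempe5e

variable {V κ V' κ' : Type*} {G : SimpleGraph V} {G' : SimpleGraph V'}
  {φ : (V → κ) → (V' → κ')} {ψ : (V' → κ') → (V → κ)}
  {c0 : V → κ} {A B : Set V} {a b z : κ} {τ τ' : Set κ'}

structure TT (φ : (V → κ) → (V' → κ')) (G : SimpleGraph V) (c : V → κ) (B : Set V) (x : V)
    (b z : κ) (τ : Set κ') : Prop where
  m : Eqv τ (φ c) (φ (flp c {x} z))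
  f : Eqv τ (φ c) (φ (st3 G c B x b z))
  s : ∀ s ∈ Nb G B x, Eqv τ (φ c) (φ (flp c {s} z))

structure G3 (φ : (V → κ) → (V' → κ')) (G : SimpleGraph V) (c0 : V → κ) (A B : Set V)
    (a b z : κ) (τ : Set κ') : Prop where
  tri : Tri τ
  ta : ∀ x ∈ A, NL G B x → TT φ G (R c0 A B a b) B x b z τ
  tb : ∀ s ∈ B, NL G A s → TT φ G (R c0 A B a b) A s a z τ
  good : ∀ v, v ∈ A ∨ v ∈ B → Eqv τ (φ (R c0 A B a b)) (φ (flp (R c0 A B a b) {v} z))

theorem G3.swap (w : World G c0 A B a b z) (g : G3 φ G c0 A B a b z τ) :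
    G3 φ G c0 B A b a z τ := by
  refine ⟨g.tri, ?_, ?_, ?_⟩ <;> rw [w.R_swap]
  exacts [g.tb, g.ta, fun v hv => g.good v hv.symm]

variable [Finite V] [Finite V'] [Finite κ']

theorem World.exTT (k : KIso G G' φ ψ) (w : World G c0 A B a b z) {x : V} (hx : x ∈ A)
    (nl : NL G B x) : ∃ τ, Tri τ ∧ TT φ G (R c0 A B a b) B x b z τ := by
  obtain ⟨p, q, r, pq, pr, qr, s1, s2, s3, -⟩ := w.star k hx nl
  have e : Eqv {p, q, r} _ _ := s1.eqv (by simp) (by simp)
  exact ⟨{p, q, r}, ⟨p, q, r, pq, pr, qr, rfl⟩, e, e.trans (s2.eqv (by simp) (by simp)), s3⟩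

theorem World.stepTT (k : KIso G G' φ ψ) (w : World G c0 A B a b z) {x s : V} (hx : x ∈ A)
    (nl : NL G B x) (hs : s ∈ Nb G B x) (nl' : NL G A s) (t : Tri τ)
    (h : TT φ G (R c0 A B a b) B x b z τ) : TT φ G (R c0 A B a b) A s a z τ := by
  obtain ⟨τ', t', h'⟩ := w.swap.exTT k hs.1 nl'
  rw [w.R_swap] at h'
  have k1 := k.k _ _ (w.k1 (Or.inl hx))
  have k2 := k.k _ _ (w.k1 (Or.inr hs.1))
  obtain ⟨p, q, r, pq, pr, qr, s1, s2⟩ := L1 k1 k2
    (k.ne (w.p1 (Or.inl hx)) (w.p1 (Or.inr hs.1)) (w.n2 hx hs.1).1)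
    (k.only (w.p1 (Or.inl hx)) (w.p1 (Or.inr hs.1)) fun e e1 e2 =>
      Or.inl ((w.adj_sq hx nl hs e1 e2).resolve_right fun y => y.2 nl'))
  have a1 := s1.mem k1 h.m
  have a2 := s2.mem k2 (h.s s hs)
  have a3 := s1.mem k1 (h'.s x ⟨hx, hs.2.symm⟩)
  have a4 := s2.mem k2 h'.m
  rwa [t.eq pq pr qr a1.1 a1.2 a2.2, ← t'.eq pq pr qr a3.1 a3.2 a4.2]

theorem World.exG3 (k : KIso G G' φ ψ) (w : World G c0 A B a b z) {x0 : V} (hx0 : x0 ∈ A)
    (nl0 : NL G B x0) : ∃ τ, G3 φ G c0 A B a b z τ := by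
  obtain ⟨τ, t, h0⟩ := w.exTT k hx0 nl0
  let gd : V → Prop := fun v => (v ∈ A ∧ NL G B v ∧ TT φ G (R c0 A B a b) B v b z τ) ∨
    (v ∈ B ∧ NL G A v ∧ TT φ G (R c0 A B a b) A v a z τ)
  have sA : ∀ u v, gd u → G.Adj u v → v ∈ A → NL G B v → TT φ G (R c0 A B a b) B v b z τ := by
    rintro u v (⟨h1, -, -⟩ | ⟨h1, h2, h3⟩) hadj hv nl
    · exact (w.indA u v h1 hv hadj).elim
    · have := w.swap.stepTT k h1 h2 ⟨hv, hadj⟩ nl t (by rwa [w.R_swap])
      rwa [w.R_swap] at this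
  have sB : ∀ u v, gd u → G.Adj u v → v ∈ B → NL G A v → TT φ G (R c0 A B a b) A v a z τ := by
    rintro u v (⟨h1, h2, h3⟩ | ⟨h1, -, -⟩) hadj hv nl
    · exact w.stepTT k h1 h2 ⟨hv, hadj⟩ nl t h3
    · exact (w.indB u v h1 hv hadj).elim
  have Q : ∀ v ∈ A ∪ B, gd v ∨ ∃ u, gd u ∧ G.Adj u v := by
    refine w.conn.sub (P := {v | gd v ∨ ∃ u, gd u ∧ G.Adj u v}) (Or.inl hx0)
      (Or.inl (Or.inl ⟨hx0, nl0, h0⟩)) fun v hv y hy hadj pv => ?_
    rcases pv with g | ⟨u, g, hu⟩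
    · exact Or.inr ⟨v, g, hadj⟩
    · rcases hv with hv | hv
      · by_cases nl : NL G B v
        · exact Or.inr ⟨v, Or.inl ⟨hv, nl, sA u v g hu hv nl⟩, hadj⟩
        · have uB : u ∈ B := g.elim (fun z => (w.indA u v z.1 hv hu).elim) (fun z => z.1)
          have yB : y ∈ B := hy.elim (fun z => (w.indA v y hv z hadj).elim) id
          rw [leaf_eq uB hu nl y yB hadj.symm]
          exact Or.inl g
      · by_cases nl : NL G A v
        · exact Or.inr ⟨v, Or.inr ⟨hv, nl, sB u v g hu hv nl⟩, hadj⟩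
        · have uB : u ∈ A := g.elim (fun z => z.1) (fun z => (w.indB u v z.1 hv hu).elim)
          have yB : y ∈ A := hy.elim id (fun z => (w.indB v y hv z hadj).elim)
          rw [leaf_eq uB hu nl y yB hadj.symm]
          exact Or.inl g
  refine ⟨τ, t, fun x hx nl => ?_, fun x hx nl => ?_, fun v hv => ?_⟩
  · rcases Q x (Or.inl hx) with (g | g) | ⟨u, g, hu⟩
    · exact g.2.2
    · exact (w.disj x hx g.1).elim
    · exact sA u x g hu hx nl
  · rcases Q x (Or.inr hx) with (g | g) | ⟨u, g, hu⟩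
    · exact (w.disj x g.1 hx).elim
    · exact g.2.2
    · exact sB u x g hu hx nl
  · rcases Q v hv with (g | g) | ⟨u, g | g, hu⟩
    · exact g.2.2.m
    · exact g.2.2.m
    · exact g.2.2.s v ⟨hv.elim (fun z => (w.indA u v g.1 z hu).elim) id, hu⟩
    · exact g.2.2.s v ⟨hv.elim id (fun z => (w.indB u v g.1 z hu).elim), hu⟩

omit [Finite V'] [Finite κ'] in
theorem G3.flB (k : KIso G G' φ ψ) (w : World G c0 A B a b z) (g : G3 φ G c0 A B a b z τ)
    {T : Set V} (hT : T ⊆ B) : Eqv τ (φ (R c0 A B a b)) (φ (flp (R c0 A B a b) T z)) :=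
  w.K5e k (fun _ h => Or.inr (hT h)) (fun u hu v hv => w.indB u v (hT hu) (hT hv))
    fun t ht => g.good t (Or.inr (hT ht))

omit [Finite V'] [Finite κ'] in
theorem G3.flA (k : KIso G G' φ ψ) (w : World G c0 A B a b z) (g : G3 φ G c0 A B a b z τ)
    {T : Set V} (hT : T ⊆ A) : Eqv τ (φ (R c0 A B a b)) (φ (flp (R c0 A B a b) T z)) :=
  w.K5e k (fun _ h => Or.inl (hT h)) (fun u hu v hv => w.indA u v (hT hu) (hT hv))
    fun t ht => g.good t (Or.inl (hT ht))

omit [Finite V] [Finite V'] [Finite κ'] in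
theorem World.indI (w : World G c0 A B a b z) {x : V} (hx : x ∈ A) :
    (∀ v ∈ insert x (B \ Nb G B x), v ∈ A ∨ v ∈ B) ∧
    ∀ u ∈ insert x (B \ Nb G B x), ∀ v ∈ insert x (B \ Nb G B x), ¬ G.Adj u v := by
  refine ⟨by grind, fun u hu v hv h => ?_⟩
  have := w.indB u v
  have := h.ne
  have := h.symm
  grind

omit [Finite V] [Finite V'] [Finite κ'] in
theorem World.span (k : KIso G G' φ ψ) (w : World G c0 A B a b z) {x : V} (hx : x ∈ A)
    (nl : NL G B x) (t : Tri τ) (t' : Tri τ')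
    (m : Eqv τ (φ (R c0 A B a b)) (φ (flp (R c0 A B a b) {x} z)))
    (f : Eqv τ (φ (R c0 A B a b)) (φ (st3 G (R c0 A B a b) B x b z)))
    (m' : Eqv τ' (φ (R c0 A B a b)) (φ (flp (R c0 A B a b) {x} z)))
    (f' : Eqv τ' (φ (R c0 A B a b)) (φ (st3 G (R c0 A B a b) B x b z))) : τ = τ' := by
  have := w.ab; have := w.az; have := w.bz; have := w.disj
  have kM := w.k1 (Or.inl hx)
  have kf := w.k23 hx
  have M := (k.k _ _ kM).symm
  have F := k.k _ _ kf
  obtain ⟨p, q, r, pq, pr, qr, s1, s2⟩ := L1 M F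
    (k.ne kM.pc kf.pd (ne_of_at x (by unfold st3; grind))) (k.only kM.pc kf.pd (w.o03 hx nl))
  have a1 := s1.mem M m.symm
  have a2 := s2.mem F (m.symm.trans f)
  have a3 := s1.mem M m'.symm
  have a4 := s2.mem F (m'.symm.trans f')
  rw [t.eq pq pr qr a1.1 a1.2 a2.2, ← t'.eq pq pr qr a3.1 a3.2 a4.2]

omit [Finite V'] [Finite κ'] in
theorem World.acrossB (k : KIso G G' φ ψ) (w : World G c0 A B a b z) {x : V} (hx : x ∈ A)
    (nl : NL G B x) (g : G3 φ G c0 A B a z b τ) (g' : G3 φ G c0 A B a b z τ') : τ = τ' := by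
  have := w.ab; have := w.az; have := w.bz; have := w.disj
  obtain ⟨i1, i2⟩ := w.indI hx
  have e1 : Eqv τ (φ (R c0 A B a z)) (φ (R c0 A B a b)) := by
    have := g.flB k w.pB subset_rfl
    rwa [show flp (R c0 A B a z) B b = R c0 A B a b by funext v; grind] at this
  have e2 : Eqv τ (φ (R c0 A B a z)) (φ (st3 G (R c0 A B a b) B x b z)) := by
    have := w.pB.K5e k i1 i2 (τ := τ) fun t ht => g.good t (i1 t ht)
    rwa [show flp (R c0 A B a z) (insert x (B \ Nb G B x)) b = st3 G (R c0 A B a b) B x b z by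
      funext v; unfold st3; grind] at this
  have e3 : Eqv τ (φ (R c0 A B a z)) (φ (flp (R c0 A B a b) (B \ Nb G B x) z)) := by
    have := g.flB k w.pB (T := Nb G B x) fun _ h => h.1
    rwa [show flp (R c0 A B a z) (Nb G B x) b = flp (R c0 A B a b) (B \ Nb G B x) z by
      funext v; grind] at this
  have e4 := w.K5 k i1 i2 (U := B \ Nb G B x) (Set.subset_insert _ _) (τ := τ) (fun t ht => by
    refine e3.symm.trans ?_
    rcases ht with rfl | ht
    · have := (g.ta t hx nl).f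
      rwa [show st3 G (R c0 A B a z) B t z b =
        flp (R c0 A B a b) {v | v ∈ B \ Nb G B t ↔ v ≠ t} z by
          funext v; unfold st3; grind] at this
    · have := g.flB k w.pB (T := insert t (Nb G B x)) (by intro v hv; grind)
      rwa [show flp (R c0 A B a z) (insert t (Nb G B x)) b =
        flp (R c0 A B a b) {v | v ∈ B \ Nb G B x ↔ v ≠ t} z by
          funext v; grind] at this) (T := {x}) (by simp)
  exact w.span k hx nl g.tri g'.tri (e1.symm.trans (e3.trans e4)) (e1.symm.trans e2)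
    (g'.ta x hx nl).m (g'.ta x hx nl).f

theorem World.acrossS (k : KIso G G' φ ψ) (w : World G c0 A B a b z) {x : V} (hx : x ∈ A)
    (nl : NL G B x) (lf : ∀ s ∈ B, ¬ NL G A s) (g : G3 φ G c0 A B a b z τ)
    (g' : G3 φ G c0 A B z b a τ') : τ = τ' := by
  have := w.ab; have := w.az; have := w.bz; have := w.disj
  have hA : ∀ v ∈ A, v = x := by
    have := w.conn.sub (P := {v | v = x ∨ v ∈ Nb G B x}) (Or.inl hx) (Or.inl rfl)
      (fun u hu y hy hadj pu => by
        rcases pu with rfl | pu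
        · exact Or.inr ⟨hy.elim (fun z => (w.indA u y hx z hadj).elim) id, hadj⟩
        · exact Or.inl (leaf_eq hx pu.2 (lf u pu.1) y
            (hy.elim id fun z => (w.indB u y pu.1 z hadj).elim) hadj.symm))
    intro v hv
    exact (this v (Or.inl hv)).resolve_right fun y => w.disj v hv y.1
  have e1 : R c0 A B z b = flp (R c0 A B a b) {x} z := by funext v; grind
  have e2 : flp (R c0 A B z b) {x} a = R c0 A B a b := by funext v; grind
  obtain ⟨p, q, r, pq, pr, qr, s1, s2, -, s4⟩ := w.pA.star k hx nl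
  have t' := g'.ta x hx nl
  have k1 := k.k _ _ (w.pA.k1 (Or.inl hx))
  have k2 := k.k _ _ (w.pA.k23 hx)
  have a1 := s1.mem k1 t'.m
  have a2 := s2.mem k2 (t'.m.symm.trans t'.f)
  have a3 := s1.mem k1 (by rw [e2, e1]; exact (g.good x (Or.inl hx)).symm)
  have et := g'.tri.eq pq pr qr a1.1 a1.2 a2.2
  by_cases hr : r ∈ τ
  · rw [et, g.tri.eq pq pr qr a3.1 a3.2 hr]
  exfalso
  have sw : ∀ s ∈ Nb G B x, Sw (φ (R c0 A B z b)) (φ (flp (R c0 A B z b) {s} a)) p q := by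
    intro s hs
    have b1 := (g.good x (Or.inl hx)).symm.trans ((k.isq (w.sq1 hx hs (lf s hs.1))).eqv
      (g.good x (Or.inl hx)) (g.good s (Or.inr hs.1)))
    rw [← e1] at b1
    have b2 := t'.s s hs
    refine sw_iff.2 fun y hy => ?_
    have := eqv_iff.1 b1 y hy
    have := eqv_iff.1 b2 y hy
    grind
  obtain ⟨-, s5, -⟩ := s4 fun s hs s' hs' _ p' q' r' t => by
    have n1 := (k.k _ _ (w.pA.k1 (Or.inr hs.1))).ne
    have n2 := (k.k _ _ (w.pA.k1 (Or.inr hs'.1))).ne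
    have := ((sw s hs).in_iff n1 p').1 ((t.l01.in_iff n1 p').2 (Or.inl rfl))
    have := ((sw s hs).in_iff n1 q').1 ((t.l01.in_iff n1 q').2 (Or.inr rfl))
    have := ((sw s' hs').in_iff n2 r').1 ((t.l02.in_iff n2 r').2 (Or.inr rfl))
    have := t.ab; have := t.ad; have := t.bd
    grind
  obtain ⟨s, -, -, hs, -⟩ := nl
  have n1 := (k.k _ _ (w.pA.k1 (Or.inr hs.1))).ne
  have := ((sw s hs).in_iff n1 r).1 (((s5 s hs).in_iff n1 r).2 (Or.inr rfl))
  grind

/-- some vertex of the world has two neighbours in it -/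
def NLW (G : SimpleGraph V) (A B : Set V) : Prop := (∃ x ∈ A, NL G B x) ∨ ∃ s ∈ B, NL G A s

theorem World.exG3' (k : KIso G G' φ ψ) (w : World G c0 A B a b z) (n : NLW G A B) :
    ∃ τ, G3 φ G c0 A B a b z τ := by
  rcases n with ⟨x, hx, nl⟩ | ⟨x, hx, nl⟩
  · exact w.exG3 k hx nl
  · obtain ⟨τ, g⟩ := w.swap.exG3 k hx nl
    exact ⟨τ, g.swap w.swap⟩

theorem World.eqB (k : KIso G G' φ ψ) (w : World G c0 A B a b z) (n : NLW G A B)
    (g : G3 φ G c0 A B a b z τ) (g' : G3 φ G c0 A B a z b τ') : τ = τ' := by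
  by_cases h : ∃ x ∈ A, NL G B x
  · obtain ⟨x, hx, nl⟩ := h
    exact (w.acrossB k hx nl g' g).symm
  · obtain ⟨x, hx, nl⟩ := n.resolve_left h
    push Not at h
    exact w.swap.acrossS k hx nl h (g.swap w) (g'.swap w.pB)

theorem G3.pB (k : KIso G G' φ ψ) (w : World G c0 A B a b z) (n : NLW G A B)
    (g : G3 φ G c0 A B a b z τ) : G3 φ G c0 A B a z b τ := by
  obtain ⟨τ', g'⟩ := w.pB.exG3' k n
  rwa [w.eqB k n g g']

theorem G3.pA (k : KIso G G' φ ψ) (w : World G c0 A B a b z) (n : NLW G A B)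
    (g : G3 φ G c0 A B a b z τ) : G3 φ G c0 A B z b a τ :=
  ((g.swap w).pB k w.swap n.symm).swap w.swap.pB

omit [Finite V'] [Finite κ'] in
theorem G3.eB (k : KIso G G' φ ψ) (w : World G c0 A B a b z) (g : G3 φ G c0 A B a b z τ) :
    Eqv τ (φ (R c0 A B a b)) (φ (R c0 A B a z)) := by
  have := w.disj
  have := g.flB k w subset_rfl
  rwa [show flp (R c0 A B a b) B z = R c0 A B a z by funext v; grind] at this

omit [Finite V'] [Finite κ'] in
theorem G3.eA (k : KIso G G' φ ψ) (w : World G c0 A B a b z) (g : G3 φ G c0 A B a b z τ) :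
    Eqv τ (φ (R c0 A B a b)) (φ (R c0 A B z b)) := by
  have := g.flA k w subset_rfl
  rwa [show flp (R c0 A B a b) A z = R c0 A B z b by funext v; grind] at this

end Pool.Agent.Kempe5e
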