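import Pool.Agent.Lib.MP_5e5661.Labels

/-! The image of a world is a world. -/

namespace Pool.Agent.Kempe5e

variable {V κ V' κ' : Type*} {G : SimpleGraph V} {G' : SimpleGraph V'}
  {φ : (V → κ) → (V' → κ')} {ψ : (V' → κ') → (V → κ)}
  {c0 : V → κ} {A B : Set V} {a b z : κ} {τ : Set κ'}

structure WR (φ : (V → κ) → (V' → κ')) (G : SimpleGraph V) (G' : SimpleGraph V') (c n : V → κ)
    (A B : Set V) (z : κ) (o t h : κ') : Prop where
  ot : o ≠ t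
  oh : o ≠ h
  th : t ≠ h
  la : Lab φ c A z o t
  lb : Lab φ c B z o h
  ln : Sw (φ c) (φ n) t h
  io : ∀ v, φ c v = o →
    ((∃ x ∈ A, φ c v ≠ φ (flp c {x} z) v) ↔ ∃ x ∈ B, φ c v ≠ φ (flp c {x} z) v)
  it : ∀ v, φ c v = t → ((∃ x ∈ A, φ c v ≠ φ (flp c {x} z) v) ↔ φ c v ≠ φ n v)
  ih : ∀ v, φ c v = h → ((∃ x ∈ B, φ c v ≠ φ (flp c {x} z) v) ↔ φ c v ≠ φ n v)
  te : ∀ x ∈ A, ∀ s ∈ B, ¬ G.Adj x s → ∀ v u, φ c v ≠ φ (flp c {x} z) v →
    φ c u ≠ φ (flp c {s} z) u → v ≠ u ∧ ¬ G'.Adj v u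

theorem k33 {e0 e1 e2 o1 o2 o3 : V' → κ'} (n : e1 ≠ e2)
    (q1 : ISq G' e0 o1 o2 e1) (q2 : ISq G' e0 o1 o2 e2) (q3 : ISq G' e0 o1 o3 e1)
    (q4 : ISq G' e0 o1 o3 e2) (q5 : ISq G' e0 o2 o3 e1) (q6 : ISq G' e0 o2 o3 e2) :
    ∃ o t h, o ≠ t ∧ o ≠ h ∧ t ≠ h ∧ Sw e0 o1 o t ∧ Sw e0 o2 o h ∧ Sw e0 o3 t h ∧
      (∀ v, e0 v = o → (e0 v ≠ o1 v ↔ e0 v ≠ o2 v)) ∧
      (∀ v, e0 v = t → (e0 v ≠ o1 v ↔ e0 v ≠ o3 v)) ∧
      (∀ v, e0 v = h → (e0 v ≠ o2 v ↔ e0 v ≠ o3 v)) := by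
  obtain ⟨a, b, d, n1, n2, n3, s1, s2, i1, j1, l1⟩ := k33_pair q1 q2 n
  obtain ⟨a', b', d', n1', n2', n3', s1', s2', i2, j2, -⟩ := k33_pair q3 q4 n
  obtain ⟨a2, b2, d2, m1, m2, m3, t1, t2, i3, j3, -⟩ := k33_pair q5 q6 n
  obtain ⟨a4, b4, d4, r1, r2, r3, u1, u2, -, j4, l4⟩ := k33_pair q1.swap q2.swap n
  have e1' := s1.same s1' q1.h01
  have e2' := s2.same t1 q1.h02
  have e3' := s2'.same t2 q3.h02
  have e4' := s2.same u1 q1.h02
  have e5' := s1.same u2 q1.h01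
  by_cases e : a' = b
  · obtain ⟨rfl, rfl, rfl⟩ : a' = b ∧ a2 = d ∧ d' = d := by grind
    exact ⟨a, _, _, n1, n2, n3, s1, s2, s2', i1, i2, i3⟩
  · exfalso
    have mA : ∀ v, e0 v ≠ o1 v → e0 v = a := fun v hv => by
      have := s1.or v; have := j1 v; have := l1 v; have := j2 v; grind
    have mB : ∀ v, e0 v ≠ o2 v → e0 v = a := fun v hv => by
      have := s2.or v; have := j4 v; have := l4 v; have := j3 v; grind
    obtain ⟨v, hv⟩ := q1.h01.ne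
    rcases eq_or_KA q1.h01.pd q1.h02.pd (q1.h01.mono mA hv)
      (q1.h02.mono mB ((i1 v (mA v hv)).1 hv)) with y | y
    exacts [q1.n12 y, q1.m12 y]

theorem World.wr1 (k : KIso G G' φ ψ) (w : World G c0 A B a b z) {u : V} (hu : u ∈ A)
    (hB : ∀ s, s ∉ B) : ∃ o t h, WR φ G G' (R c0 A B a b) (R c0 A B b a) A B z o t h := by
  have := w.ab; have := w.az; have := w.bz
  have hA : ∀ v ∈ A, v = u := fun v hv => by
    by_contra n
    obtain ⟨x, hx, y, hy, hadj, -⟩ := w.conn.cross (P := {u}) (Or.inl hu) (Or.inl hv) rfl n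
    exact w.indA x y (hx.resolve_right (hB x)) (hy.resolve_right (hB y)) hadj
  have k1 := w.k1 (Or.inl hu)
  have k2 := w.nu (Or.inl hu)
  have k3 : KA G (flp (R c0 A B a b) {u} z) (R c0 A B b a) :=
    KA.single k1.pd k2.pd (v := u) (by grind) (by grind)
  have K1 := k.k _ _ k1
  have K2 := k.k _ _ k2
  have K3 := k.k _ _ k3
  obtain ⟨v, h1, h2⟩ := K1.tri K2 K3
  obtain ⟨v1, g1⟩ := K1.ne
  obtain ⟨v2, g2⟩ := K2.ne
  obtain ⟨v3, g3⟩ := K3.ne
  obtain rfl : v1 = v := by grind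
  obtain rfl : v2 = v1 := by grind
  obtain rfl : v3 = v2 := by grind
  refine ⟨_, _, _, g1.symm, g3, g2, fun x hx => hA x hx ▸ (K1.swat g1).swap,
    fun s hs => (hB s hs).elim, K2.swat g2, fun v hv => ?_, fun v hv => ?_, fun v hv => ?_,
    fun _ _ s hs => (hB s hs).elim⟩
  · constructor
    · rintro ⟨x, hx, e⟩
      rw [hA x hx] at e
      grind
    · rintro ⟨x, hx, -⟩
      exact (hB x hx).elim
  · constructor
    · rintro ⟨x, hx, e⟩
      rw [hA x hx] at e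
      grind
    · exact fun e => ⟨u, hu, by grind⟩
  · constructor
    · rintro ⟨x, hx, -⟩
      exact (hB x hx).elim
    · grind

theorem World.wr2 (k : KIso G G' φ ψ) (w : World G c0 A B a b z) {x s : V} (hx : x ∈ A)
    (hs : s ∈ B) (n : ¬ NLW G A B) :
    ∃ o t h, WR φ G G' (R c0 A B a b) (R c0 A B b a) A B z o t h := by
  have := w.ab; have := w.az; have := w.bz; have := w.disj
  have l1 : ∀ y ∈ A, ¬ NL G B y := fun y hy e => n (Or.inl ⟨y, hy, e⟩)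
  have l2 : ∀ y ∈ B, ¬ NL G A y := fun y hy e => n (Or.inr ⟨y, hy, e⟩)
  obtain ⟨x', -, s', hs', hadj, rfl, -⟩ :=
    w.conn.cross (P := {x}) (Or.inl hx) (Or.inr hs) rfl (by grind)
  have sB : s' ∈ B := hs'.elim (fun y => (w.indA _ _ hx y hadj).elim) id
  have all := w.conn.sub (P := {v | v = x' ∨ v = s'}) (Or.inl hx) (Or.inl rfl)
    fun p hp q hq h pp => by
      rcases pp with rfl | rfl
      · exact Or.inr (leaf_eq sB hadj.symm (l1 p hx) q
          (hq.elim (fun y => (w.indA p q hx y h).elim) id) h.symm)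
      · exact Or.inl (leaf_eq hx hadj (l2 p sB) q
          (hq.elim id fun y => (w.indB p q sB y h).elim) h.symm)
  have hA : ∀ v ∈ A, v = x' := fun v hv => by have := all v (Or.inl hv); grind
  have hB : ∀ v ∈ B, v = s' := fun v hv => by have := all v (Or.inr hv); grind
  have kA : ∀ {a b z : κ}, World G c0 A B a b z → KA G (R c0 A B a b) (R c0 A B z b) := by
    intro a b z w
    have := w.k1 (Or.inl hx)
    rwa [show flp (R c0 A B a b) {x'} z = R c0 A B z b by funext v; grind] at this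
  have kB : ∀ {a b z : κ}, World G c0 A B a b z → KA G (R c0 A B a b) (R c0 A B a z) := by
    intro a b z w
    have := w.k1 (Or.inr sB)
    rwa [show flp (R c0 A B a b) {s'} z = R c0 A B a z by funext v; grind] at this
  have kN : ∀ {a b z : κ}, World G c0 A B a b z → KA G (R c0 A B a b) (R c0 A B b a) :=
    fun w => w.nu (Or.inl hx)
  have nk : ∀ {a b z : κ}, World G c0 A B a b z →
      R c0 A B a b ≠ R c0 A B z a ∧ ¬ KA G (R c0 A B a b) (R c0 A B z a) := by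
    intro a b z w
    have := w.ab; have := w.az; have := w.bz
    exact ⟨ne_of_at x' (by grind), nka3 x' s' (by grind) (by grind) (by grind)⟩
  have w1 := w.pA
  have w2 := w.pB
  have w3 := w.rot.pB
  have w4 := w.rot
  have w5 := w.pA.pB
  have n4 : R c0 A B a b ≠ R c0 A B b z ∧ ¬ KA G (R c0 A B a b) (R c0 A B b z) :=
    ⟨(nk w4).1.symm, fun y => (nk w4).2 y.symm⟩
  have n3 : R c0 A B z b ≠ R c0 A B b a ∧ ¬ KA G (R c0 A B z b) (R c0 A B b a) :=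
    ⟨(nk w3.rot.rot.rot).1.symm, fun y => (nk w3).2 y.symm⟩
  obtain ⟨o, t, h, a1, a2, a3, s1, s2, s3, i1, i2, i3⟩ := k33
    (k.ne w5.pR w4.pR (nk w5).1)
    (k.isq ⟨kA w, kB w, kB w1, kN w2, (nk w1).1, (nk w1).2, (nk w).1, (nk w).2⟩)
    (k.isq ⟨kA w, kB w, kN w1, kA w2, (nk w1).1, (nk w1).2, n4.1, n4.2⟩)
    (k.isq ⟨kA w, kN w, kB w1, kA w3, n3.1, n3.2, (nk w).1, (nk w).2⟩)
    (k.isq ⟨kA w, kN w, kN w1, kB w3, n3.1, n3.2, n4.1, n4.2⟩)
    (k.isq ⟨kB w, kN w, kN w2, kA w3, (nk w2).1, (nk w2).2, (nk w).1, (nk w).2⟩)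
    (k.isq ⟨kB w, kN w, kA w2, kB w3, (nk w2).1, (nk w2).2, n4.1, n4.2⟩)
  have e1 : flp (R c0 A B a b) {x'} z = R c0 A B z b := by funext v; grind
  have e2 : flp (R c0 A B a b) {s'} z = R c0 A B a z := by funext v; grind
  have f1 : ∀ v, (∃ x ∈ A, φ (R c0 A B a b) v ≠ φ (flp (R c0 A B a b) {x} z) v) ↔
      φ (R c0 A B a b) v ≠ φ (R c0 A B z b) v := fun v =>
    ⟨fun ⟨y, hy, e⟩ => by rwa [hA y hy, e1] at e, fun e => ⟨x', hx, by rwa [e1]⟩⟩
  have f2 : ∀ v, (∃ x ∈ B, φ (R c0 A B a b) v ≠ φ (flp (R c0 A B a b) {x} z) v) ↔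
      φ (R c0 A B a b) v ≠ φ (R c0 A B a z) v := fun v =>
    ⟨fun ⟨y, hy, e⟩ => by rwa [hB y hy, e2] at e, fun e => ⟨s', sB, by rwa [e2]⟩⟩
  refine ⟨o, t, h, a1, a2, a3, fun y hy => by rwa [hA y hy, e1], fun y hy => by rwa [hB y hy, e2],
    s3, fun v hv => ?_, fun v hv => ?_, fun v hv => ?_, fun y hy y' hy' na => ?_⟩
  · rw [f1, f2]; exact i1 v hv
  · rw [f1]; exact i2 v hv
  · rw [f2]; exact i3 v hv
  · rw [hA y hy, hB y' hy'] at na
    exact (na hadj).elim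

variable [Finite V] [Finite V'] [Finite κ] [Finite κ']

theorem World.leaf_top (k : KIso G G' φ ψ) (w : World G c0 A B a b z) (n : NLW G A B)
    (g : G3 φ G c0 A B a b z τ) {x s : V} (hx : x ∈ A) (hs : s ∈ B) (lf : ¬ NL G A s)
    (na : ¬ G.Adj x s) {a2 b2 d2 : κ'} :
    ¬ Tw (φ (R c0 A B a b)) (φ (flp (R c0 A B a b) {s} z)) (φ (flp (R c0 A B a b) {x} z))
      (φ (flp (R c0 A B a b) {s, x} z)) a2 b2 d2 := by
  intro t2
  obtain ⟨x0, hx0, adj0, nl⟩ := w.leaf_nbr n hs lf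
  have := w.ab; have := w.az; have := w.bz; have := w.disj
  obtain ⟨p, q, r, pq, pr, qr, la, lb, sf, -, -, -, s3⟩ := w.starL k n g hx0 nl
  have q0 := w.sq1 hx0 ⟨hs, adj0⟩ lf
  have q1 := k.isq q0
  have o1 := k.only q0.h01.pd q0.h02.pd fun e e1 e2 =>
    (w.adj_sq hx0 nl ⟨hs, adj0⟩ e1 e2).imp id And.left
  have kf := w.k23 hx0
  have key : ∀ u, φ (R c0 A B a b) u ≠ φ (flp (R c0 A B a b) {s} z) u →
      φ (R c0 A B a b) u = φ (flp (R c0 A B a b) {x0} z) u →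
      φ (flp (R c0 A B a b) {x0} z) u ≠ φ (flp (flp (R c0 A B a b) {x0} z) {s} a) u →
      ¬ Sw (φ (flp (R c0 A B a b) {x0} z)) (φ (flp (flp (R c0 A B a b) {x0} z) {s} a)) p r := by
    intro u h1 h2 h3 sw
    have := k.inj q0.h13.pd kf.pd
      (q1.h13.uniq_sw (k.k _ _ kf) sw sf h3 (s3 s ⟨hs, adj0⟩ u h1 h2))
    exact ne_of_at x0 (by unfold st3; grind) this
  rcases q1.cases with c | ⟨a1, b1, d1, t1⟩ | ⟨a1, b1, d1, t1⟩
  · obtain ⟨u, hu⟩ := q1.h02.ne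
    have := c u
    refine key u hu (by grind) (by grind) (Sw.of_or fun v => ?_)
    have := c v
    have := (lb s hs).or v
    grind
  · obtain ⟨q2, o2⟩ := w.sqI (Or.inr hs) (Or.inl hx) (by grind) (fun h => na h.symm)
    obtain ⟨u, y, hadj, hu, hy⟩ := t2.witness (k.isq q2) (k.only q2.h01.pd q2.h02.pd o2)
    have kx := k.k _ _ (w.k1 (Or.inl hx))
    have e1 := t1.l01.same (la x0 hx0) q1.h01
    have e2 := t1.l02.same (lb s hs) q1.h02
    have e3 := t2.l01.same (lb s hs) q1.h02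
    have e4 := t2.l02.same (la x hx) kx
    obtain ⟨rfl, rfl, rfl, rfl, rfl, rfl⟩ :
      a1 = p ∧ b1 = q ∧ d1 = r ∧ a2 = p ∧ b2 = r ∧ d2 = q := by grind
    have D : ∀ v, φ (R c0 A B a b) v ≠ φ (flp (R c0 A B a b) {x} z) v →
        φ (R c0 A B a b) v = φ (flp (R c0 A B a b) {x0} z) v := fun v hv => by
      by_contra h
      exact na (w.dis k (Or.inl hx) (Or.inl hx0) (la x hx) (la x0 hx0) hv h ▸ adj0)
    have := D y hy
    have := D u
    have := t1.pat y; have := t2.pat y; have := t1.pat u; have := t2.pat u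
    have := closure kx.pc kx.pd (la x hx) hy hadj.symm
    have := closure q1.h23.pc q1.h23.pd t1.l23 (v := u) (by grind) hadj (by grind)
    grind
  · obtain ⟨u, h1, h2⟩ := t1.R_ne q1.swap o1.swap
    have := t1.pat u
    have := t1.ab; have := t1.ad; have := t1.bd
    refine key u h1 h2 (by grind) ?_
    rcases t1.l01.same (lb s hs) q1.h02 with ⟨rfl, rfl⟩ | ⟨rfl, rfl⟩
    exacts [t1.l23, t1.l23.swap]

theorem World.wr3 (k : KIso G G' φ ψ) (w : World G c0 A B a b z) {u : V} (hu : u ∈ A)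
    (n : NLW G A B) : ∃ o t h, WR φ G G' (R c0 A B a b) (R c0 A B b a) A B z o t h := by
  obtain ⟨τ, g⟩ := w.exG3' k n
  obtain ⟨p, q, r, h⟩ := w.six k n g
  obtain ⟨s1, s2, s3, s4, s5, s6⟩ := h.sides k w
  have c1 := h.chord k w (Or.inl hu)
  have c2 := h.pA.chord k w.pA (Or.inl hu)
  have c3 := h.pA.pB.chord k w.pA.pB (Or.inl hu)
  have pat := hex_pat h.pq h.pr h.qr s1 s2 s3 s4 s5 s6 c1 c2 c3
  refine ⟨p, q, r, h.pq, h.pr, h.qr, h.abz.1, h.abz.2, c1, fun v hv => ?_, fun v hv => ?_,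
    fun v hv => ?_, fun x hx s hs na v y hv hy => ?_⟩
  · rw [← w.mvA k, ← w.mvB k]; exact (pat v).1 hv
  · rw [← w.mvA k]; exact (pat v).2.1 hv
  · rw [← w.mvB k]; exact (pat v).2.2 hv
  by_cases l1 : NL G B x
  · exact w.te_nl k n g hx l1 hs na v y hv hy
  by_cases l2 : NL G A s
  · have := w.swap.te_nl k n.symm (g.swap w) hs l2 hx (fun e => na e.symm) y v
      (by rwa [w.R_swap]) (by rwa [w.R_swap])
    exact ⟨this.1.symm, fun e => this.2 e.symm⟩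
  obtain ⟨q0, -⟩ := w.sqI (Or.inl hx) (Or.inr hs) (fun e => w.disj x hx (e ▸ hs)) na
  have q1 := k.isq q0
  rcases q1.cases with c | ⟨a1, b1, d1, t1⟩ | ⟨a1, b1, d1, t1⟩
  · have := c v
    have := c y
    have := (h.abz.1 x hx).or v
    have := (h.abz.2 s hs).or y
    refine ⟨by grind, fun hadj => ?_⟩
    have := q1.h01.pc v y hadj
    have := q1.h01.pd v y hadj
    have := q1.h23.pc v y hadj
    have := q1.h23.pd v y hadj
    grind
  · refine (w.swap.leaf_top k n.symm (g.swap w) hs hx l1 (fun e => na e.symm)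
      (a2 := a1) (b2 := b1) (d2 := d1) ?_).elim
    rwa [w.R_swap]
  · refine (w.leaf_top k n g hx hs l2 na (a2 := a1) (b2 := b1) (d2 := d1) ?_).elim
    rwa [Set.pair_comm]

theorem World.wr (k : KIso G G' φ ψ) (w : World G c0 A B a b z) {u : V} (hu : u ∈ A) :
    ∃ o t h, WR φ G G' (R c0 A B a b) (R c0 A B b a) A B z o t h := by
  by_cases n : NLW G A B
  · exact w.wr3 k hu n
  · by_cases e : ∃ s, s ∈ B
    · obtain ⟨s, hs⟩ := e
      exact w.wr2 k hu hs n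
    · exact w.wr1 k hu (fun s hs => e ⟨s, hs⟩)

end Pool.Agent.Kempe5e
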