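import Pool.Agent.Lib.MP_5e5661.Star2

/-! Three-colourings of a two-coloured component when a third colour is free. -/

namespace Pool.Agent.Kempe5e

variable {V κ : Type*} {G : SimpleGraph V}

open Classical in
/-- recolour the set `T` with `z` -/
noncomputable def flp (c : V → κ) (T : Set V) (z : κ) : V → κ := fun v => if v ∈ T then z else c v

open Classical in
@[grind =] theorem flp_apply (c : V → κ) (T : Set V) (z : κ) (v : V) :
    flp c T z v = if v ∈ T then z else c v := rfl

theorem flp_empty (c : V → κ) (z : κ) : flp c ∅ z = c := by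
  funext v; simp [flp_apply]

/-- colour `A` with `a` and `B` with `b` -/
noncomputable def R (c0 : V → κ) (A B : Set V) (a b : κ) : V → κ := flp (flp c0 B b) A a

open Classical in
@[grind =] theorem R_apply (c0 : V → κ) (A B : Set V) (a b : κ) (v : V) :
    R c0 A B a b v = if v ∈ A then a else if v ∈ B then b else c0 v := rfl

/-- neighbours inside a set -/
def Nb (G : SimpleGraph V) (B : Set V) (x : V) : Set V := {s | s ∈ B ∧ G.Adj x s}

@[grind =] theorem mem_Nb (B : Set V) (x s : V) : s ∈ Nb G B x ↔ s ∈ B ∧ G.Adj x s := Iff.rfl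

/-- at least two neighbours inside a set -/
def NL (G : SimpleGraph V) (B : Set V) (x : V) : Prop :=
  ∃ s s', s ≠ s' ∧ s ∈ Nb G B x ∧ s' ∈ Nb G B x

structure World (G : SimpleGraph V) (c0 : V → κ) (A B : Set V) (a b z : κ) : Prop where
  ab : a ≠ b
  az : a ≠ z
  bz : b ≠ z
  disj : ∀ v, v ∈ A → v ∉ B
  indA : ∀ u v, u ∈ A → v ∈ A → ¬ G.Adj u v
  indB : ∀ u v, u ∈ B → v ∈ B → ¬ G.Adj u v
  conn : Conn G (A ∪ B)
  out : ∀ u v, G.Adj u v → u ∉ A → u ∉ B → v ∉ A → v ∉ B → c0 u ≠ c0 v
  cl : ∀ u v, G.Adj u v → (u ∈ A ∨ u ∈ B) → v ∉ A → v ∉ B → c0 v ≠ a ∧ c0 v ≠ b ∧ c0 v ≠ z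

variable {c0 : V → κ} {A B : Set V} {a b z : κ}

theorem World.swap (w : World G c0 A B a b z) : World G c0 B A b a z :=
  ⟨w.ab.symm, w.bz, w.az, fun v h h' => w.disj v h' h, w.indB, w.indA,
    Set.union_comm A B ▸ w.conn, fun u v h a1 a2 a3 a4 => w.out u v h a2 a1 a4 a3,
    fun u v h a1 a2 a3 => by have := w.cl u v h a1.symm a3 a2; tauto⟩

theorem World.perm (w : World G c0 A B a b z) {x y t : κ} (h1 : x ≠ y) (h2 : x ≠ t) (h3 : y ≠ t)
    (hx : x = a ∨ x = b ∨ x = z) (hy : y = a ∨ y = b ∨ y = z) (ht : t = a ∨ t = b ∨ t = z) :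
    World G c0 A B x y t :=
  ⟨h1, h2, h3, w.disj, w.indA, w.indB, w.conn, w.out,
    fun u v h a1 a2 a3 => by have := w.cl u v h a1 a2 a3; grind⟩

theorem World.pB (w : World G c0 A B a b z) : World G c0 A B a z b :=
  w.perm w.az w.ab w.bz.symm (by simp) (by simp) (by simp)

theorem World.pA (w : World G c0 A B a b z) : World G c0 A B z b a :=
  w.perm w.bz.symm w.az.symm w.ab.symm (by simp) (by simp) (by simp)

theorem World.rot (w : World G c0 A B a b z) : World G c0 A B b z a := w.pB.pA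

theorem World.R_swap (w : World G c0 A B a b z) (x y : κ) : R c0 B A y x = R c0 A B x y := by
  funext v
  have := w.disj v
  grind

theorem World.proper (w : World G c0 A B a b z) {d : V → κ}
    (h1 : ∀ v, v ∉ A → v ∉ B → d v = c0 v)
    (h2 : ∀ v, v ∈ A ∨ v ∈ B → d v = a ∨ d v = b ∨ d v = z)
    (h3 : ∀ u v, u ∈ A → v ∈ B → G.Adj u v → d u ≠ d v) : Proper G d := by
  intro u v h
  have := w.out u v h
  have := w.cl u v h
  have := w.cl v u h.symm
  have := w.indA u v
  have := w.indB u v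
  have := h3 u v
  have := fun x y => h3 v u x y h.symm
  have := h1 u
  have := h1 v
  have := h2 u
  have := h2 v
  by_cases u ∈ A <;> by_cases u ∈ B <;> by_cases v ∈ A <;> by_cases v ∈ B <;> grind

theorem World.pR (w : World G c0 A B a b z) : Proper G (R c0 A B a b) := by
  have := w.ab; have := w.disj
  exact w.proper (by grind) (by grind) (by grind)

theorem World.pflp (w : World G c0 A B a b z) {T : Set V} (hT : ∀ v ∈ T, v ∈ A ∨ v ∈ B)
    (hi : ∀ u ∈ T, ∀ v ∈ T, ¬ G.Adj u v) : Proper G (flp (R c0 A B a b) T z) := by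
  have := w.ab; have := w.az; have := w.bz; have := w.disj
  exact w.proper (by grind) (by grind) (by grind)

theorem World.p1 (w : World G c0 A B a b z) {x : V} (hx : x ∈ A ∨ x ∈ B) :
    Proper G (flp (R c0 A B a b) {x} z) :=
  w.pflp (by grind) (fun u hu v hv => by rw [hu, hv]; exact G.irrefl)

theorem World.k1 (w : World G c0 A B a b z) {x : V} (hx : x ∈ A ∨ x ∈ B) :
    KA G (R c0 A B a b) (flp (R c0 A B a b) {x} z) := by
  have := w.az; have := w.bz
  exact KA.single w.pR (w.p1 hx) (v := x) (by grind) (by grind)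

theorem KA.center {c d : V → κ} (pc : Proper G c) (pd : Proper G d) {x : V} (hx : c x ≠ d x)
    (h : ∀ u, c u = d u ∨ u = x ∨ (G.Adj x u ∧ c u = d x ∧ d u = c x)) : KA G c d :=
  ⟨pc, pd, ⟨x, hx⟩, ⟨c x, d x, fun u hu => by have := h u; grind⟩,
    conn_of_center (v := x) hx fun u hu => by
      have := h u
      simp only [Set.mem_ofPred_eq] at hu
      tauto⟩

theorem nsw3 {c d : V → κ} (u v : V) (hu : c u ≠ d u) (hv : c v ≠ d v)
    (h : (c v ≠ c u ∧ c v ≠ d u) ∨ (d v ≠ c u ∧ d v ≠ d u)) (p q : κ) : ¬ Sw c d p q := by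
  intro s
  have := s u hu
  have := s v hv
  grind

theorem nka3 {c d : V → κ} (u v : V) (hu : c u ≠ d u) (hv : c v ≠ d v)
    (h : (c v ≠ c u ∧ c v ≠ d u) ∨ (d v ≠ c u ∧ d v ≠ d u)) : ¬ KA G c d := by
  intro k
  obtain ⟨p, q, s⟩ := k.sw
  exact nsw3 u v hu hv h p q s

theorem only_loc {c d e : V → κ} (k1 : KA G c e) (k2 : KA G d e) (h : ∀ p q, ¬ Sw c d p q)
    (v : V) (hv : c v = d v) : e v = c v := by
  by_contra n
  exact h _ _ ((k1.swat (Ne.symm n)).trans (hv ▸ k2.swat (hv ▸ Ne.symm n)).symm)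

theorem star_only {d0 d2 d3 : V → κ} {x : V} {N : Set V} {p q r : κ} (pq : p ≠ q) (pr : p ≠ r)
    (qr : q ≠ r) (x0 : d0 x = p) (x2 : d2 x = r) (x3 : d3 x = q)
    (hN : ∀ s ∈ N, G.Adj x s ∧ d0 s = q ∧ d2 s = q ∧ d3 s = r)
    (ho : ∀ v, v ≠ x → v ∉ N → d0 v = d2 v ∧ d0 v = d3 v)
    (hi : ∀ u ∈ N, ∀ v ∈ N, ¬ G.Adj u v) {s s' : V} (n : s ≠ s') (hs : s ∈ N) (hs' : s' ∈ N) :
    Only G d0 d3 d2 d2 := by
  intro e k0 k3
  left
  have loc := only_loc k0 k3 (nsw3 x s (by grind) (by grind) (by grind))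
  have one : ∀ {d : V → κ}, KA G d e → (∀ v, v ≠ x → v ∉ N → d v = e v) → d x = e x →
      ∀ u v, d u ≠ e u → d v ≠ e v → u = v := by
    intro d k h1 h2 u v hu hv
    by_contra m
    obtain ⟨y, hy, y', hy', hadj, -, -⟩ := k.conn.cross (P := {u}) hu hv rfl (Ne.symm m)
    simp only [Set.mem_ofPred_eq] at hy hy'
    exact hi y (by grind) y' (by grind) hadj
  have o0 := one k0 (by grind)
  have o3 := one k3 (by grind)
  by_cases A : d0 x = e x
  · exfalso
    have := o0 A s s'
    by_cases B : d0 s = e s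
    · exact nka3 x s (by grind) (by grind) (by grind) k3
    · exact nka3 x s' (by grind) (by grind) (by grind) k3
  · by_cases B : ∃ t ∈ N, d0 t ≠ e t
    · exfalso
      obtain ⟨t, t1, t2⟩ := B
      have sw := k0.swat A
      have ex : e x = q := by have := sw t t2; grind
      have cl := fun u (hu : u ∈ N) => closure k0.pc k0.pd sw A (hN u hu).1 (by grind)
      have := sw s (cl s hs)
      have := sw s' (cl s' hs')
      have := cl s hs
      have := cl s' hs'
      exact n (o3 (by grind) s s' (by grind) (by grind))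
    · push Not at B
      have h3 : d3 x ≠ e x := fun k => n (o3 k s s' (by grind) (by grind))
      have := k3.swat (v := s) (by grind) x h3
      funext v
      by_cases v = x <;> by_cases v ∈ N <;> grind

/-- the centre takes the colour of its neighbours, which move to the free colour -/
noncomputable def st3 (G : SimpleGraph V) (c : V → κ) (B : Set V) (x : V) (b z : κ) : V → κ :=
  flp (flp c (Nb G B x) z) {x} b

theorem World.pN (w : World G c0 A B a b z) {T : Set V} (hT : T ⊆ B) :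
    Proper G (flp (R c0 A B a b) T z) :=
  w.pflp (fun _ h => Or.inr (hT h)) fun u hu v hv => w.indB u v (hT hu) (hT hv)

theorem World.p3 (w : World G c0 A B a b z) {x : V} (hx : x ∈ A) :
    Proper G (st3 G (R c0 A B a b) B x b z) := by
  have := w.ab; have := w.az; have := w.bz; have := w.disj
  unfold st3
  exact w.proper (by grind) (by grind) (by grind)

theorem World.k23 (w : World G c0 A B a b z) {x : V} (hx : x ∈ A) :
    KA G (flp (R c0 A B a b) {x} z) (st3 G (R c0 A B a b) B x b z) := by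
  have := w.ab; have := w.az; have := w.bz; have := w.disj
  exact KA.center (w.p1 (Or.inl hx)) (w.p3 hx) (x := x) (by unfold st3; grind)
    (by unfold st3; grind)

theorem World.k31 (w : World G c0 A B a b z) {x : V} (hx : x ∈ A) :
    KA G (st3 G (R c0 A B a b) B x b z) (flp (R c0 A B a b) (Nb G B x) z) := by
  have := w.ab; have := w.az; have := w.bz; have := w.disj
  exact KA.single (w.p3 hx) (w.pN fun _ h => h.1) (v := x) (by unfold st3; grind)
    (by unfold st3; grind)

theorem World.o03 (w : World G c0 A B a b z) {x : V} (hx : x ∈ A) (nl : NL G B x) :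
    Only G (R c0 A B a b) (st3 G (R c0 A B a b) B x b z) (flp (R c0 A B a b) {x} z)
      (flp (R c0 A B a b) {x} z) := by
  have := w.disj
  obtain ⟨s, s', n, h1, h2⟩ := nl
  unfold st3
  exact star_only (x := x) (N := Nb G B x) w.ab w.az w.bz (by grind) (by grind) (by grind)
    (by grind) (by grind) (fun u hu v hv => w.indB u v hu.1 hv.1) n h1 h2

theorem World.o12 (w : World G c0 A B a b z) {x : V} (hx : x ∈ A) (nl : NL G B x) :
    Only G (flp (R c0 A B a b) (Nb G B x) z) (flp (R c0 A B a b) {x} z)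
      (st3 G (R c0 A B a b) B x b z) (st3 G (R c0 A B a b) B x b z) := by
  have := w.disj
  obtain ⟨s, s', n, h1, h2⟩ := nl
  unfold st3
  exact star_only (x := x) (N := Nb G B x) w.az w.ab w.bz.symm (by grind) (by grind) (by grind)
    (by grind) (by grind) (fun u hu v hv => w.indB u v hu.1 hv.1) n h1 h2

theorem ne_of_at {c d : V → κ} (v : V) (h : c v ≠ d v) : c ≠ d := fun e => h (e ▸ rfl)

theorem World.n2 (w : World G c0 A B a b z) {x s : V} (hx : x ∈ A) (hs : s ∈ B) :
    flp (R c0 A B a b) {x} z ≠ flp (R c0 A B a b) {s} z ∧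
      ¬ KA G (flp (R c0 A B a b) {x} z) (flp (R c0 A B a b) {s} z) := by
  have := w.ab; have := w.az; have := w.bz; have := w.disj
  exact ⟨ne_of_at x (by grind), nka3 x s (by grind) (by grind) (by grind)⟩

theorem World.n3 (w : World G c0 A B a b z) {x s : V} (hx : x ∈ A) (hs : s ∈ Nb G B x) :
    st3 G (R c0 A B a b) B x b z ≠ flp (R c0 A B a b) (Nb G B x \ {s}) z ∧
      ¬ KA G (st3 G (R c0 A B a b) B x b z) (flp (R c0 A B a b) (Nb G B x \ {s}) z) := by
  have := w.ab; have := w.az; have := w.bz; have := w.disj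
  unfold st3
  exact ⟨ne_of_at x (by grind), nka3 x s (by grind) (by grind) (by grind)⟩

theorem World.adj_sq (w : World G c0 A B a b z) {x s : V} (hx : x ∈ A) (nl : NL G B x)
    (hs : s ∈ Nb G B x) {e : V → κ} (k1 : KA G (flp (R c0 A B a b) {x} z) e)
    (k2 : KA G (flp (R c0 A B a b) {s} z) e) :
    e = R c0 A B a b ∨ (e = flp (flp (R c0 A B a b) {x} z) {s} a ∧ ¬ NL G A s) := by
  have := w.ab; have := w.az; have := w.bz; have := w.disj
  have loc := only_loc k1 k2 (nsw3 x s (by grind) (by grind) (by grind))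
  have pe := k1.pd x s hs.2
  by_cases h1 : e s = b
  · left
    have := k2.swat (v := s) (by grind) x
    funext v
    have := loc v
    grind
  · by_cases h2 : e x = z
    · have := k2.swat (v := x) (by grind) s
      have e1 : e = flp (flp (R c0 A B a b) {x} z) {s} a := by
        funext v
        have := loc v
        grind
      refine Or.inr ⟨e1, ?_⟩
      rintro ⟨u, u', n, a1, a2⟩
      have := k1.pd s u a1.2
      have := k1.pd s u' a2.2
      grind
    · exfalso
      have := k1.swat (v := x) (by grind) s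
      obtain ⟨u, u', n, a1, a2⟩ := nl
      have := k1.pd x u a1.2
      have := k1.pd x u' a2.2
      have := loc u
      have := loc u'
      grind

theorem leaf_eq {x s : V} (hx : x ∈ A) (hs : G.Adj x s) (lf : ¬ NL G A s) :
    ∀ u, u ∈ A → G.Adj u s → u = x := by
  intro u hu h
  by_contra n
  exact lf ⟨u, x, n, ⟨hu, h.symm⟩, ⟨hx, hs.symm⟩⟩

theorem World.pg (w : World G c0 A B a b z) {x s : V} (hx : x ∈ A) (hs : s ∈ Nb G B x)
    (lf : ¬ NL G A s) : Proper G (flp (flp (R c0 A B a b) {x} z) {s} a) := by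
  have := w.ab; have := w.az; have := w.bz; have := w.disj
  have := leaf_eq hx hs.2 lf
  exact w.proper (by grind) (by grind) (by grind)

theorem World.sq1 (w : World G c0 A B a b z) {x s : V} (hx : x ∈ A) (hs : s ∈ Nb G B x)
    (lf : ¬ NL G A s) :
    ISq G (R c0 A B a b) (flp (R c0 A B a b) {x} z) (flp (R c0 A B a b) {s} z)
      (flp (flp (R c0 A B a b) {x} z) {s} a) := by
  have := w.ab; have := w.az; have := w.bz; have := w.disj
  exact ⟨w.k1 (Or.inl hx), w.k1 (Or.inr hs.1),
    KA.single (w.p1 (Or.inl hx)) (w.pg hx hs lf) (v := s) (by grind) (by grind),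
    KA.center (w.p1 (Or.inr hs.1)) (w.pg hx hs lf) (x := x) (by grind) (by grind),
    (w.n2 hx hs.1).1, (w.n2 hx hs.1).2, ne_of_at x (by grind),
    nka3 x s (by grind) (by grind) (by grind)⟩

theorem World.pg3 (w : World G c0 A B a b z) {x s : V} (hx : x ∈ A) (hs : s ∈ Nb G B x)
    (lf : ¬ NL G A s) : Proper G (flp (st3 G (R c0 A B a b) B x b z) {s} a) := by
  have := w.ab; have := w.az; have := w.bz; have := w.disj
  have := leaf_eq hx hs.2 lf
  unfold st3
  exact w.proper (by grind) (by grind) (by grind)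

theorem World.sq2 (w : World G c0 A B a b z) {x s : V} (hx : x ∈ A) (hs : s ∈ Nb G B x)
    (lf : ¬ NL G A s) :
    ISq G (flp (R c0 A B a b) {x} z) (st3 G (R c0 A B a b) B x b z)
      (flp (flp (R c0 A B a b) {x} z) {s} a) (flp (st3 G (R c0 A B a b) B x b z) {s} a) := by
  have := w.ab; have := w.az; have := w.bz; have := w.disj
  refine ⟨w.k23 hx, (w.sq1 hx hs lf).h13,
    KA.single (w.p3 hx) (w.pg3 hx hs lf) (v := s) ?_ ?_,
    KA.center (w.pg hx hs lf) (w.pg3 hx hs lf) (x := x) ?_ ?_,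
    ne_of_at x ?_, nka3 x s ?_ ?_ ?_, ne_of_at x ?_, nka3 x s ?_ ?_ ?_⟩ <;> unfold st3 <;> grind

theorem World.sq3 (w : World G c0 A B a b z) {x s : V} (hx : x ∈ A) (hs : s ∈ Nb G B x)
    (lf : ¬ NL G A s) :
    ISq G (st3 G (R c0 A B a b) B x b z) (flp (st3 G (R c0 A B a b) B x b z) {s} a)
      (flp (R c0 A B a b) (Nb G B x) z) (flp (R c0 A B a b) (Nb G B x \ {s}) z) := by
  have := w.ab; have := w.az; have := w.bz; have := w.disj
  refine ⟨(w.sq2 hx hs lf).h13, w.k31 hx,
    KA.center (w.pg3 hx hs lf) (w.pN fun _ h => h.1.1) (x := x) ?_ ?_,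
    KA.single (w.pN fun _ h => h.1) (w.pN fun _ h => h.1.1) (v := s) ?_ ?_,
    ne_of_at x ?_, nka3 x s ?_ ?_ ?_, (w.n3 hx hs).1, (w.n3 hx hs).2⟩ <;>
  first | grind | (unfold st3; grind)

theorem World.pb {ι : Type*} [DecidableEq ι] [Fintype ι] (w : World G c0 A B a b z) {x : V}
    (hx : x ∈ A) {T : Set V} (hT : T ⊆ Nb G B x) {Q : Finset ι → V → κ} (h : Cube G Q)
    (q0 : Q ∅ = flp (R c0 A B a b) {x} z) (q1 : Q Finset.univ = flp (R c0 A B a b) T z)
    (nb : ∀ i, Q (fl ∅ i) ≠ R c0 A B a b) :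
    T = Nb G B x ∧ ∃ i, Q (fl ∅ i) = st3 G (R c0 A B a b) B x b z := by
  have := w.ab; have := w.az; have := w.bz; have := w.disj
  have xT : x ∉ T := fun k => w.disj x hx (hT k).1
  obtain ⟨r, -, hr⟩ := h.first' (S := ∅) (S' := Finset.univ) (v := x) (by rw [q0, q1]; grind)
  obtain ⟨v, v1, v2⟩ := h.K4 ∅ (ls_right hr)
  rw [Finset.compl_empty, q0, q1] at v1 v2
  have vT : v ∈ T → v ∈ B := fun k => (hT k).1
  have ka := h.adj ∅ r
  have hr' := mem_HS.1 hr
  rw [q0] at ka hr'
  have e1 : Q (fl ∅ r) x ≠ a := fun k =>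
    nb r (ka.uniq (w.k1 (Or.inl hx)).symm hr' (by grind))
  have e2 : Q (fl ∅ r) = st3 G (R c0 A B a b) B x b z :=
    ka.uniq (w.k23 hx) hr' (by unfold st3; grind)
  refine ⟨Set.Subset.antisymm hT fun s hs => ?_, r, e2⟩
  have := h.lemS (S := ∅) (S' := Finset.univ) (t := r) (v := s) (by simp)
    (by rw [mem_HS, q0, e2]; unfold st3; grind)
  rw [q0, q1] at this
  grind

/-- the vertices named by a finite set of elements of `I` -/
def im {I : Set V} (S : Finset I) : Set V := {v | ∃ h : v ∈ I, (⟨v, h⟩ : I) ∈ S}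

theorem im_empty {I : Set V} : im (∅ : Finset I) = ∅ := by
  ext v; simp [im]

theorem im_univ {I : Set V} [Fintype I] : im (Finset.univ : Finset I) = I := by
  ext v; simp [im]

theorem im_sub {I : Set V} (S : Finset I) : im S ⊆ I := fun _ h => h.1

theorem mem_im {I : Set V} {S : Finset I} (i : I) : i.1 ∈ im S ↔ i ∈ S :=
  ⟨fun h => h.2, fun h => ⟨i.2, h⟩⟩

theorem mem_im_fl {I : Set V} [DecidableEq I] (S : Finset I) (i : I) (v : V) :
    v ∈ im (fl S i) ↔ (v ∈ im S ↔ v ≠ i.1) := by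
  by_cases h : v ∈ I
  · have := mem_im (S := fl S i) ⟨v, h⟩
    have := mem_im (S := S) ⟨v, h⟩
    have := mem_fl (S := S) (i := i) (j := ⟨v, h⟩)
    have := Subtype.ext_iff (a1 := (⟨v, h⟩ : I)) (a2 := i)
    grind
  · have := fun k => h (im_sub S k)
    have := fun k => h (im_sub (fl S i) k)
    have := i.2
    grind

theorem im_one {I : Set V} [DecidableEq I] (i : I) : im (fl ∅ i) = {i.1} := by
  ext v; simp [mem_im_fl, im_empty]

theorem im_two {I : Set V} [DecidableEq I] {i j : I} (n : i ≠ j) :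
    im (fl (fl ∅ i) j) = {i.1, j.1} := by
  ext v
  have : i.1 ≠ j.1 := fun e => n (Subtype.ext e)
  simp only [mem_im_fl, im_empty, Set.mem_empty_iff_false, Set.mem_insert_iff,
    Set.mem_singleton_iff]
  grind

theorem im_co {I : Set V} [DecidableEq I] [Fintype I] (i : I) :
    im (fl Finset.univ i) = I \ {i.1} := by
  ext v
  have := i.2
  simp only [mem_im_fl, im_univ, Set.mem_sdiff, Set.mem_singleton_iff]
  grind

theorem im_surj {I : Set V} [Fintype I] {T : Set V} (h : T ⊆ I) : ∃ S : Finset I, im S = T := by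
  classical
  refine ⟨Finset.univ.filter fun i => i.1 ∈ T, ?_⟩
  ext v
  simp only [im, Finset.mem_filter, Finset.mem_univ, true_and, Set.mem_ofPred_eq]
  exact ⟨fun k => k.2, fun k => ⟨h k, k⟩⟩

theorem World.cube (w : World G c0 A B a b z) {I : Set V} [DecidableEq I]
    (hI : ∀ v ∈ I, v ∈ A ∨ v ∈ B) (hi : ∀ u ∈ I, ∀ v ∈ I, ¬ G.Adj u v) :
    Cube G (fun S : Finset I => flp (R c0 A B a b) (im S) z) := by
  refine cube_of_char (c := R c0 A B a b) (d := fun i : I => flp (R c0 A B a b) {i.1} z)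
    (fun i => w.k1 (hI _ i.2)) (fun i j n u v hu hv => ?_) (fun S i v h1 h2 => ?_)
    (fun S v h => ?_) w.pR
  · have e1 : u = i.1 := by grind
    have e2 : v = j.1 := by grind
    subst e1 e2
    exact ⟨fun e => n (Subtype.ext e), hi _ i.2 _ j.2⟩
  · have e1 : v = i.1 := by grind
    have := (mem_im i).2 h1
    grind
  · by_cases k : v ∈ im S
    · have := h ⟨v, k.1⟩ k.2
      grind
    · grind

end Pool.Agent.Kempe5e
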